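import Pool.Agent.E8helper24.INF.UniIdx
import Pool.Agent.Y121.AHS.Third

/-!
# The uniform one-third law for absolutely Hodge classes
-/

open CategoryTheory AlgebraicGeometry Filter Topology

open scoped ENNReal

universe u

namespace Pool.Agent.E8helper24.INF.AbsH

open Module
open Pool.Agent.H914 Pool.Agent.H914.VarClass Pool.Agent.H914.VarClass.Obj
  Pool.Agent.H914.WeilCohomology
open Pool.Agent.Y121 Pool.Agent.Y121.AHS Pool.Agent.Y121.AHS.Full
open Pool.Agent.Y133.Half (pw Sys ClassPred dimBy)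

variable {k : Type u} [Field k] {𝒱 : VarClass k} {ops : CycleOps 𝒱}

/-- For all varieties `Z` and all `n` the number of linearly independent absolutely Hodge classes on
`X^(n+1) × Z × Z` is at most `c n` times the number of linearly independent Hodge classes. -/
def AbsShare {T : HodgeTheory ops} (D : Full.Conjugates T) (X : 𝒱.Obj) (c : ℕ → ℝ) : Prop :=
  ∀ (n : ℕ) (Z : 𝒱.Obj), (Full.absDim D ((pw X n).prod (Z.prod Z)) : ℝ) ≤
    c n * hodgeDim T ((pw X n).prod (Z.prod Z))

/-- The proportion of the absolutely Hodge classes among the Hodge classes on `X^n` tends to `1 / N`,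
where `N` is a natural number at least `3` or infinity, and for every natural number `r ≤ N` it is
at most `1 / r + O(log n / n)` on `X^n × Z × Z`, uniformly in all varieties `Z`. -/
def UniformThird {T : HodgeTheory ops} (D : Full.Conjugates T) (X : 𝒱.Obj) : Prop :=
  ∃ N : ℕ∞, 3 ≤ N ∧
    Tendsto (fun n => (Full.absDim D (pw X n) : ℝ≥0∞) / hodgeDim T (pw X n)) atTop
      (𝓝 (N : ℝ≥0∞)⁻¹) ∧
    ∀ r : ℕ, 0 < r → (r : ℕ∞) ≤ N → ∃ C : ℝ,
      AbsShare D X fun n => 1 / r + C * (Real.log (n + 2) / (n + 1))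

variable {T : HodgeTheory ops} {D : Full.Conjugates T} {X : 𝒱.Obj}

/-- **The uniform one-third law.** -/
theorem third_uniform (T : HodgeTheory ops) (D : Full.Conjugates T) (hD : AllPrimes D)
    (X : 𝒱.Obj) :
    (∀ i, ∃ ε : D.J i → ℤˣ, ∀ n j, UpToSign D i ε (pw X n) j) ∨ UniformThird D X := by
  rcases third_law T D hD X with h | ⟨N, hN, ht⟩
  · exact Or.inl h
  right
  refine ⟨N, hN, ht, fun r hr0 hr => ?_⟩
  set S : Sys (toH T).W := (AH.absPred (toD D)).sys with hS
  set S' : Sys (toH T).W := (AH.hodgePred (toH T)).sys with hS'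
  have hle : ∀ Z, S.C Z ≤ S'.C Z := fun Z =>
    ClassPred.sys_le (Q := AH.absPred (toD D)) (R := AH.hodgePred (toH T)) (fun h => h.1) Z
  have ea : ∀ Z : 𝒱.Obj, S.a Z = Full.absDim D Z := by
    intro Z
    have h1 : S.a Z = finrank (toH T).W.K (S.C Z) :=
      Sys.nondeg_iff.1 (AH.abs_nondeg (toD D) Z)
    exact h1.trans (dimBy_abs Z)
  have et : ∀ Z : 𝒱.Obj, finrank (toH T).W.K (S'.C Z) = hodgeDim T Z := fun Z => rfl
  rcases subsingleton_or_nontrivial ((toH T).W.H X) with hs | hn
  · refine ⟨0, fun n Z => ?_⟩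
    have h1 : finrank (toH T).W.K ((toH T).W.H ((pw X n).prod (Z.prod Z))) = 0 := by
      rw [Pool.Agent.Y133.Half.finrank_prod, Pool.Agent.Y133.Half.finrank_pw,
        finrank_zero_of_subsingleton, zero_pow (Nat.succ_ne_zero n), Nat.zero_mul]
    have h2 : Full.absDim D ((pw X n).prod (Z.prod Z)) = 0 := by
      rw [← ea]
      have h3 := a_le_H S ((pw X n).prod (Z.prod Z))
      omega
    rw [h2, Nat.cast_zero]
    have h4 : (0 : ℝ) ≤ 1 / r + 0 * (Real.log (n + 2) / (n + 1)) := by
      rw [zero_mul, add_zero]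
      positivity
    exact mul_nonneg h4 (Nat.cast_nonneg _)
  · have hn' : Nontrivial (T.W.H X) := hn
    have h5 : Tendsto (fun n => (finrank (toH T).W.K (S'.C (pw X n)) : ℝ≥0∞) /
        S.a (pw X n)) atTop (𝓝 (N : ℝ≥0∞)) := by
      rw [← tendsto_inv_iff]
      refine ht.congr fun n => ?_
      rw [ea, et, ENNReal.inv_div (Or.inl (ENNReal.natCast_ne_top _))
        (Or.inl (by exact_mod_cast (absDim_pos (D := D) (X := X) n).ne'))]
    obtain ⟨C, hC, h⟩ := uniform_of_index hle X h5 hr
    refine ⟨C, fun n Z => ?_⟩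
    have h6 := h n Z
    rw [ea, et] at h6
    exact share_of hr0 (lrate_pos n).le hC (Nat.cast_nonneg _) h6

end Pool.Agent.E8helper24.INF.AbsH
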