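import Pool.Agent.E8helper24.INF.Uni2
import Pool.Agent.Y133.Half.Index

/-!
# The uniform index law in terms of the index
-/

open CategoryTheory AlgebraicGeometry Filter Topology

open scoped ENNReal

universe u v

set_option linter.unusedSectionVars false

namespace Pool.Agent.E8helper24.INF

open Module
open Pool.Agent.H914 Pool.Agent.H914.VarClass Pool.Agent.H914.VarClass.Obj
  Pool.Agent.H914.WeilCohomology Pool.Agent.Y133.Half

variable {k : Type u} [Field k] {𝒱 : VarClass k} {ops : CycleOps 𝒱}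
  {W : WeilCohomology.{u, v} ops} {X Y Z : 𝒱.Obj}

lemma finrank_C_pos (T : Sys W) [Nontrivial (W.H X)] (n : ℕ) :
    0 < finrank W.K (T.C (pw X n)) := by
  have h3 : Nontrivial (W.H (pw X n)) := by
    apply Module.nontrivial_of_finrank_pos (R := W.K)
    rw [finrank_pw]
    exact pow_pos Module.finrank_pos _
  rw [Module.finrank_pos_iff]
  exact ⟨⟨⟨1, T.one (pw X n)⟩, 0, fun h => one_ne_zero (congrArg Subtype.val h)⟩⟩

/-- **The uniform index law** in terms of the index. -/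
theorem uniform_of_index {S T : Sys W} (hST : ∀ X, S.C X ≤ T.C X) (X : 𝒱.Obj)
    [Nontrivial (W.H X)] {N : ℕ∞}
    (hN : Tendsto (fun n => (finrank W.K (T.C (pw X n)) : ℝ≥0∞) / S.a (pw X n)) atTop
      (𝓝 (N : ℝ≥0∞))) {r : ℕ} (hr : (r : ℕ∞) ≤ N) :
    ∃ C : ℝ, 0 ≤ C ∧ ∀ (n : ℕ) (Z : 𝒱.Obj),
      (r : ℝ) * S.a ((pw X n).prod (Z.prod Z)) ≤
        (1 + C * lrate n) * finrank W.K (T.C ((pw X n).prod (Z.prod Z))) := by
  rcases Nat.eq_zero_or_pos r with rfl | hr0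
  · refine ⟨0, le_rfl, fun n Z => ?_⟩
    rw [Nat.cast_zero, zero_mul, zero_mul, add_zero, one_mul]
    exact Nat.cast_nonneg _
  have h1 : ((r - 1 : ℕ) : ℝ≥0∞) < (N : ℝ≥0∞) := by
    have h2 : ((r - 1 : ℕ) : ℕ∞) < N := by
      refine lt_of_lt_of_le ?_ hr
      exact_mod_cast (by omega : r - 1 < r)
    exact_mod_cast h2
  obtain ⟨n₀, hn₀⟩ := eventually_atTop.1 (hN.eventually (lt_mem_nhds h1))
  have h2 := hn₀ (n₀ + n₀ + 1) (by omega)
  have h3 : r * S.a (pw X (n₀ + n₀ + 1)) <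
      finrank W.K (T.C (pw X (n₀ + n₀ + 1))) + S.a (pw X (n₀ + n₀ + 1)) := by
    have h5 := finrank_C_pos (X := X) T (n₀ + n₀ + 1)
    rcases Nat.eq_zero_or_pos (S.a (pw X (n₀ + n₀ + 1))) with h4 | h4
    · rw [h4, mul_zero, add_zero]
      exact h5
    · have h6 : ((r - 1 : ℕ) : ℝ≥0∞) * S.a (pw X (n₀ + n₀ + 1)) <
          finrank W.K (T.C (pw X (n₀ + n₀ + 1))) :=
        (ENNReal.lt_div_iff_mul_lt (Or.inl (by exact_mod_cast h4.ne'))
          (Or.inl (ENNReal.natCast_ne_top _))).1 h2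
      have h7 : (r - 1) * S.a (pw X (n₀ + n₀ + 1)) < finrank W.K (T.C (pw X (n₀ + n₀ + 1))) := by
        exact_mod_cast h6
      have h8 : r * S.a (pw X (n₀ + n₀ + 1)) = (r - 1) * S.a (pw X (n₀ + n₀ + 1)) +
          S.a (pw X (n₀ + n₀ + 1)) := by
        obtain ⟨m, rfl⟩ : ∃ m, r = m + 1 := ⟨r - 1, by omega⟩
        rw [Nat.add_sub_cancel, add_mul, one_mul]
      omega
  rw [← S.a_iso (pwAdd X n₀ n₀), ← T.finrank_C_iso (pwAdd X n₀ n₀)] at h3
  exact uniform hST X h3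

/-- The proportion form. -/
lemma share_of {a t c : ℝ} {r : ℕ} (hr : 0 < r) (hc : (0 : ℝ) ≤ c) {C : ℝ} (hC : 0 ≤ C)
    (ht : 0 ≤ t) (h : (r : ℝ) * a ≤ (1 + C * c) * t) : a ≤ (1 / r + C * c) * t := by
  have hr' : (1 : ℝ) ≤ r := by exact_mod_cast hr
  have hr0 : (0 : ℝ) < r := by exact_mod_cast hr
  have h1 : (r : ℝ) * a ≤ r * ((1 / r + C * c) * t) := by
    have e1 : (r : ℝ) * ((1 / r + C * c) * t) = (1 + r * (C * c)) * t := by
      field_simp
    rw [e1]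
    refine h.trans (mul_le_mul_of_nonneg_right ?_ ht)
    have : 0 ≤ C * c := mul_nonneg hC hc
    nlinarith
  exact le_of_mul_le_mul_left h1 hr0

end Pool.Agent.E8helper24.INF
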