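import Pool.Agent.Y121.AH.ZeroOne
import Pool.Agent.E8helper24.INF.UniIdx
import Pool.Agent.Y133.Half.PairPred

/-!
# A zero-one law for systems of classes containing classes which are not Hodge classes
-/

open CategoryTheory AlgebraicGeometry TensorProduct Filter Topology

open scoped ENNReal

universe u

namespace Pool.Agent.E8helper24.INF

open Module
open Pool.Agent.H914 Pool.Agent.H914.VarClass Pool.Agent.H914.VarClass.Obj
  Pool.Agent.H914.WeilCohomology
open Pool.Agent.Y133.Half Pool.Agent.Y121.AH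

variable {k : Type u} [Field k] {𝒱 : VarClass k} {ops : CycleOps 𝒱}

/-- The extension of the coefficients to the complex numbers as a realisation. -/
noncomputable def idRlz (T : HodgeTheory ops) : Rlz T.W (CW T) where
  s := algebraMap T.W.K ℂ
  c := 1
  ne := one_ne_zero
  E X := (Algebra.TensorProduct.includeRight : T.W.H X →ₐ[T.W.K] ℂ ⊗[T.W.K] T.W.H X).toRingHom
  semi X r a := by
    change em T.W ℂ (r • a) = _ • em T.W ℂ a
    rw [em_smul]
    rfl
  gr {X i a} ha := em_gr ha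
  nat {X Y} f b := (em_map f b).symm
  push {X Y} f a := by
    rw [one_pow, one_pow, one_smul, one_smul]
    exact (em_push f a).symm

lemma idRlz_apply (T : HodgeTheory ops) (X : 𝒱.Obj) (a : T.W.H X) :
    (idRlz T).E X a = em T.W ℂ a := rfl

/-- If the classes of `T'` on the powers of `X` are generated by those on one power under
correspondences of Hodge type, they are Hodge classes. -/
theorem hodge_of_gen {T : HodgeTheory ops} {S T' : Sys T.W}
    (hS : ∀ X, ∀ x ∈ S.C X, gop T X (em T.W ℂ x) = em T.W ℂ x) {X P : 𝒱.Obj}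
    (h : GenBy S T' X P) (n j : ℕ) {c : T.W.H (pw X n)} (hc : c ∈ T'.C (pw X n))
    (hcj : c ∈ T.W.gr (pw X n) (2 * j)) : IsHodge T (pw X n) j c := by
  have h1 : gop T (pw X n) ((idRlz T).E (pw X n) c) = (idRlz T).E (pw X n) c := by
    refine fix_of_rel (idRlz T) (μ := (gop T P).charpoly)
      (LinearMap.charpoly_monic _).ne_zero hcj fun m => ?_
    obtain ⟨r, hr⟩ := pw_pw X n m
    exact gen_rel (idRlz T) (fun X x hx => hS X x hx) (LinearMap.aeval_self_charpoly _)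
      (h r _ hr (xpw_mem _ hc m))
  exact isHodge_of_fix hcj h1

/-- The classes of a subsystem of the Hodge classes are fixed. -/
lemma gop_of_hodge {T : HodgeTheory ops} {Q : ClassPred T.W}
    (hQ : ∀ {Z : 𝒱.Obj} {j : ℕ} {c : T.W.H Z}, Q.P Z j c → IsHodge T Z j c) (X : 𝒱.Obj)
    (x : T.W.H X) (hx : x ∈ Q.sys.C X) : gop T X (em T.W ℂ x) = em T.W ℂ x := by
  have hx' : x ∈ Q.sp X := hx
  refine ClassPred.sp_ind (Q := Q) (q := fun x => gop T X (em T.W ℂ x) = em T.W ℂ x) ?_ ?_ ?_ hx'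
  · intro j x hx
    exact gop_hodge (hQ hx)
  · rw [em_zero, map_zero]
  · intro x y hx hy
    rw [em_add, map_add, hx, hy]

/-- A class of trace one in every system. -/
lemma exists_tr_sys {T : HodgeTheory ops} (Q : ClassPred T.W) (X : 𝒱.Obj) [Nontrivial (T.W.H X)] :
    ∃ l ∈ Q.sys.C X, T.W.tr X l = 1 := by
  obtain ⟨E, hE⟩ := T.dec.polar X
  have h1 : (1 : T.W.H X) ∈ T.W.gr X (2 * 0) := T.W.one_mem X
  have h2 : IsHodge T X 0 (1 : T.W.H X) := by
    rw [← T.W.cl_fund X]; exact IsHodge.cl X.V.fundCycle_mem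
  have h3 : T.W.cl X E ^ (X.dim - 2 * 0 + 1) * (1 : T.W.H X) = 0 := by
    have h4 := ((IsHodge.cl (T := T) hE.1).pow (X.dim - 2 * 0 + 1)).1
    rw [T.W.gr_eq_bot X _ (by omega)] at h4
    rw [(Submodule.mem_bot _).1 h4, zero_mul]
  obtain ⟨r, hr, h4⟩ := hE.2.2 0 (by omega) 1 h1 h2.2 h3 one_ne_zero
  have hpow : ∀ m, Q.P X m (T.W.cl X E ^ m) := by
    intro m
    induction m with
    | zero =>
      rw [pow_zero, ← T.W.cl_fund X]
      exact Q.cl X.V.fundCycle_mem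
    | succ m ih =>
      rw [pow_succ]
      exact Q.mul ih (Q.cl hE.1)
  have h5 : Q.P X X.dim (T.W.cl X E ^ (X.dim - 2 * 0) * 1 * 1) := by
    rw [mul_one, mul_one]
    exact hpow _
  rw [pow_zero, one_mul] at h4
  have hr0 : (r : T.W.K) ≠ 0 := by exact_mod_cast hr.ne'
  refine ⟨(r : T.W.K)⁻¹ • _, ClassPred.sp_of (Q := Q) (Q.smul _ h5), ?_⟩
  rw [map_smul, h4, smul_eq_mul, inv_mul_cancel₀ hr0]

/-- **The zero-one law.** -/
theorem hodge_or_growth {T : HodgeTheory ops} {Q R : ClassPred T.W}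
    (hQ : ∀ {Z : 𝒱.Obj} {j : ℕ} {c : T.W.H Z}, Q.P Z j c → IsHodge T Z j c)
    (hQR : ∀ {Z : 𝒱.Obj} {j : ℕ} {c : T.W.H Z}, Q.P Z j c → R.P Z j c) (X : 𝒱.Obj)
    [Nontrivial (T.W.H X)] :
    (∀ n j c, R.P (pw X n) j c → IsHodge T (pw X n) j c) ∨
      ∀ N : ℕ, ∃ n₀ : ℕ, ∀ n ≥ n₀, N * Q.sys.a (pw X n) ≤ finrank T.W.K (R.sys.C (pw X n)) := by
  obtain ⟨l, hl, hl1⟩ := exists_tr_sys Q X
  rcases growth_or Q.sys R.sys (ClassPred.sys_le hQR) X hl hl1 with ⟨m, P, -, hP⟩ | h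
  · left
    intro n j c hc
    exact hodge_of_gen (gop_of_hodge hQ) hP n j (ClassPred.sp_of hc) (R.gr hc)
  · exact Or.inr h

/-- The index is infinite if the dimensions grow. -/
lemma index_top {a t : ℕ → ℕ}
    (h : ∀ N : ℕ, ∃ n₀ : ℕ, ∀ n ≥ n₀, N * a n ≤ t n) (hpos : ∀ n, 0 < a n) :
    Tendsto (fun n => (t n : ℝ≥0∞) / a n) atTop (𝓝 ⊤) := by
  rw [ENNReal.tendsto_nhds_top_iff_nat]
  intro N
  obtain ⟨n₀, hn₀⟩ := h (N + 1)
  filter_upwards [eventually_ge_atTop n₀] with n hn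
  have h1 := hn₀ n hn
  have h2 : (((N + 1 : ℕ) : ℝ≥0∞)) ≤ (t n : ℝ≥0∞) / a n := by
    rw [ENNReal.le_div_iff_mul_le (Or.inl (by exact_mod_cast (hpos n).ne'))
      (Or.inl (ENNReal.natCast_ne_top _))]
    exact_mod_cast h1
  refine lt_of_lt_of_le ?_ h2
  exact_mod_cast Nat.lt_succ_self N

end Pool.Agent.E8helper24.INF
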