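import Pool.Agent.E8helper24.INF.Drb
import Pool.Agent.E8helper24.INF.ZeroOne

/-!
# The uniform index laws for de Rham-Betti, Hodge, motivated and algebraic classes
-/

open CategoryTheory AlgebraicGeometry Filter Topology

open scoped ENNReal TensorProduct

universe u v

namespace Pool.Agent.E8helper24.INF.Drb

open Module
open Pool.Agent.H914 Pool.Agent.H914.VarClass Pool.Agent.H914.VarClass.Obj
  Pool.Agent.H914.WeilCohomology Pool.Agent.Y133.Per Pool.Agent.R920.MT Pool.Agent.Y121.AHS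
open Pool.Agent.Y133.Half (pw ClassPred Sys algSys)
open Pool.Agent.H281R3.HT (algSpan)
open Pool.Agent.Y121 (AH.hodgePred)

variable {k : Type u} [Field k] {𝒱 : VarClass k} {ops : CycleOps 𝒱}

section Gen

variable {W : WeilCohomology.{u, v} ops} {X : 𝒱.Obj}

/-- The intersection of two classes of cohomology classes. -/
def inter (Q R : ClassPred W) : ClassPred W where
  P X j c := Q.P X j c ∧ R.P X j c
  gr h := Q.gr h.1
  zero := ⟨Q.zero, R.zero⟩
  add ha hb := ⟨Q.add ha.1 hb.1, R.add ha.2 hb.2⟩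
  smul r _ ha := ⟨Q.smul r ha.1, R.smul r ha.2⟩
  cl hz := ⟨Q.cl hz, R.cl hz⟩
  mul ha hb := ⟨Q.mul ha.1 hb.1, R.mul ha.2 hb.2⟩
  map f _ _ h := ⟨Q.map f h.1, R.map f h.2⟩
  push f _ _ hl _ h := ⟨Q.push f hl h.1, R.push f hl h.2⟩

lemma formRank_eq (S : Sys W) (X : 𝒱.Obj) {s : Set (W.H X)} (hs : Submodule.span W.K s = S.C X) :
    formRank (W.tr X) s = S.a X := by
  have h1 := S.a_add_num X
  have h2 : nullSet (W.tr X) s = (S.Num X : Set (W.H X)) := by
    ext c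
    constructor
    · rintro ⟨h3, h4⟩
      rw [hs] at h3
      refine ⟨h3, fun d hd => ?_⟩
      rw [← hs] at hd
      induction hd using Submodule.span_induction with
      | mem x hx => exact h4 x hx
      | zero => rw [mul_zero, map_zero]
      | add a b _ _ ha hb => rw [mul_add, map_add, ha, hb, add_zero]
      | smul r a _ ha => rw [mul_smul_comm, map_smul, ha, smul_zero]
    · rintro ⟨h3, h4⟩
      refine ⟨by rw [hs]; exact h3, fun b hb => h4 b ?_⟩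
      rw [← hs]
      exact Submodule.subset_span hb
  have h3 : Set.finrank W.K s = finrank W.K (S.C X) := by
    rw [Set.finrank, hs]
  have h4 : Set.finrank W.K (nullSet (W.tr X) s) = finrank W.K (S.Num X) := by
    rw [h2, Set.finrank, Submodule.span_eq]
  rw [formRank, h3, h4]
  omega

lemma dimBy_sys (Q : ClassPred W) (X : 𝒱.Obj) : dimBy Q.P X = finrank W.K (Q.sys.C X) := rfl

lemma rankBy_sys (Q : ClassPred W) (X : 𝒱.Obj) : rankBy Q.P X = Q.sys.a X :=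
  formRank_eq Q.sys X rfl

lemma rankBy_alg (X : 𝒱.Obj) : rankBy (IsAlg W) X = (algSys W).a X := by
  refine formRank_eq (algSys W) X ?_
  apply le_antisymm
  · rw [Submodule.span_le]
    rintro c ⟨j, z, hz, rfl⟩
    exact Submodule.subset_span (Set.mem_iUnion.2 ⟨j, z, hz, rfl⟩)
  · change algSpan W X ≤ _
    refine Submodule.span_mono ?_
    intro c hc
    obtain ⟨j, z, hz, rfl⟩ := Set.mem_iUnion.1 hc
    exact ⟨j, z, hz, rfl⟩

lemma nondeg_sys {Q : ClassPred W} (h : ∀ X, Q.sys.Nondeg X) : Nondeg Q.P := fun X => by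
  rw [rankBy_sys, dimBy_sys]
  exact Sys.nondeg_iff.1 (h X)

lemma tendsto_mul {r s t : ℕ → ℕ} {N M : ℕ∞} (hN : 1 ≤ N) (hM : 1 ≤ M)
    (hpos : ∀ n, 0 < s n) (h1 : Tendsto (fun n => (t n : ℝ≥0∞) / s n) atTop (𝓝 (N : ℝ≥0∞)))
    (h2 : Tendsto (fun n => (s n : ℝ≥0∞) / r n) atTop (𝓝 (M : ℝ≥0∞))) :
    Tendsto (fun n => (t n : ℝ≥0∞) / r n) atTop (𝓝 ((N * M : ℕ∞) : ℝ≥0∞)) := by
  have hmul := ENNReal.Tendsto.mul h1 (Or.inl (by
    have : (1 : ℝ≥0∞) ≤ N := by exact_mod_cast hN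
    exact (lt_of_lt_of_le one_pos this).ne')) h2 (Or.inl (by
    have : (1 : ℝ≥0∞) ≤ M := by exact_mod_cast hM
    exact (lt_of_lt_of_le one_pos this).ne'))
  rw [ENat.toENNReal_mul]
  refine hmul.congr fun n => ?_
  have e0 : ((s n : ℕ) : ℝ≥0∞) ≠ 0 := by exact_mod_cast (hpos n).ne'
  have e1 : ((s n : ℕ) : ℝ≥0∞) ≠ ⊤ := ENNReal.natCast_ne_top _
  rw [div_eq_mul_inv, div_eq_mul_inv, div_eq_mul_inv, mul_assoc,
    ← mul_assoc ((s n : ℝ≥0∞)⁻¹), ENNReal.inv_mul_cancel e0 e1, one_mul]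

/-- The uniform index law for two systems. -/
lemma uniformIndex_of {S T : Sys W} (hST : ∀ X, S.C X ≤ T.C X)
    [Nontrivial (W.H X)] {s t : 𝒱.Obj → ℕ} (hs : ∀ Z, s Z = S.a Z)
    (ht : ∀ Z, t Z = finrank W.K (T.C Z)) {N : ℕ∞} (h1 : 1 ≤ N)
    (hN : Tendsto (fun n => (t (pw X n) : ℝ≥0∞) / s (pw X n)) atTop (𝓝 (N : ℝ≥0∞))) :
    UniformIndex X s t N := by
  refine ⟨h1, hN, fun r hr0 hr => ?_⟩
  have h5 : Tendsto (fun n => (finrank W.K (T.C (pw X n)) : ℝ≥0∞) /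
      S.a (pw X n)) atTop (𝓝 (N : ℝ≥0∞)) := by
    refine Filter.Tendsto.congr (fun n => ?_) hN
    rw [hs, ht]
  obtain ⟨C, hC, h⟩ := uniform_of_index hST X h5 hr
  refine ⟨C, fun n Z => ?_⟩
  have h6 := h n Z
  rw [← hs, ← ht] at h6
  exact share_of hr0 (lrate_pos n).le hC (Nat.cast_nonneg _) h6

lemma one_mul_iff {N M : ℕ∞} (h1 : 1 ≤ N) (h2 : 1 ≤ M) : N * M = 1 ↔ N = 1 ∧ M = 1 := by
  constructor
  · intro h
    constructor
    · apply le_antisymm _ h1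
      calc N = N * 1 := (mul_one _).symm
        _ ≤ N * M := mul_le_mul' le_rfl h2
        _ = 1 := h
    · apply le_antisymm _ h2
      calc M = 1 * M := (one_mul _).symm
        _ ≤ N * M := mul_le_mul' h1 le_rfl
        _ = 1 := h
  · rintro ⟨rfl, rfl⟩
    exact one_mul _

end Gen

variable {T : HodgeTheory ops} {F : Subfield ℂ} {X : 𝒱.Obj}

/-- The de Rham-Betti classes satisfy the conditions on systems. -/
lemma isSystem_drb (D : DeRham T.W F) (hD : GradedDR D) : IsSystem (W := T.W) (IsDRB D) where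
  lin X j := ⟨{ carrier := {c | IsDRB D X j c}
                add_mem' := fun ha hb => IsDRB.add ha hb
                zero_mem' := IsDRB.zero
                smul_mem' := fun r _ ha => IsDRB.smul r ha }, fun _ => Iff.rfl⟩
  cl _ _ _ hz := IsDRB.cl hz
  mul _ _ _ _ _ ha hb := IsDRB.mul ha hb
  map _ _ f _ _ h := IsDRB.map f h
  push _ _ f _ _ _ hl h := IsDRB.push f hl h
  lift X _ _ hE hL hj _ hx h := drb_lift (hD X) hE hL hj hx h

/-- The classes which are Hodge classes and de Rham-Betti classes. -/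
noncomputable def hbPred (D : DeRham T.W F) : ClassPred T.W :=
  inter (AH.hodgePred (toH T)) (drbPred D)

lemma mot_hb (D : DeRham T.W F) (hD : GradedDR D) {Z : 𝒱.Obj} {j : ℕ} {c : T.W.H Z}
    (h : IsMotivated T.W Z j c) : IsHB D Z j c :=
  ⟨IsMotivated.hodge (T := toH T) h, h _ (isSystem_drb D hD)⟩

lemma lifts_hb (D : DeRham T.W F) (hD : GradedDR D) :
    Pool.Agent.Y121.AH.Lifts (toH T) (hbPred D) := by
  intro X E hE j hj v hv
  have h0 : v ∈ T.W.gr X (2 * X.dim - 2 * j) := by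
    have := (hbPred D).gr hv
    rwa [show 2 * (X.dim - j) = 2 * X.dim - 2 * j by omega] at this
  obtain ⟨x, hx, hxv⟩ := Pool.Agent.Y121.AH.hl_surj hE.2.1 hj h0
  subst hxv
  exact ⟨x, ⟨(isSystem_hodge (toH T)).lift X E j hE.1 hE.2.1 hj x hx hv.1,
    (isSystem_drb D hD).lift X E j hE.1 hE.2.1 hj x hx hv.2⟩, rfl⟩

lemma hb_nondeg (D : DeRham T.W F) (hD : GradedDR D) (X : 𝒱.Obj) : (hbPred D).sys.Nondeg X :=
  fun _ hx h => Pool.Agent.Y121.AH.q_nondeg_sys (T := toH T) (Q := hbPred D) (fun h => h.1)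
    (lifts_hb D hD) hx h

/-- Over the rational numbers the combinations of classes of cycles are classes of cycles. -/
lemma alg_of_span {j : ℕ} {c : T.W.H X} (h : c ∈ spanCycles T.W X j) : IsAlg T.W X j c := by
  rw [spanCycles_eq] at h
  induction h using Submodule.span_induction with
  | mem x hx => exact hx
  | zero => exact alg_zero j
  | add a b _ _ ha hb => exact alg_add ha hb
  | smul r a _ ha =>
    obtain ⟨q, rfl⟩ := T.rat r
    exact alg_smul q ha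

lemma alg_span_iff {j : ℕ} {c : T.W.H X} : c ∈ spanCycles T.W X j ↔ IsAlg T.W X j c :=
  ⟨alg_of_span, fun h => by rw [spanCycles_eq]; exact Submodule.subset_span h⟩

/-- **The uniform index laws.** -/
theorem four_law (D : DeRham T.W F) (hD : GradedDR D) (X : 𝒱.Obj) [Nontrivial (T.W.H X)] :
    Nondeg (IsHB D) ∧ Nondeg (IsMotivated T.W) ∧
      ∃ N₁ N₂ M : ℕ∞, FourLaw D X N₁ N₂ M ∧ (N₁ = 1 ∨ N₁ = ⊤) := by
  have hnt : Nontrivial ((toH T).W.H X) := ‹Nontrivial (T.W.H X)›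
  refine ⟨nondeg_sys (Q := hbPred D) (hb_nondeg D hD),
    nondeg_sys (Q := motPred T.W) (mot_nondeg (toH T)), ?_⟩
  obtain ⟨N₁, M₁, h1, -, hN₁, -, -, hN₁', -⟩ :=
    (hbPred D).tower (drbPred D) (fun h => h.2) X (fun n => hb_nondeg D hD (pw X n))
  obtain ⟨N₂, M, h2, h3, hN₂, hM, -, hN₂', hM', -⟩ :=
    (motPred T.W).tower (hbPred D) (fun h => mot_hb D hD h) X (fun n => mot_nondeg (toH T) (pw X n))
  have eb : ∀ Z, dimBy (IsDRB D) Z = finrank T.W.K ((drbPred D).sys.C Z) := fun _ => rfl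
  have eh : ∀ Z, dimBy (IsHB D) Z = finrank T.W.K ((hbPred D).sys.C Z) := fun _ => rfl
  have em : ∀ Z, dimBy (IsMotivated T.W) Z = finrank T.W.K ((motPred T.W).sys.C Z) := fun _ => rfl
  have eh' : ∀ Z, rankBy (IsHB D) Z = (hbPred D).sys.a Z := rankBy_sys (hbPred D)
  have em' : ∀ Z, rankBy (IsMotivated T.W) Z = (motPred T.W).sys.a Z := rankBy_sys (motPred T.W)
  have ec : ∀ Z, rankBy (IsAlg T.W) Z = (algSys T.W).a Z := rankBy_alg
  have nh : ∀ Z, (hbPred D).sys.a Z = finrank T.W.K ((hbPred D).sys.C Z) := fun Z =>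
    Sys.nondeg_iff.1 (hb_nondeg D hD Z)
  have nm : ∀ Z, (motPred T.W).sys.a Z = finrank T.W.K ((motPred T.W).sys.C Z) := fun Z =>
    Sys.nondeg_iff.1 (mot_nondeg (toH T) Z)
  have l1 : ∀ Z, (hbPred D).sys.C Z ≤ (drbPred D).sys.C Z :=
    ClassPred.sys_le (Q := hbPred D) (R := drbPred D) (fun h => h.2)
  have l2 : ∀ Z, (motPred T.W).sys.C Z ≤ (hbPred D).sys.C Z :=
    ClassPred.sys_le (Q := motPred T.W) (R := hbPred D) (fun h => mot_hb D hD h)
  have l3 : ∀ Z, (algSys T.W).C Z ≤ (motPred T.W).sys.C Z := fun Z => ClassPred.alg_le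
  have p1 : ∀ n, 0 < finrank T.W.K ((hbPred D).sys.C (pw X n)) :=
    fun n => (hbPred D).sys.finrank_pos_pw n
  have p2 : ∀ n, 0 < finrank T.W.K ((motPred T.W).sys.C (pw X n)) :=
    fun n => (motPred T.W).sys.finrank_pos_pw n
  have h12 : 1 ≤ N₁ * N₂ := by
    calc (1 : ℕ∞) = 1 * 1 := (one_mul _).symm
      _ ≤ N₁ * N₂ := mul_le_mul' h1 h2
  have h123 : 1 ≤ N₁ * N₂ * M := by
    calc (1 : ℕ∞) = 1 * 1 := (one_mul _).symm
      _ ≤ N₁ * N₂ * M := mul_le_mul' h12 h3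
  have i12 := tendsto_mul h1 h2 p1 hN₁ hN₂
  have i123 := tendsto_mul h12 h3 p2 i12 hM
  -- the five limits
  have t1 : Tendsto (fun n => (dimBy (IsDRB D) (pw X n) : ℝ≥0∞) / rankBy (IsHB D) (pw X n))
      atTop (𝓝 (N₁ : ℝ≥0∞)) := hN₁.congr fun n => by rw [eh', nh]; rfl
  have t2 : Tendsto (fun n => (dimBy (IsHB D) (pw X n) : ℝ≥0∞) /
      rankBy (IsMotivated T.W) (pw X n)) atTop (𝓝 (N₂ : ℝ≥0∞)) :=
    hN₂.congr fun n => by rw [em', nm]; rfl
  have t3 : Tendsto (fun n => (dimBy (IsMotivated T.W) (pw X n) : ℝ≥0∞) /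
      rankBy (IsAlg T.W) (pw X n)) atTop (𝓝 (M : ℝ≥0∞)) :=
    hM.congr fun n => by rw [ec, Pool.Agent.Y133.Half.numDim_eq_cycRank]; rfl
  have t12 : Tendsto (fun n => (dimBy (IsDRB D) (pw X n) : ℝ≥0∞) /
      rankBy (IsMotivated T.W) (pw X n)) atTop (𝓝 ((N₁ * N₂ : ℕ∞) : ℝ≥0∞)) :=
    i12.congr fun n => by rw [em', nm]; rfl
  have t123 : Tendsto (fun n => (dimBy (IsDRB D) (pw X n) : ℝ≥0∞) /
      rankBy (IsAlg T.W) (pw X n)) atTop (𝓝 ((N₁ * N₂ * M : ℕ∞) : ℝ≥0∞)) :=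
    i123.congr fun n => by rw [ec, Pool.Agent.Y133.Half.numDim_eq_cycRank]; rfl
  -- the equalities
  have q1 : N₁ = 1 ↔ ∀ n j c, IsDRB D (pw X n) j c → IsHB D (pw X n) j c := hN₁'
  have q2 : N₂ = 1 ↔ ∀ n j c, IsHB D (pw X n) j c → IsMotivated T.W (pw X n) j c := hN₂'
  have q3 : M = 1 ↔ ∀ n j c, IsMotivated T.W (pw X n) j c → IsAlg T.W (pw X n) j c := by
    rw [hM']
    exact forall_congr' fun n => forall_congr' fun j => forall_congr' fun c =>
      imp_congr_right fun _ => alg_span_iff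
  have a3 : ∀ {Z : 𝒱.Obj} {j : ℕ} {c : T.W.H Z}, IsAlg T.W Z j c → IsMotivated T.W Z j c := by
    rintro Z j c ⟨z, hz, rfl⟩
    exact (motPred T.W).cl hz
  have q12 : N₁ * N₂ = 1 ↔ ∀ n j c, IsDRB D (pw X n) j c → IsMotivated T.W (pw X n) j c := by
    rw [one_mul_iff h1 h2, q1, q2]
    exact ⟨fun h n j c hc => h.2 n j c (h.1 n j c hc), fun h =>
      ⟨fun n j c hc => mot_hb D hD (h n j c hc), fun n j c hc => h n j c hc.2⟩⟩
  have q123 : N₁ * N₂ * M = 1 ↔ ∀ n j c, IsDRB D (pw X n) j c → IsAlg T.W (pw X n) j c := by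
    rw [one_mul_iff h12 h3, q12, q3]
    exact ⟨fun h n j c hc => h.2 n j c (h.1 n j c hc), fun h =>
      ⟨fun n j c hc => a3 (h n j c hc), fun n j c hc => h n j c (mot_hb D hD hc).2⟩⟩
  refine ⟨N₁, N₂, M, ⟨⟨uniformIndex_of l1 eh' eb h1 t1, q1⟩, ⟨uniformIndex_of l2 em' eh h2 t2, q2⟩,
    ⟨uniformIndex_of l3 ec em h3 t3, q3⟩,
    ⟨uniformIndex_of (fun Z => (l2 Z).trans (l1 Z)) em' eb h12 t12, q12⟩,
    ⟨uniformIndex_of (fun Z => (l3 Z).trans ((l2 Z).trans (l1 Z))) ec eb h123 t123, q123⟩⟩, ?_⟩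
  rcases hodge_or_growth (T := toH T) (Q := hbPred D) (R := drbPred D) (fun h => h.1)
    (fun h => h.2) X with h | h
  · left
    rw [q1]
    exact fun n j c hc => ⟨h n j c hc, hc⟩
  · right
    have h4 : Tendsto (fun n => (dimBy (IsDRB D) (pw X n) : ℝ≥0∞) / rankBy (IsHB D) (pw X n))
        atTop (𝓝 ⊤) := by
      refine index_top (fun N => ?_) fun n => ?_
      · obtain ⟨n₀, hn₀⟩ := h N
        refine ⟨n₀, fun n hn => ?_⟩
        rw [eh', eb]
        exact hn₀ n hn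
      · rw [eh', nh]
        exact p1 n
    have h5 := tendsto_nhds_unique t1 h4
    exact_mod_cast h5

end Pool.Agent.E8helper24.INF.Drb
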