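import Pool.Agent.Y133.Half.PerDefs
import Pool.Agent.Y133.Half.PwDefs
import Pool.Agent.R920.MT.Defs
import Pool.Agent.Y121.AHS.Defs

/-!
# De Rham-Betti classes, Hodge classes and motivated classes: definitions
-/

open CategoryTheory AlgebraicGeometry Filter Topology

open scoped ENNReal

universe u v

namespace Pool.Agent.E8helper24.INF.Drb

open Pool.Agent.H914 Pool.Agent.H914.VarClass Pool.Agent.H914.VarClass.Obj
  Pool.Agent.H914.WeilCohomology Pool.Agent.Y133.Per Pool.Agent.R920.MT Pool.Agent.Y121.AHS
open Pool.Agent.Y133.Half (pw)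

section Alg

/-- The element is a sum of (one or more) elements with the property `P`. -/
inductive SumOf {B : Type*} [Add B] (P : B → Prop) : B → Prop
  | of (b : B) : P b → SumOf P b
  | add (a b : B) : SumOf P a → SumOf P b → SumOf P (a + b)

variable {K : Type*} [Field K] {A : Type*} [Ring A] [Algebra K A]

/-- The element `b` of the algebra with complex coefficients is homogeneous of degree `i`: a sum of
elements `r c` with `c` in `gr i`. -/
def IsHomog [Algebra K ℂ] (gr : ℕ → Submodule K A) (i : ℕ) (b : Base K A) : Prop :=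
  SumOf (fun x => ∃ r c, c ∈ gr i ∧ tm r c = x) b

/-- Every element of `S` is a sum of homogeneous elements of `S`. -/
def IsGradedSet [Algebra K ℂ] (gr : ℕ → Submodule K A) (S : Set (Base K A)) : Prop :=
  ∀ a ∈ S, SumOf (fun b => b ∈ S ∧ ∃ i, IsHomog gr i b) a

/-- The elements `c` of the subspace spanned by `S` with `t (c b) = 0` for all `b` in `S`. -/
def nullSet (t : A →ₗ[K] K) (S : Set A) : Set A :=
  {c | c ∈ Submodule.span K S ∧ ∀ b ∈ S, t (c * b) = 0}

/-- The rank of the form `t (a b)` on the subspace spanned by `S`. -/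
noncomputable def formRank (t : A →ₗ[K] K) (S : Set A) : ℕ :=
  Set.finrank K S - Set.finrank K (nullSet t S)

end Alg

variable {k : Type u} [Field k] {𝒱 : VarClass k} {ops : CycleOps 𝒱}

/-- `s (X^(n+1) × Z × Z) ≤ c n * t (X^(n+1) × Z × Z)` for all varieties `Z` and all `n`. -/
def Share (X : 𝒱.Obj) (s t : 𝒱.Obj → ℕ) (c : ℕ → ℝ) : Prop :=
  ∀ (n : ℕ) (Z : 𝒱.Obj), (s ((pw X n).prod (Z.prod Z)) : ℝ) ≤ c n * t ((pw X n).prod (Z.prod Z))

/-- The uniform index law with the index `N`: the quotients `t (X^n) / s (X^n)` converge to `N`, and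
for each natural number `r` with `1 ≤ r ≤ N` the proportion `s / t` is at most
`1 / r + C log (n + 2) / (n + 1)` on `X^(n+1) × Z × Z`, for all varieties `Z` and all `n`, where
`C` depends only on `X` and `r`. -/
def UniformIndex (X : 𝒱.Obj) (s t : 𝒱.Obj → ℕ) (N : ℕ∞) : Prop :=
  1 ≤ N ∧ Tendsto (fun n => (t (pw X n) : ℝ≥0∞) / s (pw X n)) atTop (𝓝 (N : ℝ≥0∞)) ∧
    ∀ r : ℕ, 0 < r → (r : ℕ∞) ≤ N → ∃ C : ℝ,
      Share X s t fun n => 1 / r + C * (Real.log (n + 2) / (n + 1))

section Pairs

variable {W : WeilCohomology.{u, v} ops} (P Q : Property W)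

/-- The classes of all codimensions on `X` with the property `P`. -/
def setOf (X : 𝒱.Obj) : Set (W.H X) := {c | ∃ j, P X j c}

/-- The dimension of the space spanned by the classes with the property `P`. -/
noncomputable def dimBy (X : 𝒱.Obj) : ℕ := Set.finrank W.K (setOf P X)

/-- The rank of the intersection form on the space spanned by the classes with the property `P`. -/
noncomputable def rankBy (X : 𝒱.Obj) : ℕ := formRank (W.tr X) (setOf P X)

/-- The intersection form on the classes with the property `P` is nondegenerate. -/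
def Nondeg : Prop := ∀ X, rankBy P X = dimBy P X

/-- The index law for the properties `P` and `Q`: the uniform index law for the rank of the
classes with the property `P` and the dimension of the space of the classes with the property `Q`,
and `N = 1` if and only if all classes on powers of `X` with the property `Q` have the
property `P`. -/
def Law (X : 𝒱.Obj) (N : ℕ∞) : Prop :=
  UniformIndex X (rankBy P) (dimBy Q) N ∧ (N = 1 ↔ ∀ n j c, Q (pw X n) j c → P (pw X n) j c)

end Pairs

/-- The classes of the algebraic cycles. -/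
def IsAlg (W : WeilCohomology.{u, v} ops) : Property W := fun X j c => c ∈ algClasses W X j

variable {T : HodgeTheory ops} {F : Subfield ℂ} (D : DeRham T.W F)

/-- The de Rham cohomology is graded. -/
def GradedDR : Prop := ∀ X : 𝒱.Obj, IsGradedSet (T.W.gr X) (D.dR X)

/-- The de Rham-Betti classes which are Hodge classes. -/
def IsHB : Property T.W := fun X j c => IsHodge T X j c ∧ IsDRB D X j c

/-- The index laws for the algebraic, the motivated, the de Rham-Betti and Hodge, and the
de Rham-Betti classes. -/
def FourLaw (X : 𝒱.Obj) (N₁ N₂ M : ℕ∞) : Prop :=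
  Law (IsHB D) (IsDRB D) X N₁ ∧ Law (IsMotivated T.W) (IsHB D) X N₂ ∧
    Law (IsAlg T.W) (IsMotivated T.W) X M ∧ Law (IsMotivated T.W) (IsDRB D) X (N₁ * N₂) ∧
    Law (IsAlg T.W) (IsDRB D) X (N₁ * N₂ * M)

end Pool.Agent.E8helper24.INF.Drb
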