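import Pool.Agent.E8helper24.INF.Fin
import Pool.Agent.Y133.Half.Index

/-!
# The infection law for conjecture D
-/

open CategoryTheory AlgebraicGeometry

universe u v

set_option linter.unusedSectionVars false

namespace Pool.Agent.E8helper24.INF

open Module
open Pool.Agent.H914 Pool.Agent.H914.VarClass Pool.Agent.H914.VarClass.Obj
  Pool.Agent.H914.WeilCohomology Pool.Agent.Y133.Half

variable {k : Type u} [Field k] {𝒱 : VarClass k} {ops : CycleOps 𝒱}

/-- The rank of the cycles on `V` modulo numerical equivalence is at most `c` times the dimension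
of the space spanned by the classes of all algebraic cycles on `V`: at most the proportion `c` of
the algebraic classes on `V` is not numerically trivial. -/
def AtMost (W : WeilCohomology.{u, v} ops) (c : ℝ) (V : 𝒱.Obj) : Prop :=
  (cycRank ops V : ℝ) ≤ c * algDim W V

lemma rate_shift {m n r : ℕ} {c : ℝ} (hn : n = m + r) (hc : (r : ℝ) + 1 ≤ c) :
    rate m ≤ √c * rate n := by
  have hc0 : 0 ≤ c := le_trans (by positivity) hc
  rw [rate, rate, ← Real.sqrt_mul hc0]
  apply Real.sqrt_le_sqrt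
  have h1 : Real.log ((m : ℝ) + 2) ≤ Real.log ((n : ℝ) + 2) := by
    apply Real.log_le_log (by positivity)
    rw [hn]
    push_cast
    have : (0 : ℝ) ≤ r := Nat.cast_nonneg _
    linarith
  have h2 : (0 : ℝ) < (m : ℝ) + 1 := by positivity
  have h3 : (0 : ℝ) < (n : ℝ) + 1 := by positivity
  have h4 : (n : ℝ) + 1 ≤ c * ((m : ℝ) + 1) := by
    have h5 : (n : ℝ) + 1 ≤ ((r : ℝ) + 1) * ((m : ℝ) + 1) := by
      rw [hn]
      push_cast
      have : (0 : ℝ) ≤ r * m := by positivity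
      nlinarith
    exact h5.trans (mul_le_mul_of_nonneg_right hc h2.le)
  have h6 := log_pos' n
  rw [mul_div_assoc', div_le_div_iff₀ h2 h3]
  calc Real.log ((m : ℝ) + 2) * ((n : ℝ) + 1) ≤ Real.log ((n : ℝ) + 2) * ((n : ℝ) + 1) :=
        mul_le_mul_of_nonneg_right h1 h3.le
    _ ≤ Real.log ((n : ℝ) + 2) * (c * ((m : ℝ) + 1)) := mul_le_mul_of_nonneg_left h4 h6.le
    _ = _ := by ring

variable {W : WeilCohomology.{u, v} ops} {X Y Z : 𝒱.Obj}

/-- The bound for `X^(n+1) × V` from the bound for `X^(m+1) × (Y × (Z × Z))`. -/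
lemma shift_bound (S : Sys W) {C : ℝ} (hC : 0 ≤ C)
    (h : ∀ (n : ℕ) (Y Z : 𝒱.Obj), Concl S X Y Z C n) (Y Z V : 𝒱.Obj) {y c : ℝ} {r : ℕ}
    (hy : 0 ≤ y) (hc : (r : ℝ) + 1 ≤ c) (hc' : 2 * (r : ℝ) ≤ c)
    (hb : (finrank W.K (W.H Y) : ℝ) ≤ y)
    (hcl : ∀ m, cl (ob X Y Z m) = cl ((pw X (m + r)).prod V)) (n : ℕ)
    (hV' : 0 < S.a ((pw X n).prod V) → 1 ≤ y) :
    (S.a ((pw X n).prod V) : ℝ) ≤
      ((C + 1) * √c * rate n * y) * finrank W.K (S.C ((pw X n).prod V)) := by
  have hr := rate_nonneg n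
  have hd : (0 : ℝ) ≤ finrank W.K (S.C ((pw X n).prod V)) := Nat.cast_nonneg _
  have hsc : (0 : ℝ) ≤ √c := Real.sqrt_nonneg _
  rcases le_or_gt r n with hn | hn
  · obtain ⟨m, hm⟩ : ∃ m, n = m + r := ⟨n - r, by omega⟩
    have h1 := h m Y Z
    rw [Concl, a_cl S (hcl m), C_cl S (hcl m), ← hm] at h1
    refine h1.trans (mul_le_mul_of_nonneg_right ?_ hd)
    have h2 := rate_shift hm hc
    calc C * finrank W.K (W.H Y) * rate m ≤ C * y * (√c * rate n) := by
          refine mul_le_mul (mul_le_mul_of_nonneg_left hb hC) h2 (rate_nonneg m) (by positivity)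
      _ ≤ (C + 1) * √c * rate n * y := by
          have : 0 ≤ √c * rate n * y := by positivity
          nlinarith
  · rcases Nat.eq_zero_or_pos (S.a ((pw X n).prod V)) with h0 | h0
    · rw [h0, Nat.cast_zero]
      positivity
    have hy1 := hV' h0
    have h1 : (S.a ((pw X n).prod V) : ℝ) ≤ finrank W.K (S.C ((pw X n).prod V)) := by
      exact_mod_cast a_le_C S _
    refine h1.trans (le_mul_of_one_le_left hd ?_)
    -- `1 ≤ √c * rate n`
    have h2 : 1 ≤ √(2 * (((r - 1 : ℕ) : ℝ) + 1)) * rate n := one_le_rate (by omega)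
    have h3 : (2 * (((r - 1 : ℕ) : ℝ) + 1)) = 2 * (r : ℝ) := by
      have h4 : ((r - 1 : ℕ) : ℝ) + 1 = ((r - 1 + 1 : ℕ) : ℝ) := by push_cast; ring
      rw [h4]
      congr 2
      omega
    rw [h3] at h2
    have h4 : √(2 * (r : ℝ)) ≤ √c := Real.sqrt_le_sqrt hc'
    have h5 : 1 ≤ √c * rate n := h2.trans (mul_le_mul_of_nonneg_right h4 hr)
    calc (1 : ℝ) ≤ √c * rate n := h5
      _ ≤ (√c * rate n) * y := le_mul_of_one_le_right (by positivity) hy1
      _ ≤ (C + 1) * √c * rate n * y := by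
          have : 0 ≤ √c * rate n * y := by positivity
          nlinarith

/-- **The infection law for conjecture D.** -/
theorem d_infection (W : WeilCohomology.{u, v} ops) (X : 𝒱.Obj) :
    (∀ n, HomEqNum W (pw X n)) ∨
      ∃ C : ℝ, ∀ n : ℕ,
        (∀ Z : 𝒱.Obj, AtMost W (C * rate n) ((pw X n).prod (Z.prod Z))) ∧
        (∀ Y : 𝒱.Obj, AtMost W (C * rate n * finrank W.K (W.H Y)) ((pw X n).prod Y)) ∧
        (∀ Y Z : 𝒱.Obj, AtMost W (C * rate n * finrank W.K (W.H Y))
          ((pw X n).prod (Y.prod (Z.prod Z)))) := by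
  rcases infection (algSys W) X with h | ⟨C, hC, h⟩
  · exact Or.inl fun n => (homEqNum_iff _).2 (h n)
  right
  set b := finrank W.K (W.H X) with hb
  have e0 : ∀ V : 𝒱.Obj, ((algSys W).a V : ℝ) = cycRank ops V := fun V => by
    rw [numDim_eq_cycRank W V]
  have e1 : ∀ V : 𝒱.Obj, (finrank W.K ((algSys W).C V) : ℝ) = algDim W V := fun V => by
    rw [algDim_eq]
    rfl
  have hd : ∀ V : 𝒱.Obj, (0 : ℝ) ≤ algDim W V := fun V => Nat.cast_nonneg _
  have hbpos : ∀ V : 𝒱.Obj, 0 < (algSys W).a V → (1 : ℝ) ≤ finrank W.K (W.H V) := by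
    intro V hV
    have := a_le_H (algSys W) V
    exact_mod_cast (by omega : 1 ≤ finrank W.K (W.H V))
  have hpos_of : ∀ {V V' : 𝒱.Obj} (_ : V ⟶ V'), 0 < (algSys W).a V → 0 < (algSys W).a V' := by
    intro V V' f hV
    by_contra h0
    have h1 := a_prod_eq_zero (algSys W) (Nat.eq_zero_of_not_pos h0) f
    omega
  -- the three bounds
  have key1 : ∀ (n : ℕ) (Z : 𝒱.Obj), (cycRank ops ((pw X n).prod (Z.prod Z)) : ℝ) ≤
      ((C + 1) * √2 * rate n * b) * algDim W ((pw X n).prod (Z.prod Z)) := by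
    intro n Z
    rw [← e0, ← e1]
    refine shift_bound (algSys W) hC h X Z (Z.prod Z) (r := 1) (by positivity) (by norm_num)
      (by norm_num) le_rfl (fun m => ?_) n (fun hV => ?_)
    · rw [ob]
      simp only [cl_prod, cl_pw]
      change _ = (pwc (cl X) m * cl X) * _
      ac_rfl
    · exact hbpos X (hpos_of (fst _ _ ≫ prj X n 0) hV)
  have key2 : ∀ (n : ℕ) (Y : 𝒱.Obj), (cycRank ops ((pw X n).prod Y) : ℝ) ≤
      ((C + 1) * √4 * rate n * finrank W.K (W.H Y)) * algDim W ((pw X n).prod Y) := by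
    intro n Y
    rw [← e0, ← e1]
    refine shift_bound (algSys W) hC h Y X Y (r := 2) (by positivity) (by norm_num)
      (by norm_num) le_rfl (fun m => ?_) n (fun hV => ?_)
    · rw [ob]
      simp only [cl_prod, cl_pw]
      change _ = ((pwc (cl X) m * cl X) * cl X) * _
      ac_rfl
    · exact hbpos Y (hpos_of (snd _ _) hV)
  refine ⟨(C + 1) * 2 * (b + 1), fun n => ⟨fun Z => ?_, fun Y => ?_, fun Y Z => ?_⟩⟩
  · refine (key1 n Z).trans (mul_le_mul_of_nonneg_right ?_ (hd _))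
    have h1 : √(2 : ℝ) ≤ 2 := by
      rw [Real.sqrt_le_left (by norm_num)]
      norm_num
    have h2 : (0 : ℝ) ≤ (C + 1) * rate n := mul_nonneg (by linarith) (rate_nonneg n)
    have h3 : √(2 : ℝ) * b ≤ 2 * (b + 1) := by
      have : (0 : ℝ) ≤ b := Nat.cast_nonneg _
      nlinarith
    calc (C + 1) * √2 * rate n * b = ((C + 1) * rate n) * (√2 * b) := by ring
      _ ≤ ((C + 1) * rate n) * (2 * (b + 1)) := mul_le_mul_of_nonneg_left h3 h2
      _ = _ := by ring
  · refine (key2 n Y).trans (mul_le_mul_of_nonneg_right ?_ (hd _))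
    have h1 : √(4 : ℝ) = 2 := by
      rw [show (4 : ℝ) = 2 ^ 2 by norm_num]
      exact Real.sqrt_sq (by norm_num)
    rw [h1]
    have h2 : (0 : ℝ) ≤ (C + 1) * 2 * rate n * finrank W.K (W.H Y) := by
      have := rate_nonneg n
      positivity
    have h3 : (0 : ℝ) ≤ b := Nat.cast_nonneg _
    nlinarith
  · have h1 := h n Y Z
    rw [Concl, e0, e1] at h1
    refine h1.trans (mul_le_mul_of_nonneg_right ?_ (hd _))
    have h2 : (0 : ℝ) ≤ rate n * finrank W.K (W.H Y) :=
      mul_nonneg (rate_nonneg n) (Nat.cast_nonneg _)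
    have h3 : C ≤ (C + 1) * 2 * (b + 1) := by
      have : (0 : ℝ) ≤ b := Nat.cast_nonneg _
      nlinarith
    calc C * finrank W.K (W.H Y) * rate n = C * (rate n * finrank W.K (W.H Y)) := by ring
      _ ≤ ((C + 1) * 2 * (b + 1)) * (rate n * finrank W.K (W.H Y)) :=
          mul_le_mul_of_nonneg_right h3 h2
      _ = _ := by ring

end Pool.Agent.E8helper24.INF
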