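import Pool.Agent.E8helper24.INF.Flat

/-!
# The case of a smaller growth rate
-/

open CategoryTheory AlgebraicGeometry

universe u v

set_option linter.unusedSectionVars false

namespace Pool.Agent.E8helper24.INF

open Module
open Pool.Agent.H914 Pool.Agent.H914.VarClass Pool.Agent.H914.VarClass.Obj
  Pool.Agent.H914.WeilCohomology Pool.Agent.Y133.Half

lemma le_of_pow_real {x y D : ℝ} (hx : 0 ≤ x) (hy : 0 < y)
    (h : ∀ j : ℕ, x ^ (2 ^ j) ≤ y ^ (2 ^ j) * D) : x ≤ y := by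
  by_contra hlt
  push Not at hlt
  have h1 : 1 < x / y := (one_lt_div hy).2 hlt
  obtain ⟨j, hj⟩ := pow_unbounded_of_one_lt D h1
  have h2 : (x / y) ^ j ≤ (x / y) ^ (2 ^ j) :=
    pow_le_pow_right₀ h1.le Nat.lt_two_pow_self.le
  have h3 : (x / y) ^ (2 ^ j) ≤ D := by
    rw [div_pow, div_le_iff₀ (pow_pos hy _), mul_comm]
    exact h j
  linarith

variable {k : Type u} [Field k] {𝒱 : VarClass k} {ops : CycleOps 𝒱}
  {W : WeilCohomology.{u, v} ops} {X Y Z P Q U : 𝒱.Obj}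

/-- The Cauchy-Schwarz inequality for powers. -/
lemma cs_pw (S : Sys W) (X Q : 𝒱.Obj) (m : ℕ) :
    S.a ((pw X m).prod (Q.prod Q)) ^ 2 ≤
      S.a ((pw X (m + m + 1)).prod (Q.prod Q)) * S.a (Q.prod Q) := by
  have h := S.cs (P := pw X m) (g := 1) (g' := 1) Sys.Op.id rfl Adj.one Q
  rw [extOp_one, Sys.r_one, Sys.r_one] at h
  have h2 : S.a (((pw X m).prod (pw X m)).prod (Q.prod Q)) =
      S.a ((pw X (m + m + 1)).prod (Q.prod Q)) := by
    apply a_cl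
    simp only [cl_prod, cl_pw, pwc_add]
  rw [h2] at h
  exact h

lemma cs_iter (S : Sys W) (X Q : 𝒱.Obj) (j : ℕ) :
    S.a ((pw X 1).prod (Q.prod Q)) ^ (2 ^ j) * S.a (Q.prod Q) ≤
      S.a ((pw X (2 ^ (j + 1) - 1)).prod (Q.prod Q)) * S.a (Q.prod Q) ^ (2 ^ j) := by
  induction j with
  | zero => simp
  | succ j ih =>
    set R := S.a ((pw X 1).prod (Q.prod Q))
    set α := S.a (Q.prod Q)
    rcases Nat.eq_zero_or_pos α with h0 | h0
    · rw [h0]; simp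
    have h1 := cs_pw S X Q (2 ^ (j + 1) - 1)
    have e1 : 2 ^ (j + 1) - 1 + (2 ^ (j + 1) - 1) + 1 = 2 ^ (j + 1 + 1) - 1 := by
      have : 0 < 2 ^ (j + 1) := by positivity
      rw [pow_succ 2 (j + 1)]
      omega
    rw [e1] at h1
    set R' := S.a ((pw X (2 ^ (j + 1) - 1)).prod (Q.prod Q))
    set R'' := S.a ((pw X (2 ^ (j + 1 + 1) - 1)).prod (Q.prod Q))
    have h2 : (R ^ (2 ^ (j + 1)) * α) * α ≤ (R'' * α ^ (2 ^ (j + 1))) * α := by
      calc (R ^ (2 ^ (j + 1)) * α) * α = (R ^ (2 ^ j) * α) ^ 2 := by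
            rw [mul_pow, ← pow_mul, pow_succ 2 j]; ring
        _ ≤ (R' * α ^ (2 ^ j)) ^ 2 := Nat.pow_le_pow_left ih 2
        _ = R' ^ 2 * α ^ (2 ^ (j + 1)) := by rw [mul_pow, ← pow_mul, pow_succ 2 j]
        _ ≤ (R'' * α) * α ^ (2 ^ (j + 1)) := Nat.mul_le_mul_right _ h1
        _ = _ := by ring
    exact Nat.le_of_mul_le_mul_right h2 h0

/-- **The improved rank bound.** -/
theorem sq_step (S : Sys W) {c : ℝ} (hc : 0 < c)
    (h : ∀ l, (S.al X (l + 1) : ℝ) ≤ c * S.al X l) (Q : 𝒱.Obj) :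
    (S.a ((pw X 1).prod (Q.prod Q)) : ℝ) ≤ c * S.a (Q.prod Q) := by
  rcases Nat.eq_zero_or_pos (S.a (Q.prod Q)) with h0 | h0
  · have h1 : S.a ((pw X 1).prod (Q.prod Q)) = 0 := a_prod_eq_zero S h0 (snd _ _)
    rw [h1, h0]
    simp
  have hα : (0 : ℝ) < S.a (Q.prod Q) := by exact_mod_cast h0
  apply le_of_pow_real (D := finrank W.K (W.H (Q.prod Q)) * S.al X 0 / (c * S.a (Q.prod Q)))
    (Nat.cast_nonneg _) (by positivity)
  intro j
  have h1 := cs_iter S X Q j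
  have h2 : S.a ((pw X (2 ^ (j + 1) - 1)).prod (Q.prod Q)) ≤
      finrank W.K (W.H (Q.prod Q)) * S.al X (2 ^ j - 1) := by
    have h3 := S.a_le (Q.prod Q) (pw X (2 ^ j - 1))
    have h4 : S.a ((Q.prod Q).prod ((pw X (2 ^ j - 1)).prod (pw X (2 ^ j - 1)))) =
        S.a ((pw X (2 ^ (j + 1) - 1)).prod (Q.prod Q)) := by
      apply a_cl
      have e1 : 2 ^ (j + 1) - 1 = 2 ^ j - 1 + (2 ^ j - 1) + 1 := by
        have : 0 < 2 ^ j := by positivity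
        rw [pow_succ 2 j]
        omega
      rw [e1]
      simp only [cl_prod, cl_pw, ← pwc_add]
      ac_rfl
    rw [h4] at h3
    exact h3
  have h3 := geom_bound hc.le h (2 ^ j - 1)
  have h4 : (S.a ((pw X 1).prod (Q.prod Q)) : ℝ) ^ (2 ^ j) * S.a (Q.prod Q) ≤
      finrank W.K (W.H (Q.prod Q)) * (c ^ (2 ^ j - 1) * S.al X 0) *
        (S.a (Q.prod Q) : ℝ) ^ (2 ^ j) := by
    calc (S.a ((pw X 1).prod (Q.prod Q)) : ℝ) ^ (2 ^ j) * S.a (Q.prod Q) ≤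
        S.a ((pw X (2 ^ (j + 1) - 1)).prod (Q.prod Q)) * (S.a (Q.prod Q) : ℝ) ^ (2 ^ j) := by
          exact_mod_cast h1
      _ ≤ (finrank W.K (W.H (Q.prod Q)) * S.al X (2 ^ j - 1)) *
          (S.a (Q.prod Q) : ℝ) ^ (2 ^ j) := by
          refine mul_le_mul_of_nonneg_right ?_ (by positivity)
          exact_mod_cast h2
      _ ≤ _ := by
          refine mul_le_mul_of_nonneg_right ?_ (by positivity)
          exact mul_le_mul_of_nonneg_left h3 (Nat.cast_nonneg _)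
  have h5 : (c : ℝ) ^ (2 ^ j) = c ^ (2 ^ j - 1) * c := by
    rw [← pow_succ]
    congr 1
    have : 0 < 2 ^ j := by positivity
    omega
  rw [mul_pow, h5, mul_div_assoc', le_div_iff₀ (by positivity)]
  calc (S.a ((pw X 1).prod (Q.prod Q)) : ℝ) ^ (2 ^ j) * (c * S.a (Q.prod Q)) =
      c * ((S.a ((pw X 1).prod (Q.prod Q)) : ℝ) ^ (2 ^ j) * S.a (Q.prod Q)) := by ring
    _ ≤ c * (finrank W.K (W.H (Q.prod Q)) * (c ^ (2 ^ j - 1) * S.al X 0) *
        (S.a (Q.prod Q) : ℝ) ^ (2 ^ j)) := mul_le_mul_of_nonneg_left h4 hc.le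
    _ = _ := by ring

lemma sq_geom (S : Sys W) {c : ℝ} (hc : 0 < c)
    (h : ∀ l, (S.al X (l + 1) : ℝ) ≤ c * S.al X l) (Z : 𝒱.Obj) (l : ℕ) :
    (S.a (sq X Z l) : ℝ) ≤ c ^ (l + 1) * S.a (Z.prod Z) := by
  induction l with
  | zero =>
    have h1 := sq_step S hc h Z
    have h2 : S.a ((pw X 1).prod (Z.prod Z)) = S.a (sq X Z 0) := by
      apply a_cl
      rw [cl_sq, cl_prod, cl_prod, cl_pw]
      ac_rfl
    rw [h2] at h1
    simpa using h1
  | succ l ih =>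
    have h1 := sq_step S hc h (Z.prod (pw X l))
    have h2 : S.a ((pw X 1).prod ((Z.prod (pw X l)).prod (Z.prod (pw X l)))) =
        S.a (sq X Z (l + 1)) := by
      apply a_cl
      have := cl_pw_sq X Z 1 l 1 (by ring)
      rw [← this, cl_prod, cl_pw]
      rfl
    rw [h2] at h1
    calc (S.a (sq X Z (l + 1)) : ℝ) ≤ c * S.a (sq X Z l) := h1
      _ ≤ c * (c ^ (l + 1) * S.a (Z.prod Z)) := mul_le_mul_of_nonneg_left ih hc.le
      _ = _ := by ring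

/-- The number of classes on `Y × (Z × X^(l+1))²`. -/
lemma C_ge (S : Sys W) (X Y Z : 𝒱.Obj) (l : ℕ) (hY : 0 < S.a Y) :
    S.a (Z.prod Z) * (finrank W.K (W.H X) ^ 2) ^ (l + 1) ≤
      finrank W.K (S.C (Y.prod (sq X Z l))) * (l + 2) ^ (finrank W.K (W.H X) ^ 2) := by
  have h1 := S.growth X l
  have h2 := finrank_C_prod_ge S (Z.prod Z) ((pw X l).prod (pw X l))
  have h3 := finrank_C_prod_ge S Y ((Z.prod Z).prod ((pw X l).prod (pw X l)))
  have h4 : finrank W.K (S.C (Y.prod ((Z.prod Z).prod ((pw X l).prod (pw X l))))) =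
      finrank W.K (S.C (Y.prod (sq X Z l))) := by
    apply C_cl
    simp only [cl_prod, cl_sq, cl_pw, ← pwc_add]
  rw [h4] at h3
  have h5 : 0 < finrank W.K (S.C Y) := by
    have := S.a_add_num Y
    omega
  have h6 : S.a (Z.prod Z) ≤ finrank W.K (S.C (Z.prod Z)) := by
    have := S.a_add_num (Z.prod Z)
    omega
  calc S.a (Z.prod Z) * (finrank W.K (W.H X) ^ 2) ^ (l + 1) =
      S.a (Z.prod Z) * finrank W.K (W.H X) ^ (2 * (l + 1)) := by rw [← pow_mul]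
    _ ≤ finrank W.K (S.C (Z.prod Z)) * (finrank W.K (S.C ((pw X l).prod (pw X l))) *
        (l + 2) ^ (finrank W.K (W.H X) ^ 2)) := Nat.mul_le_mul h6 h1
    _ = (finrank W.K (S.C (Z.prod Z)) * finrank W.K (S.C ((pw X l).prod (pw X l)))) *
        (l + 2) ^ (finrank W.K (W.H X) ^ 2) := by ring
    _ ≤ finrank W.K (S.C ((Z.prod Z).prod ((pw X l).prod (pw X l)))) *
        (l + 2) ^ (finrank W.K (W.H X) ^ 2) := Nat.mul_le_mul_right _ h2
    _ ≤ (finrank W.K (S.C Y) * finrank W.K (S.C ((Z.prod Z).prod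
        ((pw X l).prod (pw X l))))) * (l + 2) ^ (finrank W.K (W.H X) ^ 2) :=
        Nat.mul_le_mul_right _ (Nat.le_mul_of_pos_left _ h5)
    _ ≤ _ := Nat.mul_le_mul_right _ h3

/-- The ratio in the case of a smaller growth rate. -/
theorem case_one (S : Sys W) (hX : 0 < finrank W.K (W.H X)) {c : ℝ} (hc : 0 < c)
    (hcB : c < (finrank W.K (W.H X) : ℝ) ^ 2)
    (h : ∀ l, (S.al X (l + 1) : ℝ) ≤ c * S.al X l) :
    ∃ l₀ : ℕ, ∀ l ≥ l₀, ∀ Y Z : 𝒱.Obj, 0 < S.a Y →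
      (S.a (Y.prod (sq X Z l)) : ℝ) * (l + 2) ≤
        finrank W.K (W.H Y) * finrank W.K (S.C (Y.prod (sq X Z l))) := by
  set b := finrank W.K (W.H X) with hb
  have hB0 : (0 : ℝ) < (b : ℝ) ^ 2 := by positivity
  obtain ⟨l₀, hl₀⟩ := exp_lt hc.le hcB (b ^ 2 + 1) (C := c) (ε := (b : ℝ) ^ 2) hB0
  refine ⟨l₀, fun l hl Y Z hY => ?_⟩
  have h1 : (S.a (Y.prod (sq X Z l)) : ℝ) ≤ finrank W.K (W.H Y) * S.a (sq X Z l) := by
    exact_mod_cast S.a_le Y (Z.prod (pw X l))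
  have h2 := sq_geom S hc h Z l
  have h3 := C_ge S X Y Z l hY
  rw [← hb] at h3
  have h3' : (S.a (Z.prod Z) : ℝ) * ((b : ℝ) ^ 2) ^ (l + 1) ≤
      finrank W.K (S.C (Y.prod (sq X Z l))) * ((l : ℝ) + 2) ^ (b ^ 2) := by exact_mod_cast h3
  have h4 := hl₀ l hl
  set κ := b ^ 2 with hκ
  have hl2 : (0 : ℝ) < (l : ℝ) + 2 := by positivity
  have h5 : c ^ (l + 1) * ((l : ℝ) + 2) ^ (κ + 1) ≤ ((b : ℝ) ^ 2) ^ (l + 1) := by
    calc c ^ (l + 1) * ((l : ℝ) + 2) ^ (κ + 1) = c * c ^ l * ((l : ℝ) + 2) ^ (κ + 1) := by ring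
      _ ≤ (b : ℝ) ^ 2 * ((b : ℝ) ^ 2) ^ l := h4
      _ = _ := by ring
  have hYn : (0 : ℝ) ≤ finrank W.K (W.H Y) := Nat.cast_nonneg _
  have hZn : (0 : ℝ) ≤ S.a (Z.prod Z) := Nat.cast_nonneg _
  have h6 : ((S.a (Y.prod (sq X Z l)) : ℝ) * (l + 2)) * ((l : ℝ) + 2) ^ κ ≤
      (finrank W.K (W.H Y) * finrank W.K (S.C (Y.prod (sq X Z l)))) * ((l : ℝ) + 2) ^ κ := by
    calc ((S.a (Y.prod (sq X Z l)) : ℝ) * (l + 2)) * ((l : ℝ) + 2) ^ κ =
        (S.a (Y.prod (sq X Z l)) : ℝ) * ((l : ℝ) + 2) ^ (κ + 1) := by ring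
      _ ≤ (finrank W.K (W.H Y) * (c ^ (l + 1) * S.a (Z.prod Z))) *
          ((l : ℝ) + 2) ^ (κ + 1) := by
          refine mul_le_mul_of_nonneg_right (h1.trans ?_) (by positivity)
          exact mul_le_mul_of_nonneg_left h2 hYn
      _ = (finrank W.K (W.H Y) * S.a (Z.prod Z)) *
          (c ^ (l + 1) * ((l : ℝ) + 2) ^ (κ + 1)) := by ring
      _ ≤ (finrank W.K (W.H Y) * S.a (Z.prod Z)) * ((b : ℝ) ^ 2) ^ (l + 1) :=
          mul_le_mul_of_nonneg_left h5 (by positivity)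
      _ = finrank W.K (W.H Y) * (S.a (Z.prod Z) * ((b : ℝ) ^ 2) ^ (l + 1)) := by ring
      _ ≤ finrank W.K (W.H Y) * (finrank W.K (S.C (Y.prod (sq X Z l))) *
          ((l : ℝ) + 2) ^ κ) := mul_le_mul_of_nonneg_left h3' hYn
      _ = _ := by ring
  exact le_of_mul_le_mul_right h6 (by positivity)

end Pool.Agent.E8helper24.INF
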