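import Pool.Agent.E8helper24.INF.Master
import Pool.Agent.E8helper24.INF.CaseI

/-!
# The infection law for systems of classes
-/

open CategoryTheory AlgebraicGeometry

universe u v

set_option linter.unusedSectionVars false

namespace Pool.Agent.E8helper24.INF

open Module
open Pool.Agent.H914 Pool.Agent.H914.VarClass Pool.Agent.H914.VarClass.Obj
  Pool.Agent.H914.WeilCohomology Pool.Agent.Y133.Half

/-- The rate `√(log (n + 2) / (n + 1))`. -/
noncomputable def rate (n : ℕ) : ℝ := √(Real.log (n + 2) / (n + 1))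

lemma log_ge (n : ℕ) : Real.log 2 ≤ Real.log ((n : ℝ) + 2) := by
  apply Real.log_le_log (by norm_num)
  have : (0 : ℝ) ≤ n := Nat.cast_nonneg n
  linarith

lemma log_pos' (n : ℕ) : 0 < Real.log ((n : ℝ) + 2) :=
  lt_of_lt_of_le (Real.log_pos (by norm_num)) (log_ge n)

lemma rate_nonneg (n : ℕ) : 0 ≤ rate n := Real.sqrt_nonneg _

lemma le_rate {n : ℕ} {x y : ℝ} (hx : 0 ≤ x) (h : x ≤ y * (Real.log (n + 2) / (n + 1)))
    (hy : 0 ≤ y) : √x ≤ √y * rate n := by
  rw [rate, ← Real.sqrt_mul hy]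
  exact Real.sqrt_le_sqrt h

lemma inv_le_rate (n : ℕ) : 1 / ((n : ℝ) + 1) ≤ 2 * rate n := by
  have h1 : (0 : ℝ) < (n : ℝ) + 1 := by positivity
  have h2 : (1 / ((n : ℝ) + 1)) ^ 2 ≤ 4 * (Real.log (n + 2) / (n + 1)) := by
    rw [div_pow, one_pow, mul_div_assoc', div_le_div_iff₀ (by positivity) h1]
    have h3 : (0.5 : ℝ) ≤ Real.log (n + 2) := by
      have := log_ge n
      have := Real.log_two_gt_d9
      linarith
    have h4 : (1 : ℝ) ≤ (n : ℝ) + 1 := by
      have : (0 : ℝ) ≤ n := Nat.cast_nonneg n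
      linarith
    calc 1 * ((n : ℝ) + 1) ≤ ((n : ℝ) + 1) * ((n : ℝ) + 1) := by nlinarith
      _ ≤ 4 * Real.log (n + 2) * ((n : ℝ) + 1) ^ 2 := by nlinarith
  have h3 := le_rate (n := n) (sq_nonneg _) h2 (by norm_num)
  rw [Real.sqrt_sq (by positivity)] at h3
  have h4 : √(4 : ℝ) = 2 := by
    rw [show (4 : ℝ) = 2 ^ 2 by norm_num]
    exact Real.sqrt_sq (by norm_num)
  rwa [h4] at h3

lemma one_le_rate {n n₀ : ℕ} (h : n ≤ n₀) : 1 ≤ √(2 * ((n₀ : ℝ) + 1)) * rate n := by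
  have h1 : (0 : ℝ) < (n : ℝ) + 1 := by positivity
  have h2 : (1 : ℝ) ≤ 2 * ((n₀ : ℝ) + 1) * (Real.log (n + 2) / (n + 1)) := by
    rw [mul_div_assoc', le_div_iff₀ h1]
    have h3 : (0.5 : ℝ) ≤ Real.log (n + 2) := by
      have := log_ge n
      have := Real.log_two_gt_d9
      linarith
    have h4 : (n : ℝ) ≤ n₀ := by exact_mod_cast h
    nlinarith
  have h3 := le_rate (n := n) zero_le_one h2 (by positivity)
  rwa [Real.sqrt_one] at h3

/-- The bound for the number of binary digits. -/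
lemma natlog_le (n : ℕ) : ((Nat.log 2 (n + 2) + 1 : ℕ) : ℝ) ≤ 3 * Real.log (n + 2) := by
  have h1 := Real.natLog_le_logb (n + 2) 2
  have h2 := Real.log_two_gt_d9
  have h3 := log_ge n
  have h4 : Real.logb ((2 : ℕ) : ℝ) ((n + 2 : ℕ) : ℝ) = Real.log (n + 2) / Real.log 2 := by
    rw [Real.logb]
    push_cast
    rfl
  rw [h4] at h1
  have h5 : Real.log ((n : ℝ) + 2) / Real.log 2 ≤ 3 / 2 * Real.log (n + 2) := by
    rw [div_le_iff₀ (by linarith)]
    nlinarith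
  push_cast
  nlinarith

/-- The choice of the parameters. -/
lemma exists_params {κ : ℕ} (q : ℕ) (hκ : 1 ≤ κ) {n : ℕ} (hn : 3 ≤ n) :
    (1 : ℝ) ≤ 48 * κ * (q + 1) * (Real.log (n + 2) / (n + 1)) ∨
    ∃ m l : ℕ, 1 ≤ l ∧ (l + 2) ^ (κ * ((q + 1) * (m + 1))) ≤ 2 ^ l ∧
      (n = ((q + q + 1) * m + (q + q + 1) + m) + (l + l + 1) + 1 ∨
        n = ((q + q + 1) * m + (q + q + 1) + m) + (l + l + 1) + 1 + 1) ∧
      1 / ((m : ℝ) + 2) ≤ 48 * κ * (q + 1) * (Real.log (n + 2) / (n + 1)) := by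
  set L := Nat.log 2 (n + 2) + 1 with hL
  have hL1 : 1 ≤ L := by omega
  have hL2 : n + 2 < 2 ^ L := Nat.lt_pow_succ_log_self (by norm_num) _
  have hL3 : (L : ℝ) ≤ 3 * Real.log (n + 2) := natlog_le n
  set T := 4 * (L * κ * (q + 1)) with hT
  have hLκ : 1 ≤ L * κ * (q + 1) :=
    Nat.mul_pos (Nat.mul_pos hL1 hκ) (Nat.succ_pos q)
  have hT0 : 0 < T := by omega
  have hn1 : (0 : ℝ) < (n : ℝ) + 1 := by positivity
  have hn3 : (3 : ℝ) ≤ n := by exact_mod_cast hn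
  have hTle : (T : ℝ) ≤ 12 * κ * (q + 1) * Real.log (n + 2) := by
    have h1 : (T : ℝ) = 4 * κ * (q + 1) * L := by rw [hT]; push_cast; ring
    rw [h1]
    have h2 : (0 : ℝ) ≤ 4 * κ * (q + 1) := by positivity
    calc 4 * (κ : ℝ) * (q + 1) * L ≤ 4 * κ * (q + 1) * (3 * Real.log (n + 2)) :=
          mul_le_mul_of_nonneg_left hL3 h2
      _ = _ := by ring
  -- the key estimate
  have key : ∀ M : ℕ, n - 2 < T * (M + 1) →
      1 / ((M : ℝ) + 1) ≤ 48 * κ * (q + 1) * (Real.log (n + 2) / (n + 1)) := by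
    intro M hM
    have h1 : (n : ℝ) - 2 < T * (M + 1) := by
      have h2 : n < T * (M + 1) + 2 := by omega
      have h3 : (n : ℝ) < T * (M + 1) + 2 := by exact_mod_cast h2
      linarith
    rw [mul_div_assoc', div_le_div_iff₀ (by positivity) hn1]
    have h3 : (0 : ℝ) ≤ (M : ℝ) + 1 := by positivity
    calc 1 * ((n : ℝ) + 1) ≤ 4 * ((n : ℝ) - 2) := by linarith
      _ ≤ 4 * (T * (M + 1)) := by linarith
      _ ≤ 4 * ((12 * κ * (q + 1) * Real.log (n + 2)) * (M + 1)) := by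
          refine mul_le_mul_of_nonneg_left ?_ (by norm_num)
          exact mul_le_mul_of_nonneg_right hTle h3
      _ = _ := by ring
  set M := (n - 2) / T with hM
  have hM1 : T * M ≤ n - 2 := Nat.mul_div_le _ _
  have hM2 : n - 2 < T * (M + 1) := Nat.lt_mul_div_succ _ hT0
  rcases Nat.eq_zero_or_pos M with h0 | h0
  · left
    have h1 := key M hM2
    rw [h0] at h1
    simpa using h1
  · right
    obtain ⟨m, hm⟩ : ∃ m, M = m + 1 := ⟨M - 1, by omega⟩
    -- `J = L κ j`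
    set J := L * κ * (q + 1) * M with hJ
    set j := (q + 1) * M with hj
    have hJ1 : 4 * J ≤ n - 2 := by
      calc 4 * J = T * M := by rw [hJ, hT]; ring
        _ ≤ n - 2 := hM1
    have hjJ : j ≤ J := by
      calc j = 1 * j := (one_mul _).symm
        _ ≤ (L * κ) * j := Nat.mul_le_mul_right _ (Nat.mul_pos hL1 hκ)
        _ = J := by rw [hJ, hj]; ring
    have hj0 : 1 ≤ j := Nat.mul_pos (Nat.succ_pos q) h0
    set l := (n + 1) / 2 - 1 - j with hl
    have hlJ : J ≤ l := by omega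
    have hej : (q + q + 1) * m + (q + q + 1) + m + 1 = 2 * j := by
      rw [hj, hm]; ring
    refine ⟨m, l, by omega, ?_, by omega, ?_⟩
    · have h1 : l + 2 ≤ 2 ^ L := by omega
      calc (l + 2) ^ (κ * ((q + 1) * (m + 1))) ≤ (2 ^ L) ^ (κ * ((q + 1) * (m + 1))) :=
            Nat.pow_le_pow_left h1 _
        _ = 2 ^ J := by
            rw [← pow_mul]
            congr 1
            rw [hJ, hm]
            ring
        _ ≤ 2 ^ l := Nat.pow_le_pow_right (by norm_num) hlJ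
    · have h1 := key M hM2
      rw [hm] at h1
      have h2 : ((m + 1 : ℕ) : ℝ) + 1 = (m : ℝ) + 2 := by push_cast; ring
      rw [h2] at h1
      exact h1

variable {k : Type u} [Field k] {𝒱 : VarClass k} {ops : CycleOps 𝒱}
  {W : WeilCohomology.{u, v} ops} {X Y Z P Q U : 𝒱.Obj}

/-- The object `X^(n+1) × (Y × (Z × Z))`. -/
noncomputable def ob (X Y Z : 𝒱.Obj) (n : ℕ) : 𝒱.Obj := (pw X n).prod (Y.prod (Z.prod Z))

/-- The conclusion of the infection law. -/
def Concl (S : Sys W) (X Y Z : 𝒱.Obj) (C : ℝ) (n : ℕ) : Prop :=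
  (S.a (ob X Y Z n) : ℝ) ≤
    C * finrank W.K (W.H Y) * rate n * finrank W.K (S.C (ob X Y Z n))

lemma Concl.of_zero (S : Sys W) {C : ℝ} (hC : 0 ≤ C) {n : ℕ} (h : S.a (ob X Y Z n) = 0) :
    Concl S X Y Z C n := by
  rw [Concl, h, Nat.cast_zero]
  have := rate_nonneg n
  positivity

/-- The bound for all `n` follows from the bound for all large `n`. -/
lemma Concl.of_large (S : Sys W) {C : ℝ} (hC : 0 ≤ C) (n₀ : ℕ)
    (h : ∀ n ≥ n₀, ∀ Y Z : 𝒱.Obj, 0 < S.a Y → Concl S X Y Z C n) :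
    ∃ C : ℝ, 0 ≤ C ∧ ∀ (n : ℕ) (Y Z : 𝒱.Obj), Concl S X Y Z C n := by
  refine ⟨max C (√(2 * ((n₀ : ℝ) + 1))), le_max_of_le_left hC, fun n Y Z => ?_⟩
  rcases Nat.eq_zero_or_pos (S.a Y) with h0 | h0
  · exact Concl.of_zero S (le_max_of_le_left hC)
      (a_prod_eq_zero S h0 (X := ob X Y Z n) (snd _ _ ≫ fst _ _))
  have hd : (0 : ℝ) ≤ finrank W.K (S.C (ob X Y Z n)) := Nat.cast_nonneg _
  have hb : (1 : ℝ) ≤ finrank W.K (W.H Y) := by
    have := a_le_H S Y
    exact_mod_cast (by omega : 1 ≤ finrank W.K (W.H Y))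
  have hr := rate_nonneg n
  rcases le_or_gt n₀ n with hn | hn
  · refine (h n hn Y Z h0).trans ?_
    refine mul_le_mul_of_nonneg_right ?_ hd
    refine mul_le_mul_of_nonneg_right ?_ hr
    exact mul_le_mul_of_nonneg_right (le_max_left _ _) (by linarith)
  · have h1 : (S.a (ob X Y Z n) : ℝ) ≤ finrank W.K (S.C (ob X Y Z n)) := by
      exact_mod_cast a_le_C S _
    have h2 := one_le_rate hn.le
    refine h1.trans ?_
    have h3 : (1 : ℝ) ≤ max C (√(2 * ((n₀ : ℝ) + 1))) * finrank W.K (W.H Y) * rate n := by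
      calc (1 : ℝ) ≤ √(2 * ((n₀ : ℝ) + 1)) * rate n := h2
        _ ≤ max C (√(2 * ((n₀ : ℝ) + 1))) * rate n :=
            mul_le_mul_of_nonneg_right (le_max_right _ _) hr
        _ ≤ (max C (√(2 * ((n₀ : ℝ) + 1))) * finrank W.K (W.H Y)) * rate n := by
            refine mul_le_mul_of_nonneg_right ?_ hr
            exact le_mul_of_one_le_right (le_max_of_le_left hC) hb
    calc (finrank W.K (S.C (ob X Y Z n)) : ℝ) = 1 * finrank W.K (S.C (ob X Y Z n)) :=
          (one_mul _).symm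
      _ ≤ _ := mul_le_mul_of_nonneg_right h3 hd

lemma case_one_concl (S : Sys W) (hX : 0 < finrank W.K (W.H X)) (hXa : 0 < S.a X) {c : ℝ}
    (hc : 0 < c) (hcB : c < (finrank W.K (W.H X) : ℝ) ^ 2)
    (h : ∀ l, (S.al X (l + 1) : ℝ) ≤ c * S.al X l) :
    ∃ C : ℝ, 0 ≤ C ∧ ∀ (n : ℕ) (Y Z : 𝒱.Obj), Concl S X Y Z C n := by
  obtain ⟨l₀, hl₀⟩ := case_one S hX hc hcB h
  set b := finrank W.K (W.H X) with hb
  have hb1 : (1 : ℝ) ≤ b := by exact_mod_cast hX
  apply Concl.of_large S (C := 4 * b) (by positivity) (2 * l₀ + 2)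
  intro n hn Y Z hY
  -- reduction to a bound for a product with a square
  have red : ∀ (Y₁ : 𝒱.Obj) (l : ℕ), l₀ ≤ l → n ≤ l + l + 2 → 0 < S.a Y₁ →
      (finrank W.K (W.H Y₁) : ℝ) ≤ b * finrank W.K (W.H Y) →
      cl (ob X Y Z n) = cl (Y₁.prod (sq X Z l)) → Concl S X Y Z (4 * b) n := by
    intro Y₁ l hl hnl hY₁ hbY hcl
    have h1 := hl₀ l hl Y₁ Z hY₁
    rw [← a_cl S hcl, ← C_cl S hcl] at h1
    have hd : (0 : ℝ) ≤ finrank W.K (S.C (ob X Y Z n)) := Nat.cast_nonneg _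
    have hYn : (0 : ℝ) ≤ finrank W.K (W.H Y) := Nat.cast_nonneg _
    have h2 : (n : ℝ) ≤ l + l + 2 := by exact_mod_cast hnl
    have hl2 : (0 : ℝ) < (l : ℝ) + 2 := by positivity
    have hn1 : (0 : ℝ) < (n : ℝ) + 1 := by positivity
    have h3 : 1 / ((l : ℝ) + 2) ≤ 2 * (1 / ((n : ℝ) + 1)) := by
      rw [mul_one_div, div_le_div_iff₀ hl2 hn1]
      linarith
    have h4 : 1 / ((l : ℝ) + 2) ≤ 4 * rate n := by
      have := inv_le_rate n
      linarith
    rw [Concl]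
    calc (S.a (ob X Y Z n) : ℝ) = (S.a (ob X Y Z n) * ((l : ℝ) + 2)) * (1 / ((l : ℝ) + 2)) := by
          field_simp
      _ ≤ (finrank W.K (W.H Y₁) * finrank W.K (S.C (ob X Y Z n))) * (1 / ((l : ℝ) + 2)) :=
          mul_le_mul_of_nonneg_right h1 (by positivity)
      _ ≤ (finrank W.K (W.H Y₁) * finrank W.K (S.C (ob X Y Z n))) * (4 * rate n) :=
          mul_le_mul_of_nonneg_left h4 (by positivity)
      _ = finrank W.K (W.H Y₁) * (finrank W.K (S.C (ob X Y Z n)) * (4 * rate n)) := by ring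
      _ ≤ (b * finrank W.K (W.H Y)) * (finrank W.K (S.C (ob X Y Z n)) * (4 * rate n)) := by
          refine mul_le_mul_of_nonneg_right hbY ?_
          have := rate_nonneg n
          positivity
      _ = _ := by ring
  have hYn : (0 : ℝ) ≤ finrank W.K (W.H Y) := Nat.cast_nonneg _
  obtain ⟨l, hl | hl⟩ : ∃ l, n = l + l + 1 ∨ n = l + l + 1 + 1 := ⟨(n - 1) / 2, by omega⟩
  · refine red Y l (by omega) (by omega) hY (le_mul_of_one_le_left hYn hb1) ?_
    rw [ob, hl]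
    simp only [cl_prod, cl_sq, cl_pw]
    ac_rfl
  · refine red (X.prod Y) l (by omega) (by omega) ?_ ?_ ?_
    · exact lt_of_lt_of_le (Nat.mul_pos hXa hY) (a_prod_ge S X Y)
    · rw [Pool.Agent.Y133.Half.finrank_prod]
      push_cast
      exact le_rfl
    · rw [ob, hl]
      simp only [cl_prod, cl_sq, cl_pw]
      change (pwc (cl X) (l + l + 1) * cl X) * _ = _
      ac_rfl

lemma case_two_concl (S : Sys W) (hpos : ∀ l, 0 < S.al X l) (hXa : 0 < S.a X)
    (hB : ∀ c : ℝ, 0 ≤ c → c < (finrank W.K (W.H X) : ℝ) ^ 2 →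
      ∃ l₀, ∀ l ≥ l₀, c * S.al X l ≤ S.al X (l + 1))
    (hX : 0 < finrank W.K (W.H X)) {q : ℕ} {z : W.H (pw X q)} (hz : z ∈ S.Num (pw X q))
    (hz0 : z ≠ 0) {l₁ : W.H (pw X q)} (hl1 : W.tr (pw X q) l₁ = 1) :
    ∃ C : ℝ, 0 ≤ C ∧ ∀ (n : ℕ) (Y Z : 𝒱.Obj), Concl S X Y Z C n := by
  set b := finrank W.K (W.H X) with hb
  set κ := b ^ 2 with hκ
  have hκ1 : 1 ≤ κ := Nat.pow_pos hX
  set β : ℝ := (b : ℝ) ^ (2 * (q + 1)) with hβ
  have hb1 : (1 : ℝ) ≤ b := by exact_mod_cast hX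
  have hβ1 : 1 ≤ β := one_le_pow₀ hb1
  set E : ℝ := 48 * κ * (q + 1) with hE
  have hE0 : 0 ≤ E := by positivity
  set C : ℝ := 16 * b * √(β * E) with hC
  have hC0 : 0 ≤ C := by positivity
  apply Concl.of_large S hC0 3
  intro n hn Y Z hY
  have hYn : (1 : ℝ) ≤ finrank W.K (W.H Y) := by
    have := a_le_H S Y
    exact_mod_cast (by omega : 1 ≤ finrank W.K (W.H Y))
  have hd : (0 : ℝ) ≤ finrank W.K (S.C (ob X Y Z n)) := Nat.cast_nonneg _
  have hr := rate_nonneg n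
  have hER : √E ≤ √(β * E) := Real.sqrt_le_sqrt (le_mul_of_one_le_left hE0 hβ1)
  rcases exists_params q hκ1 hn with h1 | ⟨m, l, hl, hj, hnl, hm⟩
  · have h2 := le_rate (n := n) zero_le_one h1 hE0
    rw [Real.sqrt_one] at h2
    have h3 : (S.a (ob X Y Z n) : ℝ) ≤ finrank W.K (S.C (ob X Y Z n)) := by
      exact_mod_cast a_le_C S _
    have h4 : (1 : ℝ) ≤ C * finrank W.K (W.H Y) * rate n := by
      have h5 : √E ≤ C * finrank W.K (W.H Y) := by
        calc √E ≤ √(β * E) := hER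
          _ ≤ C := by
            rw [hC]
            refine le_mul_of_one_le_left (Real.sqrt_nonneg _) ?_
            linarith
          _ ≤ C * finrank W.K (W.H Y) := le_mul_of_one_le_right hC0 hYn
      exact h2.trans (mul_le_mul_of_nonneg_right h5 hr)
    rw [Concl]
    calc (S.a (ob X Y Z n) : ℝ) ≤ 1 * finrank W.K (S.C (ob X Y Z n)) := by rw [one_mul]; exact h3
      _ ≤ _ := mul_le_mul_of_nonneg_right h4 hd
  · -- the bound for the square root
    have hs : √((b : ℝ) ^ (2 * (q + 1)) / (2 * (m + 2))) ≤ √(β * E) * rate n := by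
      refine le_rate (by positivity) ?_ (by positivity)
      have h2 : (b : ℝ) ^ (2 * (q + 1)) / (2 * (m + 2)) ≤ β * (1 / ((m : ℝ) + 2)) := by
        rw [mul_one_div, ← hβ]
        refine div_le_div_of_nonneg_left (by positivity) (by positivity) ?_
        have : (0 : ℝ) < (m : ℝ) + 2 := by positivity
        linarith
      refine h2.trans ?_
      rw [mul_assoc]
      exact mul_le_mul_of_nonneg_left hm (by positivity)
    set P := pw ((pw X q).prod (pw X q)) m with hP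
    set e := (q + q + 1) * m + (q + q + 1) + m with he
    have hclP : cl P = pwc (cl X) e := by
      rw [hP, cl_pw, cl_prod, cl_pw, pwc_add, pwc_pwc]
    have red : ∀ Y₁ : 𝒱.Obj, 0 < S.a Y₁ →
        (finrank W.K (W.H Y₁) : ℝ) ≤ b * finrank W.K (W.H Y) →
        cl (ob X Y Z n) = cl (P.prod (Y₁.prod (sq X Z l))) → Concl S X Y Z C n := by
      intro Y₁ hY₁ hbY hcl
      have h1 := master S hpos hB hX hz hz0 hl1 m hl hj Y₁ Z hY₁
      rw [← hP, ← hb, ← a_cl S hcl, ← C_cl S hcl] at h1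
      rw [Concl]
      refine h1.trans ?_
      refine mul_le_mul_of_nonneg_right ?_ hd
      calc 16 * (finrank W.K (W.H Y₁) : ℝ) * √((b : ℝ) ^ (2 * (q + 1)) / (2 * (m + 2))) ≤
          16 * (b * finrank W.K (W.H Y)) * (√(β * E) * rate n) := by
            refine mul_le_mul ?_ hs (Real.sqrt_nonneg _) (by positivity)
            exact mul_le_mul_of_nonneg_left hbY (by norm_num)
        _ = _ := by rw [hC]; ring
    rcases hnl with hnl | hnl
    · refine red Y hY (le_mul_of_one_le_left (by linarith) hb1) ?_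
      rw [ob, hnl]
      simp only [cl_prod, cl_sq, hclP, cl_pw, ← pwc_add (cl X) e (l + l + 1)]
      ac_rfl
    · refine red (X.prod Y) ?_ ?_ ?_
      · exact lt_of_lt_of_le (Nat.mul_pos hXa hY) (a_prod_ge S X Y)
      · rw [Pool.Agent.Y133.Half.finrank_prod]
        push_cast
        exact le_rfl
      · rw [ob, hnl]
        simp only [cl_prod, cl_sq, hclP, cl_pw]
        change (pwc (cl X) (e + (l + l + 1) + 1) * cl X) * _ = _
        rw [← pwc_add (cl X) e (l + l + 1)]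
        ac_rfl

/-- **The infection law** for a system of classes. -/
theorem infection (S : Sys W) (X : 𝒱.Obj) : (∀ n, S.Num (pw X n) = ⊥) ∨
    ∃ C : ℝ, 0 ≤ C ∧ ∀ (n : ℕ) (Y Z : 𝒱.Obj), Concl S X Y Z C n := by
  by_cases hN : ∀ q, S.Num (pw X q) = ⊥
  · exact Or.inl hN
  right
  by_cases hZ : ∀ l ∈ S.C X, W.tr X l = 0
  · refine ⟨0, le_rfl, fun n Y Z => Concl.of_zero S le_rfl ?_⟩
    exact a_prod_eq_zero S (a_eq_zero_of_tr S hZ) (X := ob X Y Z n) (fst _ _ ≫ prj X n 0)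
  push Not at hZ
  obtain ⟨l', hl', hl'0⟩ := hZ
  obtain ⟨l, hl, hl1⟩ : ∃ l ∈ S.C X, W.tr X l = 1 :=
    ⟨(W.tr X l')⁻¹ • l', Submodule.smul_mem _ _ hl', by
      rw [map_smul, smul_eq_mul, inv_mul_cancel₀ hl'0]⟩
  have h1 : (1 : W.H X) ≠ 0 := one_ne_zero_of (ne_zero_of_tr hl1)
  have hX : 0 < finrank W.K (W.H X) := by
    have : Nontrivial (W.H X) := ⟨⟨1, 0, h1⟩⟩
    exact Module.finrank_pos
  have hXa : 0 < S.a X := S.a_pos hl hl1
  have hpos : ∀ n, 0 < S.al X n := by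
    intro n
    obtain ⟨m, hm, hm1⟩ := S.exists_lam hl hl1 n
    refine S.a_pos (Sys.xp_mem_C S hm hm) ?_
    rw [tr_xp, hm1, mul_one]
  rcases ratio_dichotomy hpos (S.al_convex X) ((finrank W.K (W.H X) : ℝ) ^ 2) with
    ⟨c, hc, hcB, h⟩ | hB
  · have hc0 : 0 < c := by
      rcases hc.lt_or_eq with h2 | h2
      · exact h2
      · have h3 := h 0
        rw [← h2, zero_mul] at h3
        have h4 : (0 : ℝ) < S.al X (0 + 1) := by exact_mod_cast hpos 1
        linarith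
    exact case_one_concl S hX hXa hc0 hcB h
  · push Not at hN
    obtain ⟨q, hq⟩ := hN
    obtain ⟨z, hz, hz0⟩ := Submodule.exists_mem_ne_zero_of_ne_bot hq
    obtain ⟨m, hm, hm1⟩ := S.exists_lam hl hl1 q
    exact case_two_concl S hpos hXa hB hX hz hz0 hm1

end Pool.Agent.E8helper24.INF
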