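import Pool.Agent.E8helper24.INF.CatMax
import Pool.Agent.Y133.Half.Main2

/-!
# The count along the powers of a numerically trivial operator
-/

open CategoryTheory AlgebraicGeometry

universe u v

set_option linter.unusedSectionVars false

namespace Pool.Agent.E8helper24.INF

open Module
open Pool.Agent.H914 Pool.Agent.H914.VarClass Pool.Agent.H914.VarClass.Obj
  Pool.Agent.H914.WeilCohomology Pool.Agent.Y133.Half

variable {k : Type u} [Field k] {𝒱 : VarClass k} {ops : CycleOps 𝒱}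
  {W : WeilCohomology.{u, v} ops} {X Y Z P Q U : 𝒱.Obj}

/-- The count of the classes on `P × Z` by the powers of a numerically trivial operator on `P`. -/
theorem count_sys (S : Sys W) (P Z : 𝒱.Obj) {u : Module.End W.K (W.H P)} (hu : u ∈ S.NOp P P)
    (I : ℕ) : ∃ g : ℕ → Module.End W.K (W.H P), (∀ n, g n ∈ S.Op P P ∧ g n ∘ₗ g n = g n ∧
        finrank W.K (LinearMap.range (g n)) ≤ finrank W.K (LinearMap.ker (u ^ n))) ∧
      I * S.a (P.prod Z) ≤ finrank W.K (S.C (P.prod Z)) +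
        ∑ n ∈ Finset.range I, S.r P (g n) Z := by
  let X : Fin 2 → 𝒱.Obj := ![P, Z]
  obtain ⟨g, hg, hs⟩ := count_ops (S.cat X) 0 1 (u := u) (Sys.NOp.op hu)
    (fun x hx => Sys.NOp.trace hu hx) I
  refine ⟨g, hg, ?_⟩
  have h1 : ∑ n ∈ Finset.range I, S.r P (g n) Z = ∑ n ∈ Finset.range I,
      rk (A := (S.cat X).S 0 1) (B := (S.cat X).S 1 0) ((S.cat X).B 0 1 (g n) LinearMap.id) := by
    refine Finset.sum_congr rfl fun n hn => ?_
    exact (S.rk_BO_r (P := P) (Z := Z) (g := g n) (Sys.Op.ev (S := S) (hg n).1)).symm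
  have h2 : S.a (P.prod Z) =
      rk (A := (S.cat X).S 0 1) (B := (S.cat X).S 1 0)
        ((S.cat X).B 0 1 LinearMap.id LinearMap.id) := by
    rw [← S.r_one]
    exact (S.rk_BO_r (P := P) (Z := Z) (g := 1) (Sys.Op.ev (S := S) Sys.Op.id)).symm
  have h3 : finrank W.K ((S.cat X).S 0 1) ≤ finrank W.K (S.C (P.prod Z)) := by
    exact (Submodule.finrank_map_le (corrL W Z P) (S.C (Z.prod P))).trans
      (S.finrank_C_iso (prodComm Z P)).le
  rw [h1, h2]
  exact hs.trans (Nat.add_le_add_right h3 _)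

/-- The rank bound with an additional factor. -/
lemma r_le_rank_mul (S : Sys W) {P : 𝒱.Obj} {g : Module.End W.K (W.H P)} (hg : g ∈ S.Op P P)
    (hgg : g ∘ₗ g = g) (Y Q : 𝒱.Obj) : S.r P g (Y.prod (Q.prod Q)) ≤
      finrank W.K (LinearMap.range g) * finrank W.K (W.H Y) * S.a (Q.prod Q) := by
  have h11 : (1 : Module.End W.K (W.H Y)) ∘ₗ 1 = 1 := rfl
  have h2 : extOp W g (1 : Module.End W.K (W.H Y)) ∘ₗ extOp W g 1 = extOp W g 1 := by
    have := extOp_mul (W := W) g g (1 : Module.End W.K (W.H Y)) 1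
    change extOp W g 1 * extOp W g 1 = _
    rw [this, mul_one]
    change extOp W (g ∘ₗ g) 1 = _
    rw [hgg]
  have h1 := S.r_le_rank (P := P.prod Y) (g := extOp W g 1) (Sys.Op.ext hg Sys.Op.id) h2 Q
  rw [S.r_assoc, finrank_extOp hgg h11, Sys.rank_one] at h1
  exact h1

/-- The inequality obtained from the count. -/
theorem count_le (S : Sys W) (P Y Q : 𝒱.Obj) {u : Module.End W.K (W.H P)}
    (hu : u ∈ S.NOp P P) (I : ℕ) :
    I * S.a (P.prod (Y.prod (Q.prod Q))) ≤ finrank W.K (S.C (P.prod (Y.prod (Q.prod Q)))) +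
      (∑ n ∈ Finset.range I, finrank W.K (LinearMap.ker (u ^ n))) * finrank W.K (W.H Y) *
        S.a (Q.prod Q) := by
  obtain ⟨g, hg, hs⟩ := count_sys S P (Y.prod (Q.prod Q)) hu I
  refine hs.trans (Nat.add_le_add_left ?_ _)
  rw [Finset.sum_mul, Finset.sum_mul]
  refine Finset.sum_le_sum fun n _ => ?_
  obtain ⟨h1, h2, h3⟩ := hg n
  refine (r_le_rank_mul S h1 h2 Y Q).trans ?_
  exact Nat.mul_le_mul_right _ (Nat.mul_le_mul_right _ h3)

end Pool.Agent.E8helper24.INF
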