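import Pool.Agent.E8helper24.INF.Lin
import Pool.Agent.Y133.Half.Key

/-!
# Idempotents of maximal rank annihilated by an operator
-/

namespace Pool.Agent.E8helper24.INF

open Module Polynomial Pool.Agent.Y133.Half

variable {ι K : Type*} [Fintype ι] [DecidableEq ι] [Field K] {V : ι → Type*}
  [∀ i, AddCommGroup (V i)] [∀ i, Module K (V i)] [∀ i, FiniteDimensional K (V i)]
  (C : Cat K V)

lemma finrank_range_lt {V : Type*} [AddCommGroup V] [Module K V] [FiniteDimensional K V]
    {g f : Module.End K V} (hgg : g * g = g) (hff : f * f = f) (hgf : g * f = 0) (hf : f ≠ 0) :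
    (g + f * (1 - g)) * (g + f * (1 - g)) = g + f * (1 - g) ∧
      finrank K (LinearMap.range g) < finrank K (LinearMap.range (g + f * (1 - g))) := by
  set f' := f * (1 - g) with hf'
  have e1 : g * f' = 0 := by rw [hf', ← mul_assoc, hgf, zero_mul]
  have e2 : f' * g = 0 := by rw [hf', mul_assoc, sub_mul, one_mul, hgg, sub_self, mul_zero]
  have e3 : f' * f = f := by rw [hf', mul_assoc, sub_mul, one_mul, hgf, sub_zero, hff]
  have e4 : f' * f' = f' := by
    have h0 : f' * f' = (f' * f) * (1 - g) := (mul_assoc f' f (1 - g)).symm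
    rw [h0, e3]
  have e5 : (g + f') * (g + f') = g + f' := by
    rw [add_mul, mul_add, mul_add, hgg, e1, e2, e4, add_zero, zero_add]
  refine ⟨e5, ?_⟩
  have h1 : LinearMap.range g < LinearMap.range (g + f') := by
    refine lt_of_le_of_ne ?_ ?_
    · rintro _ ⟨x, rfl⟩
      refine ⟨g x, ?_⟩
      have : (g + f') * g = g := by rw [add_mul, hgg, e2, add_zero]
      exact congrArg (fun T : Module.End K V => T x) this
    · intro h
      apply hf
      -- the range of `f` is in the range of `g + f'`, hence in that of `g`, where `f` is zero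
      apply LinearMap.ext
      intro x
      have h2 : f x ∈ LinearMap.range (g + f') := by
        refine ⟨f x, ?_⟩
        have : (g + f') * f = f := by rw [add_mul, hgf, e3, zero_add]
        exact congrArg (fun T : Module.End K V => T x) this
      rw [← h] at h2
      obtain ⟨y, hy⟩ := h2
      have h3 : f x = g (f x) := by
        rw [← hy]
        exact (congrArg (fun T : Module.End K V => T y) hgg).symm
      have h4 : g (f x) = 0 := congrArg (fun T : Module.End K V => T x) hgf
      rw [h3, h4]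
      rfl
  exact Submodule.finrank_lt_finrank_of_lt h1

/-- For every operator `u` there is an idempotent `g` annihilated by `u` such that all operators
annihilated by `u` are numerically equivalent to their product with `g`. -/
theorem exists_max (i : ι) (u : Module.End K (V i)) :
    ∃ g ∈ C.S i i, g ∘ₗ g = g ∧ u ∘ₗ g = 0 ∧
      ∀ j, ∀ w ∈ C.S i j, u ∘ₗ w = 0 → ∀ v ∈ C.S j i,
        LinearMap.trace K (V i) (C.p i ∘ₗ w ∘ₗ v) =
          LinearMap.trace K (V i) (C.p i ∘ₗ g ∘ₗ w ∘ₗ v) := by
  classical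
  -- the maximal rank
  let Q : ℕ → Prop := fun n => ∃ g ∈ C.S i i, g ∘ₗ g = g ∧ u ∘ₗ g = 0 ∧
    finrank K (LinearMap.range g) = n
  have hQ : ∃ n, Q n := ⟨_, 0, Submodule.zero_mem _, by simp, by simp, rfl⟩
  have hb : ∀ n, Q n → n ≤ finrank K (V i) := by
    rintro n ⟨g, -, -, -, rfl⟩
    exact Submodule.finrank_le _
  obtain ⟨n, ⟨g, hg, hgg, hug, hn⟩, hmax⟩ : ∃ n, Q n ∧ ∀ m, Q m → m ≤ n := by
    obtain ⟨n, hn⟩ := hQ
    refine ⟨Nat.findGreatest Q (finrank K (V i)), Nat.findGreatest_spec (hb n hn) hn, ?_⟩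
    intro m hm
    exact Nat.le_findGreatest (hb m hm) hm
  refine ⟨g, hg, hgg, hug, fun j w hw huw v hv => ?_⟩
  by_contra hne
  -- the operator `y`
  have hwv : w ∘ₗ v ∈ C.S i i := C.mul hw hv
  set y : Module.End K (V i) := w ∘ₗ v - g ∘ₗ w ∘ₗ v with hy
  have hyS : y ∈ C.S i i := Submodule.sub_mem _ hwv (C.mul hg hwv)
  have hgG : g * g = g := hgg
  have hgy : g * y = 0 := by
    have h1 : g * (g ∘ₗ w ∘ₗ v) = g * (w ∘ₗ v : Module.End K (V i)) := by
      change g * (g * (w ∘ₗ v : Module.End K (V i))) = _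
      rw [← mul_assoc, hgG]
    rw [hy, mul_sub, h1, sub_self]
  have huy : u * y = 0 := by
    have h1 : u * (w ∘ₗ v : Module.End K (V i)) = 0 := by
      change u ∘ₗ (w ∘ₗ v) = 0
      rw [← LinearMap.comp_assoc, huw, LinearMap.zero_comp]
    have h2 : u * (g ∘ₗ w ∘ₗ v) = 0 := by
      change u ∘ₗ (g ∘ₗ (w ∘ₗ v)) = 0
      rw [← LinearMap.comp_assoc, hug, LinearMap.zero_comp]
    rw [hy, mul_sub, h1, h2, sub_self]
  have hnil : ¬ IsNilpotent y := by
    intro hn
    apply hne
    have h1 := C.tr_nil hyS hn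
    rw [hy, LinearMap.comp_sub, map_sub, sub_eq_zero] at h1
    exact h1
  obtain ⟨q, hq1, hq2⟩ := exists_fit y
  set f := aeval y q * y with hf
  have hf0 : f ≠ 0 := fun h => hnil (hq2 h)
  have hfS : f ∈ C.S i i := C.mul (C.aeval_mem hyS q) hyS
  have hfc : f = y * aeval y q := by
    calc f = aeval y (q * X) := by rw [map_mul, aeval_X]
      _ = aeval y (X * q) := by rw [mul_comm]
      _ = y * aeval y q := by rw [map_mul, aeval_X]
  have hgf : g * f = 0 := by rw [hfc, ← mul_assoc, hgy, zero_mul]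
  have huf : u * f = 0 := by rw [hfc, ← mul_assoc, huy, zero_mul]
  obtain ⟨h1, h2⟩ := finrank_range_lt hgG hq1 hgf hf0
  have h3 : Q (finrank K (LinearMap.range (g + f * (1 - g)))) := by
    refine ⟨_, ?_, h1, ?_, rfl⟩
    · refine Submodule.add_mem _ hg ?_
      exact C.mul hfS (Submodule.sub_mem _ (C.one i) hg)
    · change u * (g + f * (1 - g)) = 0
      have h4 : u * g = 0 := hug
      rw [mul_add, h4, ← mul_assoc, huf, zero_mul, add_zero]
  have h4 := hmax _ h3
  rw [hn] at h2
  omega

/-- The count of the operators from `V j` to `V i` by the powers of a numerically trivial operator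
`u`. -/
theorem count_ops (i j : ι) {u : Module.End K (V i)} (hu : u ∈ C.S i i)
    (hnum : ∀ x ∈ C.S i i, LinearMap.trace K (V i) (C.p i ∘ₗ u ∘ₗ x) = 0) (I : ℕ) :
    ∃ g : ℕ → Module.End K (V i), (∀ n, g n ∈ C.S i i ∧ g n ∘ₗ g n = g n ∧
        finrank K (LinearMap.range (g n)) ≤ finrank K (LinearMap.ker (u ^ n))) ∧
      I * rk (C.B i j LinearMap.id LinearMap.id) ≤ finrank K (C.S i j) +
        ∑ n ∈ Finset.range I, rk (C.B i j (g n) LinearMap.id) := by
  choose g hg hgg hug hgw using fun n : ℕ => exists_max C i (u ^ n)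
  refine ⟨g, fun n => ⟨hg n, hgg n, ?_⟩, ?_⟩
  · refine Submodule.finrank_mono ?_
    rintro _ ⟨x, rfl⟩
    exact congrArg (fun T : V i →ₗ[K] V i => T x) (hug n)
  -- left multiplication by `u`
  let L : Module.End K (C.S i j) :=
    { toFun := fun w => ⟨u ∘ₗ (w : V j →ₗ[K] V i), C.mul hu w.2⟩
      map_add' := fun w w' => Subtype.ext (by
        simp only [Submodule.coe_add, LinearMap.comp_add])
      map_smul' := fun c w => Subtype.ext (by
        simp only [Submodule.coe_smul, LinearMap.comp_smul, RingHom.id_apply]) }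
  have hL : ∀ n : ℕ, ∀ w : C.S i j, (((L ^ n) w : C.S i j) : V j →ₗ[K] V i) =
      (u ^ n) ∘ₗ (w : V j →ₗ[K] V i) := by
    intro n
    induction n with
    | zero => intro w; rfl
    | succ n ih =>
      intro w
      rw [pow_succ, Module.End.mul_apply, ih]
      change (u ^ n) ∘ₗ (u ∘ₗ (w : V j →ₗ[K] V i)) = _
      rw [← LinearMap.comp_assoc, pow_succ]
      rfl
  refine count_powers L (C.B i j LinearMap.id LinearMap.id) ?_ I
    (fun n => LinearMap.range (C.B i j (g n) LinearMap.id)) ?_
  · intro w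
    apply LinearMap.ext
    intro v
    rw [C.B_apply]
    exact hnum _ (C.mul w.2 v.2)
  · intro n _ w hw
    refine ⟨w, ?_⟩
    apply LinearMap.ext
    intro v
    rw [C.B_apply, C.B_apply]
    have h1 : (u ^ n) ∘ₗ (w : V j →ₗ[K] V i) = 0 := by
      rw [← hL, hw]
      rfl
    exact (hgw n j w w.2 h1 v v.2).symm

end Pool.Agent.E8helper24.INF
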