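import Mathlib

/-!
# The number of words of given weight
-/

namespace Pool.Agent.E8helper24.INF

open Finset

/-- The number of words of length `n` and weight `s` in letters `+1`, `-1` and `r` letters of weight
zero. -/
def cnt (r : ℕ) : ℕ → ℤ → ℕ
  | 0, s => if s = 0 then 1 else 0
  | n + 1, s => cnt r n (s - 1) + cnt r n (s + 1) + r * cnt r n s

lemma cnt_zero (r : ℕ) (s : ℤ) : cnt r 0 s = if s = 0 then 1 else 0 := rfl

lemma cnt_succ (r n : ℕ) (s : ℤ) :
    cnt r (n + 1) s = cnt r n (s - 1) + cnt r n (s + 1) + r * cnt r n s := rfl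

lemma cnt_neg (r n : ℕ) : ∀ s : ℤ, cnt r n (-s) = cnt r n s := by
  induction n with
  | zero => intro s; rw [cnt_zero, cnt_zero]; simp
  | succ n ih =>
    intro s
    rw [cnt_succ, cnt_succ, ih s, show -s - 1 = -(s + 1) by ring, show -s + 1 = -(s - 1) by ring,
      ih, ih]
    ring

/-- Shifts of functions. -/
def shf (a : ℤ) : Module.End ℕ (ℤ → ℕ) where
  toFun φ s := φ (s - a)
  map_add' _ _ := rfl
  map_smul' _ _ := rfl

lemma shf_apply (a : ℤ) (φ : ℤ → ℕ) (s : ℤ) : shf a φ s = φ (s - a) := rfl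

lemma shf_mul (a b : ℤ) : shf a * shf b = shf (a + b) := by
  apply LinearMap.ext
  intro φ
  funext s
  change φ (s - a - b) = φ (s - (a + b))
  congr 1
  ring

lemma shf_zero : shf 0 = 1 := by
  apply LinearMap.ext
  intro φ
  funext s
  change φ (s - 0) = φ s
  rw [sub_zero]

lemma shf_pow (a : ℤ) (n : ℕ) : shf a ^ n = shf (n * a) := by
  induction n with
  | zero => rw [pow_zero, Nat.cast_zero, zero_mul, shf_zero]
  | succ n ih =>
    rw [pow_succ, ih, shf_mul]
    congr 1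
    push_cast
    ring

/-- The delta function. -/
def dlt : ℤ → ℕ := fun s => if s = 0 then 1 else 0

lemma cnt_eq (r n : ℕ) : cnt r n = ((shf 1 + shf (-1) + (r : Module.End ℕ (ℤ → ℕ))) ^ n) dlt := by
  induction n with
  | zero => funext s; rfl
  | succ n ih =>
    rw [pow_succ', Module.End.mul_apply, ← ih]
    funext s
    rw [cnt_succ, LinearMap.add_apply, LinearMap.add_apply, Pi.add_apply, Pi.add_apply, shf_apply,
      shf_apply, Module.End.natCast_apply, Pi.smul_apply, sub_neg_eq_add, smul_eq_mul]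

lemma cnt_eq_sum (r n : ℕ) (s : ℤ) :
    cnt r n s = ∑ m ∈ range (n + 1), r ^ (n - m) * n.choose m * cnt 0 m s := by
  have hc : Commute (shf 1 + shf (-1)) (r : Module.End ℕ (ℤ → ℕ)) := Nat.commute_cast _ _
  rw [cnt_eq, hc.add_pow, LinearMap.sum_apply, Finset.sum_apply]
  refine Finset.sum_congr rfl fun m _ => ?_
  have h0 : cnt 0 m = ((shf 1 + shf (-1)) ^ m) dlt := by
    rw [cnt_eq, Nat.cast_zero, add_zero]
  rw [h0]
  have h1 : ((shf 1 + shf (-1)) ^ m * (r : Module.End ℕ (ℤ → ℕ)) ^ (n - m) *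
      ((n.choose m : ℕ) : Module.End ℕ (ℤ → ℕ))) =
      ((r ^ (n - m) * n.choose m : ℕ) : Module.End ℕ (ℤ → ℕ)) * (shf 1 + shf (-1)) ^ m := by
    rw [mul_assoc, ← Nat.cast_pow, ← Nat.cast_mul]
    exact (Nat.cast_commute _ _).symm
  rw [h1, Module.End.mul_apply, Module.End.natCast_apply, Pi.smul_apply, smul_eq_mul]

lemma cnt_zero_le (n : ℕ) (s : ℤ) : cnt 0 n s ≤ n.choose (n / 2) := by
  have hc : Commute (shf 1) (shf (-1)) := by
    change shf 1 * shf (-1) = shf (-1) * shf 1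
    rw [shf_mul, shf_mul, add_comm]
  rw [cnt_eq, Nat.cast_zero, add_zero, hc.add_pow, LinearMap.sum_apply, Finset.sum_apply]
  have h1 : ∀ m ∈ range (n + 1), ((shf 1 ^ m * shf (-1) ^ (n - m) *
      ((n.choose m : ℕ) : Module.End ℕ (ℤ → ℕ))) dlt) s =
      if s = 2 * m - n then n.choose m else 0 := by
    intro m hm
    rw [Finset.mem_range] at hm
    rw [shf_pow, shf_pow, shf_mul, Module.End.mul_apply, Module.End.natCast_apply, shf_apply,
      Pi.smul_apply, smul_eq_mul, dlt]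
    have h2 : (s - ((m : ℤ) * 1 + ((n - m : ℕ) : ℤ) * -1) = 0) ↔ s = 2 * m - n := by
      rw [Nat.cast_sub (by omega)]
      constructor <;> intro h <;> linarith
    simp only [h2]
    split_ifs <;> simp
  rw [Finset.sum_congr rfl h1]
  by_cases h : ∃ m ∈ range (n + 1), s = 2 * (m : ℤ) - n
  · obtain ⟨m, hm, hs⟩ := h
    rw [Finset.sum_eq_single_of_mem m hm]
    · rw [if_pos hs]
      exact Nat.choose_le_middle m n
    · intro l _ hl
      rw [if_neg]
      intro h
      apply hl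
      omega
  · rw [Finset.sum_eq_zero]
    · exact Nat.zero_le _
    · intro m hm
      rw [if_neg]
      intro hs
      exact h ⟨m, hm, hs⟩

lemma central_even (n : ℕ) : (n.centralBinom) ^ 2 * (2 * n + 1) ≤ 16 ^ n := by
  induction n with
  | zero => simp
  | succ n ih =>
    have h1 := Nat.succ_mul_centralBinom_succ n
    set c := n.centralBinom
    set c' := (n + 1).centralBinom
    have h2 : (n + 1) ^ 2 * (c' ^ 2 * (2 * (n + 1) + 1)) =
        4 * (2 * n + 1) * (2 * n + 3) * (c ^ 2 * (2 * n + 1)) := by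
      calc (n + 1) ^ 2 * (c' ^ 2 * (2 * (n + 1) + 1)) = ((n + 1) * c') ^ 2 * (2 * n + 3) := by ring
        _ = (2 * (2 * n + 1) * c) ^ 2 * (2 * n + 3) := by rw [h1]
        _ = _ := by ring
    have h3 : (n + 1) ^ 2 * (c' ^ 2 * (2 * (n + 1) + 1)) ≤ (n + 1) ^ 2 * 16 ^ (n + 1) := by
      rw [h2]
      calc 4 * (2 * n + 1) * (2 * n + 3) * (c ^ 2 * (2 * n + 1)) ≤
          4 * (2 * n + 1) * (2 * n + 3) * 16 ^ n := Nat.mul_le_mul_left _ ih
        _ ≤ 16 * (n + 1) ^ 2 * 16 ^ n := Nat.mul_le_mul_right _ (by nlinarith)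
        _ = _ := by ring
    exact Nat.le_of_mul_le_mul_left h3 (by positivity)

lemma central (n : ℕ) : (n.choose (n / 2)) ^ 2 * (n + 1) ≤ 4 ^ n := by
  rcases Nat.even_or_odd' n with ⟨m, rfl | rfl⟩
  · have h1 := central_even m
    rw [Nat.mul_div_cancel_left m (by norm_num), pow_mul]
    exact h1
  · have h1 := central_even (m + 1)
    have h2 : (2 * m + 1) / 2 = m := by omega
    have h3 : (m + 1).centralBinom = 2 * (2 * m + 1).choose m := by
      rw [Nat.centralBinom, show 2 * (m + 1) = (2 * m + 1) + 1 by ring, Nat.choose_succ_succ,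
        Nat.choose_symm_half]
      ring
    rw [h2]
    rw [h3] at h1
    have h4 : 4 * (((2 * m + 1).choose m) ^ 2 * (2 * m + 1 + 1)) ≤ 4 * 4 ^ (2 * m + 1) := by
      calc 4 * (((2 * m + 1).choose m) ^ 2 * (2 * m + 1 + 1)) ≤
          (2 * (2 * m + 1).choose m) ^ 2 * (2 * (m + 1) + 1) := by nlinarith [sq_nonneg ((2 * m + 1).choose m)]
        _ ≤ 16 ^ (m + 1) := h1
        _ = 4 * 4 ^ (2 * m + 1) := by
          rw [show (16 : ℕ) = 4 ^ 2 by norm_num, ← pow_mul, ← pow_succ']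
          congr 1
    exact Nat.le_of_mul_le_mul_left h4 (by norm_num)

/-- The number of words of weight `s` and length `n` in `r + 2` letters is at most
`(r + 2) ^ n * sqrt ((r + 2) / (2 * (n + 1)))`. -/
theorem cnt_le (r n : ℕ) (s : ℤ) : (cnt r n s) ^ 2 * (2 * (n + 1)) ≤ (r + 2) ^ (2 * n + 1) := by
  have h1 : (cnt r n s : ℝ) ^ 2 ≤ (∑ m ∈ range (n + 1), (n.choose m : ℝ) * 2 ^ m * r ^ (n - m)) *
      ∑ m ∈ range (n + 1), (n.choose m : ℝ) * 2 ^ m * r ^ (n - m) / (m + 1) := by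
    have h2 : (cnt r n s : ℝ) ≤ ∑ m ∈ range (n + 1),
        Real.sqrt ((n.choose m : ℝ) * 2 ^ m * r ^ (n - m)) *
          Real.sqrt ((n.choose m : ℝ) * 2 ^ m * r ^ (n - m) / (m + 1)) := by
      rw [cnt_eq_sum]
      push_cast
      refine Finset.sum_le_sum fun m _ => ?_
      have hb : (cnt 0 m s : ℝ) ^ 2 * (m + 1) ≤ 4 ^ m := by
        have h3 := (Nat.mul_le_mul_right (m + 1) (Nat.pow_le_pow_left (cnt_zero_le m s) 2)).trans
          (central m)
        exact_mod_cast h3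
      rw [← Real.sqrt_mul (by positivity)]
      apply Real.le_sqrt_of_sq_le
      have hm : (0 : ℝ) < m + 1 := by positivity
      rw [mul_div_assoc', le_div_iff₀ hm]
      calc ((r : ℝ) ^ (n - m) * (n.choose m : ℝ) * (cnt 0 m s : ℝ)) ^ 2 * (m + 1) =
          ((r : ℝ) ^ (n - m) * (n.choose m : ℝ)) ^ 2 * ((cnt 0 m s : ℝ) ^ 2 * (m + 1)) := by ring
        _ ≤ ((r : ℝ) ^ (n - m) * (n.choose m : ℝ)) ^ 2 * 4 ^ m :=
            mul_le_mul_of_nonneg_left hb (sq_nonneg _)
        _ = _ := by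
          rw [show (4 : ℝ) = 2 ^ 2 by norm_num, ← pow_mul]
          ring
    have h3 : (cnt r n s : ℝ) ^ 2 ≤ (∑ m ∈ range (n + 1),
        Real.sqrt ((n.choose m : ℝ) * 2 ^ m * r ^ (n - m)) *
          Real.sqrt ((n.choose m : ℝ) * 2 ^ m * r ^ (n - m) / (m + 1))) ^ 2 :=
      pow_le_pow_left₀ (Nat.cast_nonneg _) h2 2
    refine h3.trans ((Finset.sum_mul_sq_le_sq_mul_sq _ _ _).trans (le_of_eq ?_))
    congr 1 <;> refine Finset.sum_congr rfl fun m _ => ?_ <;> exact Real.sq_sqrt (by positivity)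
  have h4 : (∑ m ∈ range (n + 1), (n.choose m : ℝ) * 2 ^ m * r ^ (n - m)) = ((r : ℝ) + 2) ^ n := by
    rw [add_comm (r : ℝ) 2, add_pow]
    refine Finset.sum_congr rfl fun m _ => ?_
    ring
  have h5 : (∑ m ∈ range (n + 1), (n.choose m : ℝ) * 2 ^ m * r ^ (n - m) / (m + 1)) *
      (2 * (n + 1)) ≤ ((r : ℝ) + 2) ^ (n + 1) := by
    rw [add_comm (r : ℝ) 2, add_pow, Finset.sum_range_succ' _ (n + 1), Finset.sum_mul]
    refine le_trans (Finset.sum_le_sum fun m hm => ?_) (le_add_of_nonneg_right (by positivity))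
    rw [Finset.mem_range] at hm
    have h6 : ((n + 1 : ℕ) : ℝ) * (n.choose m : ℝ) = ((n + 1).choose (m + 1) : ℝ) * (m + 1 : ℕ) := by
      exact_mod_cast Nat.add_one_mul_choose_eq n m
    have hm1 : (0 : ℝ) < m + 1 := by positivity
    have h7 : n + 1 - (m + 1) = n - m := by omega
    rw [h7, div_mul_eq_mul_div, div_le_iff₀ hm1]
    push_cast at h6
    refine le_of_eq ?_
    calc (n.choose m : ℝ) * 2 ^ m * r ^ (n - m) * (2 * (n + 1)) =
        (((n : ℝ) + 1) * (n.choose m : ℝ)) * (2 ^ (m + 1) * r ^ (n - m)) := by ring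
      _ = _ := by rw [h6]; ring
  have h8 : (cnt r n s : ℝ) ^ 2 * (2 * (n + 1)) ≤ ((r : ℝ) + 2) ^ (2 * n + 1) := by
    calc (cnt r n s : ℝ) ^ 2 * (2 * (n + 1)) ≤ (((r : ℝ) + 2) ^ n *
        ∑ m ∈ range (n + 1), (n.choose m : ℝ) * 2 ^ m * r ^ (n - m) / (m + 1)) *
          (2 * (n + 1)) := by
          rw [← h4]
          exact mul_le_mul_of_nonneg_right h1 (by positivity)
      _ = ((r : ℝ) + 2) ^ n * ((∑ m ∈ range (n + 1),
          (n.choose m : ℝ) * 2 ^ m * r ^ (n - m) / (m + 1)) * (2 * (n + 1))) := by ring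
      _ ≤ ((r : ℝ) + 2) ^ n * ((r : ℝ) + 2) ^ (n + 1) :=
          mul_le_mul_of_nonneg_left h5 (by positivity)
      _ = _ := by rw [← pow_add]; congr 1; ring
  exact_mod_cast h8

end Pool.Agent.E8helper24.INF
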