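import Pool.Agent.E8helper24.INF.DrbDefs
import Pool.Agent.E8helper24.INF.UniIdx
import Pool.Agent.Y133.Half.Per
import Pool.Agent.R920.MT.Main

/-!
# De Rham-Betti classes satisfy the lifting property
-/

open CategoryTheory AlgebraicGeometry Filter Topology

open scoped ENNReal TensorProduct

universe u v

namespace Pool.Agent.E8helper24.INF.Drb

open Module
open Pool.Agent.H914 Pool.Agent.H914.VarClass Pool.Agent.H914.VarClass.Obj
  Pool.Agent.H914.WeilCohomology Pool.Agent.Y133.Per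

section Lift

variable {k : Type u} [Field k] {𝒱 : VarClass k} {ops : CycleOps 𝒱}
  {W : WeilCohomology.{u, v} ops} [Algebra W.K ℂ] {F : Subfield ℂ} {X : 𝒱.Obj}

/-- The component of degree `i`. -/
noncomputable def comp (W : WeilCohomology.{u, v} ops) [Algebra W.K ℂ] (X : 𝒱.Obj) (i : ℕ) :
    Base W.K (W.H X) →ₗ[ℂ] Base W.K (W.H X) :=
  (Pool.Agent.H914.proj (W.isInternal X) i).baseChange ℂ

lemma comp_tm (i : ℕ) (r : ℂ) (c : W.H X) :
    comp W X i (tm r c) = tm r (Pool.Agent.H914.proj (W.isInternal X) i c) :=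
  LinearMap.baseChange_tmul _ _ _

lemma comp_same {i : ℕ} {b : Base W.K (W.H X)} (hb : IsHomog (W.gr X) i b) :
    comp W X i b = b := by
  induction hb with
  | of x hx =>
    obtain ⟨r, c, hc, rfl⟩ := hx
    rw [comp_tm, proj_same _ hc]
  | add a b _ _ ha hb => rw [map_add, ha, hb]

lemma comp_ne {i j : ℕ} (hij : i ≠ j) {b : Base W.K (W.H X)} (hb : IsHomog (W.gr X) i b) :
    comp W X j b = 0 := by
  induction hb with
  | of x hx =>
    obtain ⟨r, c, hc, rfl⟩ := hx
    rw [comp_tm, proj_ne _ hc hij, tm_zero]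
  | add a b _ _ ha hb => rw [map_add, ha, hb, add_zero]

lemma comp_mem {S : Set (Base W.K (W.H X))} (h0 : (0 : Base W.K (W.H X)) ∈ S)
    (hadd : ∀ a ∈ S, ∀ b ∈ S, a + b ∈ S) (hS : IsGradedSet (W.gr X) S) (i : ℕ)
    {a : Base W.K (W.H X)} (ha : a ∈ S) : comp W X i a ∈ S := by
  have h1 := hS a ha
  clear ha
  induction h1 with
  | of x hx =>
    obtain ⟨hxS, j, hj⟩ := hx
    by_cases hij : j = i
    · subst hij
      rw [comp_same hj]
      exact hxS
    · rw [comp_ne hij hj]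
      exact h0
  | add x y _ _ hx' hy' =>
    rw [map_add]
    exact hadd _ hx' _ hy'

lemma comp_comp (i : ℕ) (b : Base W.K (W.H X)) : comp W X i (comp W X i b) = comp W X i b := by
  refine base_ind (p := fun b => comp W X i (comp W X i b) = comp W X i b) ?_ ?_ ?_ b
  · rw [map_zero, map_zero]
  · intro r c
    rw [comp_tm, comp_tm, proj_same _ (Pool.Agent.H914.proj_mem _ _ _)]
  · intro a b ha hb
    rw [map_add, map_add, ha, hb]

lemma comp_mul {i j : ℕ} {w : W.H X} (hw : w ∈ W.gr X j) (s : ℂ) (b : Base W.K (W.H X)) :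
    comp W X (j + i) (tm s w * comp W X i b) = tm s w * comp W X i b := by
  refine base_ind (p := fun b => comp W X (j + i) (tm s w * comp W X i b) =
    tm s w * comp W X i b) ?_ ?_ ?_ b
  · rw [map_zero, mul_zero, map_zero]
  · intro r c
    rw [comp_tm, tm_mul, comp_tm,
      proj_same _ (W.mul_mem hw (Pool.Agent.H914.proj_mem (W.isInternal X) i c))]
  · intro a b ha hb
    rw [map_add, mul_add, map_add, ha, hb]

lemma comp_surj {i j : ℕ} {w : W.H X}
    (hs : ∀ v ∈ W.gr X j, ∃ x ∈ W.gr X i, w * x = v) (b : Base W.K (W.H X)) :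
    ∃ b' : Base W.K (W.H X), comp W X j b = tm 1 w * comp W X i b' := by
  refine base_ind (p := fun b => ∃ b' : Base W.K (W.H X),
    comp W X j b = tm 1 w * comp W X i b') ?_ ?_ ?_ b
  · exact ⟨0, by rw [map_zero, map_zero, mul_zero]⟩
  · intro r c
    obtain ⟨x, hx, hxv⟩ := hs _ (Pool.Agent.H914.proj_mem (W.isInternal X) j c)
    refine ⟨tm r x, ?_⟩
    rw [comp_tm, comp_tm, proj_same _ hx, tm_mul, one_mul, hxv]
  · rintro a b ⟨a', ha⟩ ⟨b', hb⟩
    exact ⟨a' + b', by rw [map_add, map_add, mul_add, ha, hb]⟩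

lemma comp_inj {i : ℕ} {w : W.H X} (hinj : ∀ x ∈ W.gr X i, w * x = 0 → x = 0)
    {b : Base W.K (W.H X)} (hb : tm 1 w * comp W X i b = 0) : comp W X i b = 0 := by
  let φ : W.gr X i →ₗ[W.K] W.H X := (LinearMap.mulLeft W.K w).comp (W.gr X i).subtype
  have hφ : LinearMap.ker φ = ⊥ := by
    rw [LinearMap.ker_eq_bot']
    intro x hx
    exact Subtype.ext (hinj x x.2 hx)
  obtain ⟨ν, hν⟩ := φ.exists_leftInverse_of_injective hφ
  let ν' : W.H X →ₗ[W.K] W.H X := (W.gr X i).subtype.comp ν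
  have h1 : ∀ x ∈ W.gr X i, ν' (w * x) = x := by
    intro x hx
    have := LinearMap.congr_fun hν ⟨x, hx⟩
    exact congrArg Subtype.val this
  let νC : Base W.K (W.H X) →ₗ[ℂ] Base W.K (W.H X) := ν'.baseChange ℂ
  have h2 : ∀ (r : ℂ) (c : W.H X), νC (tm r c) = tm r (ν' c) := fun r c =>
    LinearMap.baseChange_tmul _ _ _
  have h3 : ∀ b : Base W.K (W.H X), νC (tm 1 w * comp W X i b) = comp W X i b := by
    intro b
    refine base_ind (p := fun b => νC (tm 1 w * comp W X i b) = comp W X i b) ?_ ?_ ?_ b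
    · rw [map_zero, mul_zero, map_zero]
    · intro r c
      rw [comp_tm, tm_mul, one_mul, h2, h1 _ (Pool.Agent.H914.proj_mem _ _ _)]
    · intro a b ha hb
      rw [map_add, mul_add, map_add, ha, hb]
  rw [← h3, hb, map_zero]

variable {D : DeRham W F}

lemma twist_pow_mem (D : DeRham W F) {z : X.Cycles} (hz : X.IsCyc 1 z) (m : ℕ) :
    (tm (twoPiI ^ m) (W.cl X z ^ m) : Base W.K (W.H X)) ∈ D.dR X := by
  induction m with
  | zero =>
    rw [pow_zero, pow_zero]
    have h1 := (D.form X).cyc 0 1 ⟨X.V.fundCycle, X.V.fundCycle_mem, W.cl_fund X⟩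
    rwa [twist, pow_zero] at h1
  | succ m ih =>
    have h1 := (D.form X).cyc 1 _ ⟨z, hz, rfl⟩
    rw [twist, pow_one] at h1
    have h2 := (D.form X).mul _ ih _ h1
    rwa [tm_mul, ← pow_succ, ← pow_succ] at h2

/-- The de Rham-Betti classes have the lifting property. -/
lemma drb_lift (hg : IsGradedSet (W.gr X) (D.dR X)) {z : X.Cycles} {j : ℕ} (hz : X.IsCyc 1 z)
    (hL : HardLefschetz W X z) (hj : 2 * j ≤ X.dim) {x : W.H X} (hx : x ∈ W.gr X (2 * j))
    (h : IsDRB D X (X.dim - j) (W.cl X z ^ (X.dim - 2 * j) * x)) : IsDRB D X j x := by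
  classical
  set m : ℕ := X.dim - 2 * j with hm
  set w : W.H X := W.cl X z ^ m with hwd
  set P := comp W X (2 * X.dim - 2 * j) with hP
  set Q := comp W X (2 * j) with hQ
  have hm0 : twoPiI ^ m ≠ 0 := pow_ne_zero _ twoPiI_ne
  have hw : w ∈ W.gr X (2 * m) := by
    have : ∀ n : ℕ, W.cl X z ^ n ∈ W.gr X (2 * n) := by
      intro n
      induction n with
      | zero => rw [pow_zero, mul_zero]; exact W.one_mem X
      | succ n ih =>
        rw [pow_succ]
        have h1 := W.mul_mem ih (W.cl_mem hz)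
        rwa [show 2 * n + 2 * 1 = 2 * (n + 1) by ring] at h1
    exact this m
  have hdeg : 2 * m + 2 * j = 2 * X.dim - 2 * j := by omega
  have hsurj : ∀ v ∈ W.gr X (2 * X.dim - 2 * j), ∃ x ∈ W.gr X (2 * j), w * x = v :=
    fun v hv => by
      obtain ⟨x, hx, h⟩ := (hL (2 * j) hj).2 v hv
      rw [LinearMap.pow_mulLeft, LinearMap.mulLeft_apply] at h
      exact ⟨x, hx, h⟩
  have hinj : ∀ x ∈ W.gr X (2 * j), w * x = 0 → x = 0 :=
    fun x hx h => by
      apply (hL (2 * j) hj).1 x hx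
      rw [LinearMap.pow_mulLeft, LinearMap.mulLeft_apply]
      exact h
  have hPm : ∀ (s : ℂ) b, P (tm s w * Q b) = tm s w * Q b := by
    intro s b
    have h1 := comp_mul (i := 2 * j) hw s b
    rwa [hdeg] at h1
  have hcm : ∀ (i : ℕ) {a : Base W.K (W.H X)}, a ∈ D.dR X → comp W X i a ∈ D.dR X :=
    fun i a ha => comp_mem (D.form X).zero (D.form X).add hg i ha
  have hwS : (tm (twoPiI ^ m) w : Base W.K (W.H X)) ∈ D.dR X := twist_pow_mem D hz m
  -- the subspace
  let U : Submodule F (Base W.K (W.H X)) :=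
    { carrier := {a | a ∈ D.dR X ∧ ∃ y ∈ D.dR X, P a = tm (twoPiI ^ m) w * Q y}
      add_mem' := by
        rintro a b ⟨ha, y, hy, hya⟩ ⟨hb, y', hy', hyb⟩
        refine ⟨(D.form X).add _ ha _ hb, y + y', (D.form X).add _ hy _ hy', ?_⟩
        rw [map_add, map_add, mul_add, hya, hyb]
      zero_mem' := ⟨(D.form X).zero, 0, (D.form X).zero, by rw [map_zero, map_zero, mul_zero]⟩
      smul_mem' := by
        rintro r a ⟨ha, y, hy, hya⟩
        refine ⟨(D.form X).smul r.1 r.2 _ ha, r • y, (D.form X).smul r.1 r.2 _ hy, ?_⟩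
        have e1 : ∀ b : Base W.K (W.H X), (r • b) = ((r : ℂ) • b) := fun _ => rfl
        rw [e1, e1, map_smul, map_smul, hya, mul_smul_comm] }
  have hUS : ∀ a, a ∈ U ↔ a ∈ D.dR X ∧ ∃ y ∈ D.dR X, P a = tm (twoPiI ^ m) w * Q y :=
    fun _ => Iff.rfl
  have hsub : ∀ a ∈ D.dR X, ∀ b ∈ D.dR X, a - b ∈ D.dR X := by
    intro a ha b hb
    have h1 : (-1 : ℂ) ∈ F := F.neg_mem F.one_mem
    have h2 := (D.form X).add _ ha _ ((D.form X).smul _ h1 _ hb)
    rwa [neg_one_smul, ← sub_eq_add_neg] at h2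
  have hQU : ∀ y ∈ D.dR X, (tm (twoPiI ^ m) w * Q y : Base W.K (W.H X)) ∈ U := by
    intro y hy
    exact ⟨(D.form X).mul _ hwS _ (hcm _ hy), y, hy, hPm _ _⟩
  have hspan : Submodule.span ℂ (U : Set (Base W.K (W.H X))) = ⊤ := by
    have hQs : ∀ b : Base W.K (W.H X), tm 1 w * Q b ∈
        Submodule.span ℂ (U : Set (Base W.K (W.H X))) := by
      intro b
      have hb : b ∈ Submodule.span ℂ (D.dR X) := by rw [(D.form X).span]; trivial
      induction hb using Submodule.span_induction with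
      | mem y hy =>
        have e1 : (tm 1 w * Q y : Base W.K (W.H X)) =
            (twoPiI ^ m)⁻¹ • (tm (twoPiI ^ m) w * Q y) := by
          rw [← smul_mul_assoc, smul_tm, inv_mul_cancel₀ hm0]
        rw [e1]
        exact Submodule.smul_mem _ _ (Submodule.subset_span (hQU y hy))
      | zero => rw [map_zero, mul_zero]; exact Submodule.zero_mem _
      | add a b _ _ ha hb => rw [map_add, mul_add]; exact Submodule.add_mem _ ha hb
      | smul r a _ ha => rw [map_smul, mul_smul_comm]; exact Submodule.smul_mem _ _ ha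
    rw [eq_top_iff, ← (D.form X).span, Submodule.span_le]
    intro b hb
    have e1 : b = (b - P b) + P b := by abel
    rw [e1]
    refine Submodule.add_mem _ (Submodule.subset_span ?_) ?_
    · refine ⟨hsub _ hb _ (hcm _ hb), 0, (D.form X).zero, ?_⟩
      rw [map_sub, hP, comp_comp, sub_self, map_zero, mul_zero]
    · obtain ⟨b', hb'⟩ := comp_surj (j := 2 * X.dim - 2 * j) (i := 2 * j) hsurj b
      change comp W X (2 * X.dim - 2 * j) b ∈ _
      rw [hb']
      exact hQs b'
  -- the pairing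
  have h0 : twoPiI ^ X.dim ≠ 0 := pow_ne_zero _ twoPiI_ne
  let B : Base W.K (W.H X) →ₗ[ℂ] Base W.K (W.H X) →ₗ[ℂ] ℂ :=
    (twoPiI ^ X.dim)⁻¹ • ((LinearMap.mul ℂ (Base W.K (W.H X))).compr₂ (baseTr (W.tr X)))
  have hBe : ∀ v w, B v w = (twoPiI ^ X.dim)⁻¹ * baseTr (W.tr X) (v * w) := fun v w => rfl
  have key : ∀ v ∈ D.dR X, ∀ w ∈ D.dR X, B v w ∈ F := by
    intro v hv w hw
    obtain ⟨r, hr, h⟩ := (D.form X).tr _ ((D.form X).mul v hv w hw)
    rw [hBe, h, ← mul_assoc, inv_mul_cancel₀ h0, one_mul]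
    exact hr
  have hv : twist (X.dim - j) (w * x) ∈ U := by
    refine mem_of_pair U hspan B ?_ ?_ ?_
    · intro v hv
      apply baseTr_nondeg _ (Pool.Agent.Y133.Half.exists_dual_class W)
      intro b
      have h1 := hv b
      rw [hBe] at h1
      exact (mul_eq_zero.1 h1).resolve_left (inv_ne_zero h0)
    · exact fun v hv w hw => key v hv.1 w hw.1
    · exact fun w hw => key _ h.2 w hw.1
  obtain ⟨-, y, hy, hPy⟩ := hv
  have e1 : (twist (X.dim - j) (w * x) : Base W.K (W.H X)) = tm (twoPiI ^ m) w * Q (twist j x) := by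
    rw [hQ, twist, twist, comp_tm, proj_same _ hx, tm_mul, ← pow_add,
      show m + j = X.dim - j by omega]
  have e2 : (tm (twoPiI ^ m) w * Q (twist j x) : Base W.K (W.H X)) =
      tm (twoPiI ^ m) w * Q y := by
    rw [← hPy, e1, hPm]
  have e3 : Q (twist j x - y) = 0 := by
    apply comp_inj hinj
    change tm 1 w * Q (twist j x - y) = 0
    have e4 : (tm 1 w * Q (twist j x - y) : Base W.K (W.H X)) =
        (twoPiI ^ m)⁻¹ • (tm (twoPiI ^ m) w * Q (twist j x - y)) := by
      rw [← smul_mul_assoc, smul_tm, inv_mul_cancel₀ hm0]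
    rw [e4, map_sub, mul_sub, e2, sub_self, smul_zero]
  refine ⟨hx, ?_⟩
  have e5 : (twist j x : Base W.K (W.H X)) = Q y := by
    have e6 : Q (twist j x) = twist j x := by
      rw [hQ, twist, comp_tm, proj_same _ hx]
    rw [map_sub, sub_eq_zero, e6] at e3
    exact e3
  rw [e5]
  exact hcm _ hy

end Lift

end Pool.Agent.E8helper24.INF.Drb
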