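import Pool.Agent.E8helper24.INF.Quo

/-!
# Flatness of the sequence of ranks
-/

open CategoryTheory AlgebraicGeometry

universe u v

set_option linter.unusedSectionVars false

namespace Pool.Agent.E8helper24.INF

open Module
open Pool.Agent.H914 Pool.Agent.H914.VarClass Pool.Agent.H914.VarClass.Obj
  Pool.Agent.H914.WeilCohomology Pool.Agent.Y133.Half

/-! ### Sequences -/

lemma flat {N α : ℕ → ℕ} {B κ N₀ : ℕ} (hN₀ : 0 < N₀) (hB : 1 ≤ B) (hpos : ∀ l, 0 < N l)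
    (hconv : ∀ l, N (l + 1) ^ 2 ≤ N (l + 2) * N l) (h0 : N 0 ≤ B * N₀)
    (hα : ∀ l, N₀ * α l ≤ N l) (hlow : ∀ l, B ^ (l + 1) ≤ α l * (l + 2) ^ κ) {l j : ℕ}
    (hl : 1 ≤ l) (hj : (l + 2) ^ (κ * j) ≤ 2 ^ l) : B ^ j * N l ≤ 2 * N (l + j) := by
  have hp : ∀ i, (0 : ℝ) < N i := fun i => by exact_mod_cast hpos i
  set r : ℝ := N (l + 1) / N l with hr
  have hr0 : 0 ≤ r := by positivity
  have hrl : r * N l ≤ N (l + 1) := by rw [hr, div_mul_cancel₀ _ (hp l).ne']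
  have h1 : ∀ i, i ≤ l → (N (i + 1) : ℝ) ≤ r * N i := by
    intro i hi
    have h2 : (N (i + 1) / N i : ℝ) * N i ≤ N (i + 1) := by rw [div_mul_cancel₀ _ (hp i).ne']
    have h3 := ratio_mono hpos hconv h2 hi
    have h4 : (N (i + 1) / N i : ℝ) ≤ r := by
      rw [hr, le_div_iff₀ (hp l)]
      exact h3
    calc (N (i + 1) : ℝ) = (N (i + 1) / N i : ℝ) * N i := by rw [div_mul_cancel₀ _ (hp i).ne']
      _ ≤ r * N i := mul_le_mul_of_nonneg_right h4 (hp i).le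
  have h2 : ∀ i, i ≤ l → (N i : ℝ) ≤ r ^ i * N 0 := by
    intro i
    induction i with
    | zero => intro _; simp
    | succ i ih =>
      intro hi
      calc (N (i + 1) : ℝ) ≤ r * N i := h1 i (by omega)
        _ ≤ r * (r ^ i * N 0) := mul_le_mul_of_nonneg_left (ih (by omega)) hr0
        _ = _ := by ring
  have h3 : r ^ j * N l ≤ N (l + j) :=
    ratio_pow hr0 (l₀ := l) (fun i hi => ratio_mono (n := i) hpos hconv hrl hi) j l le_rfl
  have hN₀' : (0 : ℝ) < N₀ := by exact_mod_cast hN₀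
  have hB' : (0 : ℝ) < B := by exact_mod_cast hB
  have h4 : (B : ℝ) ^ l ≤ r ^ l * ((l + 2 : ℕ) : ℝ) ^ κ := by
    have e1 : (B : ℝ) ^ (l + 1) ≤ α l * ((l + 2 : ℕ) : ℝ) ^ κ := by exact_mod_cast hlow l
    have e2 : (N₀ : ℝ) * α l ≤ N l := by exact_mod_cast hα l
    have e3 : (N 0 : ℝ) ≤ B * N₀ := by exact_mod_cast h0
    have e4 : (0 : ℝ) ≤ ((l + 2 : ℕ) : ℝ) ^ κ := by positivity
    have e5 : (N₀ * B : ℝ) * (B : ℝ) ^ l ≤ (N₀ * B : ℝ) * (r ^ l * ((l + 2 : ℕ) : ℝ) ^ κ) := by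
      calc (N₀ * B : ℝ) * (B : ℝ) ^ l = N₀ * (B : ℝ) ^ (l + 1) := by ring
        _ ≤ N₀ * (α l * ((l + 2 : ℕ) : ℝ) ^ κ) := mul_le_mul_of_nonneg_left e1 hN₀'.le
        _ = (N₀ * α l) * ((l + 2 : ℕ) : ℝ) ^ κ := by ring
        _ ≤ N l * ((l + 2 : ℕ) : ℝ) ^ κ := mul_le_mul_of_nonneg_right e2 e4
        _ ≤ (r ^ l * N 0) * ((l + 2 : ℕ) : ℝ) ^ κ :=
            mul_le_mul_of_nonneg_right (h2 l le_rfl) e4
        _ ≤ (r ^ l * (B * N₀)) * ((l + 2 : ℕ) : ℝ) ^ κ :=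
            mul_le_mul_of_nonneg_right (mul_le_mul_of_nonneg_left e3 (by positivity)) e4
        _ = _ := by ring
    exact le_of_mul_le_mul_left e5 (by positivity)
  have h5 : (B : ℝ) ^ j ≤ 2 * r ^ j := by
    have e1 : ((B : ℝ) ^ j) ^ l ≤ (2 * r ^ j) ^ l := by
      calc ((B : ℝ) ^ j) ^ l = ((B : ℝ) ^ l) ^ j := by rw [← pow_mul, ← pow_mul, mul_comm]
        _ ≤ (r ^ l * ((l + 2 : ℕ) : ℝ) ^ κ) ^ j := pow_le_pow_left₀ (by positivity) h4 j
        _ = (r ^ j) ^ l * ((l + 2 : ℕ) : ℝ) ^ (κ * j) := by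
            rw [mul_pow, ← pow_mul, ← pow_mul, ← pow_mul, mul_comm l j]
        _ ≤ (r ^ j) ^ l * (2 : ℝ) ^ l := by
            refine mul_le_mul_of_nonneg_left ?_ (by positivity)
            exact_mod_cast hj
        _ = (2 * r ^ j) ^ l := by rw [mul_pow]; ring
    exact (pow_le_pow_iff_left₀ (by positivity) (by positivity) (by omega)).1 e1
  have h6 : (B : ℝ) ^ j * N l ≤ 2 * N (l + j) := by
    calc (B : ℝ) ^ j * N l ≤ (2 * r ^ j) * N l := mul_le_mul_of_nonneg_right h5 (hp l).le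
      _ = 2 * (r ^ j * N l) := by ring
      _ ≤ 2 * N (l + j) := mul_le_mul_of_nonneg_left h3 (by norm_num)
  exact_mod_cast h6

variable {k : Type u} [Field k] {𝒱 : VarClass k} {ops : CycleOps 𝒱}
  {W : WeilCohomology.{u, v} ops} {X Y Z P Q U : 𝒱.Obj}

/-! ### Operators not meeting the numerically trivial ones -/

/-- A space of operators which meets the numerically trivial operators in zero has at most the
dimension of the rank of the intersection form. -/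
lemma finrank_le_a (S : Sys W) {A : Submodule W.K (W.H X →ₗ[W.K] W.H Y)} (hA : A ≤ S.Op X Y)
    (h0 : ∀ T ∈ A, T ∈ S.NOp X Y → T = 0) : finrank W.K A ≤ S.a (X.prod Y) := by
  let V : Submodule W.K (W.H (X.prod Y)) := S.C (X.prod Y) ⊓ A.comap (corrL W X Y)
  have hVC : V ≤ S.C (X.prod Y) := inf_le_left
  let f : V →ₗ[W.K] (W.H X →ₗ[W.K] W.H Y) := (corrL W X Y).domRestrict V
  let g : V →ₗ[W.K] (S.C (X.prod Y) →ₗ[W.K] W.K) :=
    (S.F (X.prod Y) 1) ∘ₗ (Submodule.inclusion hVC)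
  have h1 := LinearMap.finrank_range_add_finrank_ker f
  have h2 := LinearMap.finrank_range_add_finrank_ker g
  have hA' : A ≤ LinearMap.range f := by
    intro T hT
    obtain ⟨c, hc, hc'⟩ := Sys.mem_Op.1 (hA hT)
    have hcV : c ∈ V := ⟨hc, by
      rw [SetLike.mem_coe, Submodule.mem_comap]
      change W.corr c ∈ A
      rw [hc']
      exact hT⟩
    exact ⟨⟨c, hcV⟩, hc'⟩
  have h3 : LinearMap.ker g ≤ LinearMap.ker f := by
    rintro ⟨c, hc⟩ hT
    rw [LinearMap.mem_ker] at hT ⊢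
    refine h0 _ hc.2 (Sys.NOp.corr ⟨hc.1, fun d hd => ?_⟩)
    exact congrArg (fun f : S.C (X.prod Y) →ₗ[W.K] W.K => f ⟨d, hd⟩) hT
  have h4 := Submodule.finrank_mono h3
  have h5 : finrank W.K (LinearMap.range g) ≤ S.a (X.prod Y) := by
    refine Submodule.finrank_mono ?_
    rintro _ ⟨T, rfl⟩
    exact ⟨_, rfl⟩
  have h6 := Submodule.finrank_mono hA'
  omega

/-- A left ideal of a semisimple ring consisting of nilpotent elements is zero. -/
lemma nil_ideal {A : Type*} [Ring A] [IsSemisimpleRing A] (p : A → Prop) (h0 : p 0)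
    (hadd : ∀ x y, p x → p y → p (x + y)) (hmul : ∀ a x, p x → p (a * x))
    (hnil : ∀ x, p x → IsNilpotent x) (x : A) (hx : p x) : x = 0 := by
  let J : Ideal A :=
    { carrier := {x | p x}
      zero_mem' := h0
      add_mem' := fun {a b} ha hb => hadd a b ha hb
      smul_mem' := fun c x hx => hmul c x hx }
  obtain ⟨e, he, hJ⟩ := IsSemisimpleRing.ideal_eq_span_idempotent J
  have heJ : e ∈ J := by rw [hJ]; exact Ideal.mem_span_singleton_self e
  have he0 : e = 0 := by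
    obtain ⟨N, hN⟩ := hnil e heJ
    rcases Nat.eq_zero_or_pos N with rfl | hN0
    · rw [pow_zero] at hN
      rw [← mul_one e, hN, mul_zero]
    · rwa [he.pow_eq hN0.ne'] at hN
  have h1 : x ∈ J := hx
  rw [hJ, he0, Ideal.span_singleton_eq_bot.2 rfl] at h1
  exact (Submodule.mem_bot A).1 h1

/-- The permutation operators meet the nilpotent ideal in zero. -/
lemma span_inter (S : Sys W) (X : 𝒱.Obj) (n : ℕ)
    (hnil : ∀ x ∈ S.NOp (pw X n) (pw X n), IsNilpotent x) :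
    ∀ T ∈ Submodule.span W.K (Set.range (rho W X n)), T ∈ S.NOp (pw X n) (pw X n) → T = 0 := by
  intro T hT hTn
  have hle : Submodule.span W.K (Set.range (rho W X n)) ≤
      Subalgebra.toSubmodule (repAlg (rho W X n)) := by
    rw [Submodule.span_le]
    rintro _ ⟨σ, rfl⟩
    exact rep_mem _ σ
  have hOp : ∀ a : repAlg (rho W X n), (a : Module.End W.K (W.H (pw X n))) ∈
      S.Op (pw X n) (pw X n) := fun a => S.span_rho_le X n (repAlg_le _ a.2)
  have key := nil_ideal (A := repAlg (rho W X n))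
    (fun x => (x : Module.End W.K (W.H (pw X n))) ∈ S.NOp (pw X n) (pw X n))
    (S.NOp (pw X n) (pw X n)).zero_mem
    (fun x y hx hy => (S.NOp (pw X n) (pw X n)).add_mem hx hy)
    (fun a x hx => Sys.NOp.comp_left (hOp a) hx)
    (fun x hx => by
      obtain ⟨N, hN⟩ := hnil _ hx
      exact ⟨N, Subtype.ext hN⟩) ⟨T, hle hT⟩ hTn
  exact congrArg Subtype.val key

/-- The lower bound for the rank of the intersection form. -/
lemma al_lower (S : Sys W) (hpos : ∀ l, 0 < S.al X l)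
    (hB : ∀ c : ℝ, 0 ≤ c → c < (finrank W.K (W.H X) : ℝ) ^ 2 →
      ∃ l₀, ∀ l ≥ l₀, c * S.al X l ≤ S.al X (l + 1))
    (hX : 0 < finrank W.K (W.H X)) (n : ℕ) :
    (finrank W.K (W.H X) ^ 2) ^ (n + 1) ≤ S.al X n * (n + 2) ^ (finrank W.K (W.H X) ^ 2) := by
  classical
  obtain ⟨e, he⟩ := exists_hbasis W X
  have h := span_perm (wb e n) (rho W X n) (tau_wb e he n)
  have h1n : (1 : W.H (pw X n)) ≠ 0 := by
    have : Nontrivial (W.H (pw X n)) := by
      apply Module.nontrivial_of_finrank_pos (R := W.K)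
      rw [finrank_pw]
      exact Nat.pow_pos hX
    exact one_ne_zero
  have h3 : finrank W.K (Submodule.span W.K (Set.range (rho W X n))) ≤ S.al X n := by
    refine finrank_le_a S (S.span_rho_le X n) ?_
    exact span_inter S X n fun x hx => S.nilpotent_iso hpos hB hX (Iso.refl _) h1n hx
  rw [finrank_pw, ← pow_mul, Fintype.card_fin] at h
  calc (finrank W.K (W.H X) ^ 2) ^ (n + 1) = finrank W.K (W.H X) ^ ((n + 1) * 2) := by
        rw [← pow_mul, mul_comm]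
    _ ≤ _ := h
    _ ≤ _ := Nat.mul_le_mul_right _ h3

/-! ### Products with the square of an object -/

/-- The square of `Z × X^(l+1)`. -/
noncomputable def sq (X Z : 𝒱.Obj) (l : ℕ) : 𝒱.Obj := (Z.prod (pw X l)).prod (Z.prod (pw X l))

lemma a_cl (S : Sys W) {A B : 𝒱.Obj} (h : cl A = cl B) : S.a A = S.a B := by
  obtain ⟨θ⟩ := iso_of_cl h
  exact S.a_iso θ

lemma C_cl (S : Sys W) {A B : 𝒱.Obj} (h : cl A = cl B) :
    finrank W.K (S.C A) = finrank W.K (S.C B) := by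
  obtain ⟨θ⟩ := iso_of_cl h
  exact S.finrank_C_iso θ

lemma cl_sq (X Z : 𝒱.Obj) (l : ℕ) : cl (sq X Z l) = (cl Z * cl Z) * pwc (cl X) (l + l + 1) := by
  rw [sq, cl_prod, cl_prod, cl_pw, ← pwc_add]
  ac_rfl

/-- A power of even exponent times a square. -/
lemma cl_pw_sq (X Z : 𝒱.Obj) (e l j : ℕ) (h : e + 1 = 2 * j) :
    pwc (cl X) e * cl (sq X Z l) = cl (sq X Z (l + j)) := by
  rw [cl_sq, cl_sq]
  have h1 : l + j + (l + j) + 1 = e + (l + l + 1) + 1 := by omega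
  rw [h1, ← pwc_add (cl X) e (l + l + 1)]
  ac_rfl

lemma sq_convex (S : Sys W) (X Z : 𝒱.Obj) (l : ℕ) :
    S.a (sq X Z (l + 1)) ^ 2 ≤ S.a (sq X Z (l + 2)) * S.a (sq X Z l) := by
  have h := S.cs (P := pw X 1) (g := 1) (g' := 1) Sys.Op.id rfl Adj.one (Z.prod (pw X l))
  rw [extOp_one, Sys.r_one, Sys.r_one] at h
  have h1 : S.a ((pw X 1).prod ((Z.prod (pw X l)).prod (Z.prod (pw X l)))) =
      S.a (sq X Z (l + 1)) := by
    apply a_cl
    have := cl_pw_sq X Z 1 l 1 (by ring)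
    rw [← this, cl_prod, cl_pw]
    rfl
  have h2 : S.a (((pw X 1).prod (pw X 1)).prod ((Z.prod (pw X l)).prod (Z.prod (pw X l)))) =
      S.a (sq X Z (l + 2)) := by
    apply a_cl
    have := cl_pw_sq X Z 3 l 2 (by ring)
    rw [← this, cl_prod, cl_prod, cl_pw, pwc_add]
    rfl
  rw [h1, h2] at h
  exact h

lemma sq_zero_le (S : Sys W) (X Z : 𝒱.Obj) :
    S.a (sq X Z 0) ≤ finrank W.K (W.H X) ^ 2 * S.a (Z.prod Z) := by
  have h := S.a_le (pw X 1) Z
  rw [finrank_pw] at h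
  have h1 : S.a ((pw X 1).prod (Z.prod Z)) = S.a (sq X Z 0) := by
    apply a_cl
    rw [cl_sq, cl_prod, cl_prod, cl_pw]
    ac_rfl
  rw [h1] at h
  exact h

lemma sq_ge (S : Sys W) (X Z : 𝒱.Obj) (l : ℕ) :
    S.a (Z.prod Z) * S.al X l ≤ S.a (sq X Z l) := by
  refine (a_prod_ge S _ _).trans (le_of_eq ?_)
  apply a_cl
  rw [cl_sq, cl_prod, cl_prod, cl_prod, cl_pw, pwc_add]

/-- **Flatness.** -/
theorem sq_flat (S : Sys W) (hpos : ∀ l, 0 < S.al X l)
    (hB : ∀ c : ℝ, 0 ≤ c → c < (finrank W.K (W.H X) : ℝ) ^ 2 →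
      ∃ l₀, ∀ l ≥ l₀, c * S.al X l ≤ S.al X (l + 1))
    (hX : 0 < finrank W.K (W.H X)) (Z : 𝒱.Obj) {l j : ℕ} (hl : 1 ≤ l)
    (hj : (l + 2) ^ (finrank W.K (W.H X) ^ 2 * j) ≤ 2 ^ l) :
    (finrank W.K (W.H X) ^ 2) ^ j * S.a (sq X Z l) ≤ 2 * S.a (sq X Z (l + j)) := by
  rcases Nat.eq_zero_or_pos (S.a (Z.prod Z)) with h0 | h0
  · have h1 : S.a (sq X Z l) = 0 := by
      refine a_prod_eq_zero S h0 (X := sq X Z l) ?_
      exact Obj.lift (fst _ _ ≫ fst _ _) (snd _ _ ≫ fst _ _)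
    rw [h1, mul_zero]
    exact Nat.zero_le _
  · refine flat (N := fun l => S.a (sq X Z l)) (α := S.al X) (N₀ := S.a (Z.prod Z)) h0
      (Nat.pow_pos hX) (fun l => ?_) (sq_convex S X Z) (sq_zero_le S X Z) (sq_ge S X Z)
      (al_lower S hpos hB hX) hl hj
    exact lt_of_lt_of_le (Nat.mul_pos h0 (hpos l)) (sq_ge S X Z l)

end Pool.Agent.E8helper24.INF
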