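import Pool.Agent.E8helper24.INF.Slt
import Pool.Agent.H914R2.Sl2Rep

/-!
# The dimension of the kernels of the powers of the lowering operator
-/

set_option linter.unusedSectionVars false

namespace Pool.Agent.E8helper24.INF

open Module Pool.Agent.H914

variable {K V : Type*} [Field K] [CharZero K] [AddCommGroup V] [Module K V]
  {h e f : Module.End K V} {J : Type*} [Fintype J] [DecidableEq J] {b : Basis J K V} {wt : J → ℤ}

/-- The vectors of weight `s`. -/
def wsp (h : Module.End K V) (s : ℤ) : Submodule K V where
  carrier := {x | h x = (s : K) • x}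
  add_mem' := fun {x y} hx hy => by
    have hx' : h x = (s : K) • x := hx
    have hy' : h y = (s : K) • y := hy
    change h (x + y) = _
    rw [map_add, hx', hy', smul_add]
  zero_mem' := by change h 0 = _; rw [map_zero, smul_zero]
  smul_mem' := fun c x hx => by
    have hx' : h x = (s : K) • x := hx
    change h (c • x) = _
    rw [map_smul, hx', smul_comm]

lemma mem_wsp {s : ℤ} {x : V} : x ∈ wsp h s ↔ h x = (s : K) • x := Iff.rfl

lemma wsp_eq_span (hb : ∀ j, h (b j) = (wt j : K) • b j) (s : ℤ) :
    wsp h s = Submodule.span K (Set.range fun j : {j // wt j = s} => b j) := by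
  apply le_antisymm
  · intro x hx
    rw [← b.sum_repr x]
    refine Submodule.sum_mem _ fun j _ => ?_
    by_cases hj : wt j = s
    · exact Submodule.smul_mem _ _ (Submodule.subset_span ⟨⟨j, hj⟩, rfl⟩)
    · rw [coord_zero hb (mem_wsp.1 hx) hj, zero_smul]
      exact Submodule.zero_mem _
  · rw [Submodule.span_le]
    rintro _ ⟨⟨j, hj⟩, rfl⟩
    change h (b j) = (s : K) • b j
    rw [hb, hj]

lemma finrank_wsp (hb : ∀ j, h (b j) = (wt j : K) • b j) (s : ℤ) :
    finrank K (wsp h s) = Fintype.card {j // wt j = s} := by
  rw [wsp_eq_span hb]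
  apply finrank_span_eq_card
  exact b.linearIndependent.comp _ Subtype.val_injective

/-- `f ^ n` maps the vectors of weight `n` onto those of weight `-n`. -/
lemma mem_range_f_pow (t : Sl2 h e f) (hb : ∀ j, h (b j) = (wt j : K) • b j)
    (hs : ∀ s : ℤ, Fintype.card {j // wt j = s} = Fintype.card {j // wt j = -s})
    (n : ℕ) {x : V} (hx : x ∈ wsp h (-n)) : x ∈ LinearMap.range (f ^ n) := by
  have hfin : Module.Finite K V := Module.Finite.of_basis b
  obtain ⟨N, hN⟩ := Sl2.nil_e t
  have hmaps : ∀ y ∈ wsp h (n : ℤ), (f ^ n) y ∈ wsp h (-n : ℤ) := by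
    intro y hy
    rw [mem_wsp] at hy ⊢
    rw [h_f_pow t hy]
    congr 1
    push_cast
    ring
  let F : wsp h (n : ℤ) →ₗ[K] wsp h (-n : ℤ) := (f ^ n).restrict hmaps
  have hinj : Function.Injective F := by
    rw [← LinearMap.ker_eq_bot, LinearMap.ker_eq_bot']
    rintro ⟨y, hy⟩ hy0
    have h1 : (f ^ n) y = 0 := congrArg (fun z : wsp h (-n : ℤ) => (z : V)) hy0
    have h2 : y = 0 := eq_zero_of_f_pow t N n n y (by rw [hN]; rfl)
      (by have := mem_wsp.1 hy; simpa using this) le_rfl h1
    exact Subtype.ext h2
  have hsurj : Function.Surjective F := by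
    rw [← LinearMap.injective_iff_surjective_of_finrank_eq_finrank]
    · exact hinj
    · rw [finrank_wsp hb, finrank_wsp hb]
      exact hs n
  obtain ⟨y, hy⟩ := hsurj ⟨x, hx⟩
  exact ⟨y, congrArg (fun z : wsp h (-n : ℤ) => (z : V)) hy⟩

/-- The kernel of `f ^ i` is at most as large as the number of basis vectors of weight at most `i`
in absolute value. -/
theorem ker_le (t : Sl2 h e f) (hb : ∀ j, h (b j) = (wt j : K) • b j)
    (hs : ∀ s : ℤ, Fintype.card {j // wt j = s} = Fintype.card {j // wt j = -s}) (i : ℕ) :
    finrank K (LinearMap.ker (f ^ i)) ≤ Fintype.card {j // |wt j| ≤ i} := by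
  have hfin : Module.Finite K V := Module.Finite.of_basis b
  obtain ⟨N, hN⟩ := Sl2.nil_e t
  let A := {j // (i : ℤ) < wt j}
  let B := {j // wt j < -(i : ℤ)}
  let α : (A → K) →ₗ[K] V := Fintype.linearCombination K fun j : A => b j
  let β : (B → K) →ₗ[K] V := Fintype.linearCombination K fun j : B => b j
  have hα : ∀ c : A → K, ∀ j : A, b.repr (α c) j = c j := by
    intro c j
    have : α c = ∑ l : A, c l • b l := Fintype.linearCombination_apply K _ c
    rw [this, map_sum, Finsupp.finsetSum_apply]
    rw [Finset.sum_eq_single j]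
    · rw [map_smul, b.repr_self, Finsupp.smul_apply, Finsupp.single_apply, if_pos rfl, smul_eq_mul,
        mul_one]
    · intro l _ hl
      rw [map_smul, b.repr_self, Finsupp.smul_apply, Finsupp.single_apply,
        if_neg (fun h => hl (Subtype.ext h)), smul_zero]
    · intro hj; exact absurd (Finset.mem_univ j) hj
  have hα' : ∀ c : A → K, ∀ j, ¬ ((i : ℤ) < wt j) → b.repr (α c) j = 0 := by
    intro c j hj
    have : α c = ∑ l : A, c l • b l := Fintype.linearCombination_apply K _ c
    rw [this, map_sum, Finsupp.finsetSum_apply]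
    refine Finset.sum_eq_zero fun l _ => ?_
    rw [map_smul, b.repr_self, Finsupp.smul_apply, Finsupp.single_apply,
        if_neg (fun hh : (l : J) = j => hj (by rw [← hh]; exact l.2)), smul_zero]
  have hβ : ∀ c : B → K, ∀ j : B, b.repr (β c) j = c j := by
    intro c j
    have : β c = ∑ l : B, c l • b l := Fintype.linearCombination_apply K _ c
    rw [this, map_sum, Finsupp.finsetSum_apply]
    rw [Finset.sum_eq_single j]
    · rw [map_smul, b.repr_self, Finsupp.smul_apply, Finsupp.single_apply, if_pos rfl, smul_eq_mul,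
        mul_one]
    · intro l _ hl
      rw [map_smul, b.repr_self, Finsupp.smul_apply, Finsupp.single_apply,
        if_neg (fun h => hl (Subtype.ext h)), smul_zero]
    · intro hj; exact absurd (Finset.mem_univ j) hj
  have hβ' : ∀ c : B → K, ∀ j, ¬ (wt j < -(i : ℤ)) → b.repr (β c) j = 0 := by
    intro c j hj
    have : β c = ∑ l : B, c l • b l := Fintype.linearCombination_apply K _ c
    rw [this, map_sum, Finsupp.finsetSum_apply]
    refine Finset.sum_eq_zero fun l _ => ?_
    rw [map_smul, b.repr_self, Finsupp.smul_apply, Finsupp.single_apply,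
        if_neg (fun hh : (l : J) = j => hj (by rw [← hh]; exact l.2)), smul_zero]
  let Ψ : (A → K) × (B → K) →ₗ[K] V := ((f ^ i) ∘ₗ α).coprod β
  have hΨ : Function.Injective Ψ := by
    rw [← LinearMap.ker_eq_bot, LinearMap.ker_eq_bot']
    rintro ⟨c, d⟩ h0
    have h1 : (f ^ i) (α c) + β d = 0 := h0
    have hx0 : α c = 0 := by
      apply b.repr.injective
      ext j
      rw [map_zero, Finsupp.zero_apply]
      by_cases hj : (i : ℤ) < wt j
      · -- the component of weight `wt j`
        have h2 : proj b wt (wt j) (α c) = 0 := by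
          obtain ⟨s, hs'⟩ : ∃ s : ℕ, (s : ℤ) = wt j := ⟨(wt j).toNat, by omega⟩
          have h3 : (f ^ i) (proj b wt (wt j) (α c)) = 0 := by
            rw [f_pow_proj t hb]
            have h4 : (f ^ i) (α c) = - β d := eq_neg_of_add_eq_zero_left h1
            rw [h4, map_neg, neg_eq_zero]
            apply b.repr.injective
            ext l
            rw [repr_proj, map_zero, Finsupp.zero_apply]
            split_ifs with hl
            · exact hβ' d l (by omega)
            · rfl
          have h5 := h_proj hb (wt j) (α c)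
          rw [← hs'] at h3 h5 ⊢
          exact eq_zero_of_f_pow t N s i _ (by rw [hN]; rfl) (by simpa using h5) (by omega) h3
        have h6 := congrArg (fun y => b.repr y j) h2
        simp only [repr_proj, if_pos, map_zero, Finsupp.zero_apply] at h6
        exact h6
      · exact hα' c j hj
    rw [hx0, map_zero, zero_add] at h1
    have hc : c = 0 := by
      funext j
      rw [← hα c j, hx0, map_zero]
      rfl
    have hd : d = 0 := by
      funext j
      rw [← hβ d j, h1, map_zero]
      rfl
    rw [hc, hd]
    rfl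
  have hrange : LinearMap.range Ψ ≤ LinearMap.range (f ^ i) := by
    rintro _ ⟨⟨c, d⟩, rfl⟩
    have h1 : Ψ (c, d) = (f ^ i) (α c) + β d := rfl
    rw [h1]
    refine Submodule.add_mem _ ⟨_, rfl⟩ ?_
    have : β d = ∑ l : B, d l • b l := Fintype.linearCombination_apply K _ d
    rw [this]
    refine Submodule.sum_mem _ fun l _ => Submodule.smul_mem _ _ ?_
    have hl := l.2
    obtain ⟨n, hn⟩ : ∃ n : ℕ, -(n : ℤ) = wt l := ⟨(-(wt l)).toNat, by omega⟩
    have h2 : b l ∈ wsp h (-n : ℤ) := by
      rw [mem_wsp, hb, hn]
    obtain ⟨y, hy⟩ := mem_range_f_pow t hb hs n h2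
    refine ⟨(f ^ (n - i)) y, ?_⟩
    rw [← Module.End.mul_apply, ← pow_add, ← hy]
    congr 2
    omega
  have h1 : Fintype.card A + Fintype.card B ≤ finrank K (LinearMap.range (f ^ i)) := by
    have h2 := LinearMap.finrank_range_of_inj hΨ
    rw [Module.finrank_prod, Module.finrank_fintype_fun_eq_card,
      Module.finrank_fintype_fun_eq_card] at h2
    rw [← h2]
    exact Submodule.finrank_mono hrange
  have h2 := LinearMap.finrank_range_add_finrank_ker (f ^ i)
  rw [Module.finrank_eq_card_basis b] at h2
  have h3 : Fintype.card J = Fintype.card {j // |wt j| ≤ (i : ℤ)} +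
      (Fintype.card A + Fintype.card B) := by
    rw [Fintype.card_subtype, Fintype.card_subtype, Fintype.card_subtype,
      ← Finset.card_union_of_disjoint, ← Finset.card_union_of_disjoint, ← Finset.card_univ]
    · congr 1
      ext j
      simp only [Finset.mem_univ, Finset.mem_union, Finset.mem_filter, true_and, true_iff]
      rw [abs_le]
      by_cases h4 : (i : ℤ) < wt j
      · exact Or.inr (Or.inl h4)
      · by_cases h5 : wt j < -(i : ℤ)
        · exact Or.inr (Or.inr h5)
        · exact Or.inl ⟨by omega, by omega⟩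
    · rw [Finset.disjoint_left]
      intro j hj
      simp only [Finset.mem_univ, Finset.mem_union, Finset.mem_filter, true_and] at hj ⊢
      rw [abs_le] at hj
      omega
    · rw [Finset.disjoint_left]
      intro j hj
      simp only [Finset.mem_univ, Finset.mem_filter, true_and] at hj ⊢
      omega
  omega

end Pool.Agent.E8helper24.INF
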