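import Mathlib

/-!
# Counting along the powers of an operator
-/

namespace Pool.Agent.E8helper24.INF

open Module

variable {K M Q : Type*} [Field K] [AddCommGroup M] [Module K M] [FiniteDimensional K M]
  [AddCommGroup Q] [Module K Q] [FiniteDimensional K Q]

lemma step_powers (L : Module.End K M) (β : M →ₗ[K] Q) (hβ : ∀ m, β (L m) = 0) (i : ℕ)
    (R : Submodule K Q) (hR : ∀ m, (L ^ i) m = 0 → β m ∈ R) :
    finrank K (LinearMap.range β) + finrank K (LinearMap.range (L ^ (i + 1))) ≤
      finrank K (LinearMap.range (L ^ i)) + finrank K R := by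
  set B := LinearMap.range (L ^ (i + 1)) with hB
  set A := LinearMap.range (L ^ i) with hA
  have hBA : B ≤ A := by
    rintro _ ⟨m, rfl⟩
    exact ⟨L m, by rw [pow_succ, Module.End.mul_apply]⟩
  -- the map `M → M / B`
  let θ : M →ₗ[K] M ⧸ B := B.mkQ ∘ₗ (L ^ i)
  let γ : M →ₗ[K] Q ⧸ R := R.mkQ ∘ₗ β
  have hker : LinearMap.ker θ ≤ LinearMap.ker γ := by
    intro m hm
    rw [LinearMap.mem_ker, LinearMap.comp_apply, Submodule.mkQ_apply,
      Submodule.Quotient.mk_eq_zero] at hm
    obtain ⟨m', hm'⟩ := hm
    have h1 : (L ^ i) (m - L m') = 0 := by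
      rw [map_sub, sub_eq_zero, ← hm', pow_succ, Module.End.mul_apply]
    have h2 := hR _ h1
    rw [map_sub, hβ, sub_zero] at h2
    rw [LinearMap.mem_ker, LinearMap.comp_apply, Submodule.mkQ_apply,
      Submodule.Quotient.mk_eq_zero]
    exact h2
  have e1 := LinearMap.finrank_range_add_finrank_ker θ
  have e2 := LinearMap.finrank_range_add_finrank_ker γ
  have e3 := Submodule.finrank_mono hker
  -- the range of `θ`
  have e4 : finrank K (LinearMap.range θ) + finrank K B = finrank K A := by
    have h1 := LinearMap.finrank_range_add_finrank_ker (B.mkQ.domRestrict A)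
    have h2 : LinearMap.range (B.mkQ.domRestrict A) = LinearMap.range θ := by
      rw [LinearMap.range_domRestrict, LinearMap.range_comp]
    have h3 : finrank K (LinearMap.ker (B.mkQ.domRestrict A)) = finrank K B := by
      have h4 : (LinearMap.ker (B.mkQ.domRestrict A)).map A.subtype = B := by
        ext x
        constructor
        · rintro ⟨⟨y, hy⟩, hy', rfl⟩
          rw [SetLike.mem_coe, LinearMap.mem_ker, LinearMap.domRestrict_apply,
            Submodule.mkQ_apply, Submodule.Quotient.mk_eq_zero] at hy'
          exact hy'
        · intro hx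
          refine ⟨⟨x, hBA hx⟩, ?_, rfl⟩
          rw [SetLike.mem_coe, LinearMap.mem_ker, LinearMap.domRestrict_apply,
            Submodule.mkQ_apply, Submodule.Quotient.mk_eq_zero]
          exact hx
      exact (Submodule.equivMapOfInjective A.subtype A.subtype_injective
        (LinearMap.ker (B.mkQ.domRestrict A))).finrank_eq.trans
          (congrArg (fun Z : Submodule K M => finrank K Z) h4)
    rw [h2, h3] at h1
    exact h1
  -- the range of `γ`
  have e5 : finrank K (LinearMap.range β) ≤ finrank K (LinearMap.range γ) + finrank K R := by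
    obtain ⟨S, hS⟩ : ∃ S : Submodule K Q, S = LinearMap.range β := ⟨_, rfl⟩
    rw [← hS]
    have h1 := LinearMap.finrank_range_add_finrank_ker (R.mkQ.domRestrict S)
    have h2 : LinearMap.range (R.mkQ.domRestrict S) = LinearMap.range γ := by
      rw [LinearMap.range_domRestrict, LinearMap.range_comp, hS]
    have h3 : finrank K (LinearMap.ker (R.mkQ.domRestrict S)) ≤ finrank K R := by
      have h4 : (LinearMap.ker (R.mkQ.domRestrict S)).map S.subtype ≤ R := by
        rintro _ ⟨⟨y, hy⟩, hy', rfl⟩
        rw [SetLike.mem_coe, LinearMap.mem_ker, LinearMap.domRestrict_apply,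
          Submodule.mkQ_apply, Submodule.Quotient.mk_eq_zero] at hy'
        exact hy'
      refine le_trans (le_of_eq ?_) (Submodule.finrank_mono h4)
      exact (Submodule.equivMapOfInjective S.subtype S.subtype_injective
        (LinearMap.ker (R.mkQ.domRestrict S))).finrank_eq
    rw [h2] at h1
    omega
  omega

/-- Let `β` vanish on the range of `L`, and let `β` map the kernel of `L ^ i` to `R i`. Then the
dimension of `M` is at least the sum of the numbers `rank β - dim R i`, `i < I`. -/
theorem count_powers (L : Module.End K M) (β : M →ₗ[K] Q) (hβ : ∀ m, β (L m) = 0) (I : ℕ)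
    (R : ℕ → Submodule K Q) (hR : ∀ i < I, ∀ m, (L ^ i) m = 0 → β m ∈ R i) :
    I * finrank K (LinearMap.range β) ≤ finrank K M + ∑ i ∈ Finset.range I, finrank K (R i) := by
  have key : ∀ J ≤ I, J * finrank K (LinearMap.range β) +
      finrank K (LinearMap.range (L ^ J)) ≤
      finrank K M + ∑ i ∈ Finset.range J, finrank K (R i) := by
    intro J
    induction J with
    | zero =>
      intro _
      simpa using Submodule.finrank_le (LinearMap.range (L ^ 0))
    | succ J ih =>
      intro hJ
      have h1 := ih (by omega)
      have h2 := step_powers L β hβ J (R J) (hR J (by omega))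
      rw [Finset.sum_range_succ]
      have h3 : (J + 1) * finrank K (LinearMap.range β) =
        J * finrank K (LinearMap.range β) + finrank K (LinearMap.range β) := by ring
      omega
  have := key I le_rfl
  omega

end Pool.Agent.E8helper24.INF
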