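import Pool.Agent.E8helper24.INF.Ker
import Pool.Agent.E8helper24.INF.Cou
import Pool.Agent.Y133.Half.Num

/-!
# A numerically trivial operator with small kernels on a high power
-/

open CategoryTheory AlgebraicGeometry

universe u v

set_option linter.unusedSectionVars false

namespace Pool.Agent.E8helper24.INF

open Module
open Pool.Agent.H914 Pool.Agent.H914.VarClass Pool.Agent.H914.VarClass.Obj
  Pool.Agent.H914.WeilCohomology Pool.Agent.Y133.Half

/-! ### Linear algebra: a square zero operator of rank one -/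

section Rank

variable {K V : Type*} [Field K] [AddCommGroup V] [Module K V] [FiniteDimensional K V]

/-- A decomposition of `V` given by two functionals. -/
noncomputable def dec (τ ζ : V →ₗ[K] K) (l z : V) (hτl : τ l = 1) (hτz : τ z = 0) (hζl : ζ l = 0)
    (hζz : ζ z = 1) :
    ((K × K) × ↥(LinearMap.ker τ ⊓ LinearMap.ker ζ)) ≃ₗ[K] V where
  toFun p := p.1.1 • l + p.1.2 • z + (p.2 : V)
  map_add' p q := by
    simp only [Prod.fst_add, Prod.snd_add, Submodule.coe_add, add_smul]
    abel
  map_smul' c p := by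
    simp only [Prod.smul_fst, Prod.smul_snd, Submodule.coe_smul, smul_eq_mul, mul_smul,
      RingHom.id_apply, smul_add]
  invFun x := ((τ x, ζ x), ⟨x - τ x • l - ζ x • z, by
    rw [Submodule.mem_inf, LinearMap.mem_ker, LinearMap.mem_ker]
    simp [map_sub, hτl, hτz, hζl, hζz]⟩)
  left_inv p := by
    obtain ⟨⟨a, c⟩, ⟨n, hn⟩⟩ := p
    have h1 : τ n = 0 := (Submodule.mem_inf.1 hn).1
    have h2 : ζ n = 0 := (Submodule.mem_inf.1 hn).2
    apply Prod.ext
    · apply Prod.ext
      · simp [hτl, hτz, h1]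
      · simp [hζl, hζz, h2]
    · apply Subtype.ext
      simp only [map_add, map_smul, hτl, hτz, hζl, hζz, h1, h2, smul_eq_mul, mul_one, mul_zero,
        add_zero, zero_add]
      abel
  right_inv x := by
    simp only
    abel

/-- The sl(2)-triple given by a square zero operator of rank one. -/
lemma sl2_rank_one (τ ζ : V →ₗ[K] K) (l z : V) (hτl : τ l = 1) (hτz : τ z = 0) (hζl : ζ l = 0)
    (hζz : ζ z = 1) :
    Sl2 (τ.smulRight l - ζ.smulRight z : Module.End K V) (ζ.smulRight l) (τ.smulRight z) where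
  ef := by
    apply LinearMap.ext
    intro x
    simp [hτl, hζz]
  he := by
    apply LinearMap.ext
    intro x
    have h2 : (2 : Module.End K V) = (2 : K) • 1 := by
      rw [← one_add_one_eq_two, ← one_add_one_eq_two, add_smul, one_smul]
    rw [h2]
    simp [hτl, hζl, two_smul, hτz, hζz]
  hf := by
    apply LinearMap.ext
    intro x
    have h2 : (2 : Module.End K V) = (2 : K) • 1 := by
      rw [← one_add_one_eq_two, ← one_add_one_eq_two, add_smul, one_smul]
    rw [h2]
    simp [hτl, hζl, two_smul, hτz, hζz]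
    abel

/-- An eigenbasis. -/
lemma exists_basis (τ ζ : V →ₗ[K] K) (l z : V) (hτl : τ l = 1) (hτz : τ z = 0) (hζl : ζ l = 0)
    (hζz : ζ z = 1) : ∃ r : ℕ, r + 2 = finrank K V ∧
      ∃ (b : Basis (Fin 2 ⊕ Fin r) K V) (wt : Fin 2 ⊕ Fin r → ℤ),
      (∀ j, (τ.smulRight l - ζ.smulRight z : Module.End K V) (b j) = (wt j : K) • b j) ∧
      ∀ s : ℤ, (Fintype.card {j // wt j = s}) = cnt r 1 s := by
  set N := LinearMap.ker τ ⊓ LinearMap.ker ζ with hN
  let e := dec τ ζ l z hτl hτz hζl hζz
  let b0 := ((Basis.finTwoProd K).prod (finBasis K N)).map e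
  have hdim : finrank K N + 2 = finrank K V := by
    rw [← e.finrank_eq, Module.finrank_prod, Module.finrank_prod, Module.finrank_self, add_comm]
  refine ⟨finrank K N, hdim, b0, Sum.elim ![1, -1] (fun _ => 0), ?_, ?_⟩
  · intro j
    rcases j with j | j
    · fin_cases j
      · have h1 : b0 (Sum.inl 0) = l := by
          change e ((Basis.finTwoProd K).prod (finBasis K N) (Sum.inl 0)) = l
          have : (Basis.finTwoProd K).prod (finBasis K N) (Sum.inl 0) = ((1, 0), 0) := by
            rw [Basis.prod_apply]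
            simp
          rw [this]
          change (1 : K) • l + (0 : K) • z + ((0 : N) : V) = l
          simp
        change (τ.smulRight l - ζ.smulRight z : Module.End K V) (b0 (Sum.inl 0)) =
          (((1 : ℤ)) : K) • b0 (Sum.inl 0)
        rw [h1]
        simp [hτl, hζl]
      · have h1 : b0 (Sum.inl 1) = z := by
          change e ((Basis.finTwoProd K).prod (finBasis K N) (Sum.inl 1)) = z
          have : (Basis.finTwoProd K).prod (finBasis K N) (Sum.inl 1) = ((0, 1), 0) := by
            rw [Basis.prod_apply]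
            simp
          rw [this]
          change (0 : K) • l + (1 : K) • z + ((0 : N) : V) = z
          simp
        change (τ.smulRight l - ζ.smulRight z : Module.End K V) (b0 (Sum.inl 1)) =
          (((-1 : ℤ)) : K) • b0 (Sum.inl 1)
        rw [h1]
        simp [hτz, hζz]
    · have h1 : b0 (Sum.inr j) = (finBasis K N j : V) := by
        change e ((Basis.finTwoProd K).prod (finBasis K N) (Sum.inr j)) = _
        have : (Basis.finTwoProd K).prod (finBasis K N) (Sum.inr j) = ((0, 0), finBasis K N j) := by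
          rw [Basis.prod_apply]
          simp
          rfl
        rw [this]
        change (0 : K) • l + (0 : K) • z + (finBasis K N j : V) = _
        simp
      have h2 : τ (finBasis K N j : V) = 0 := (Submodule.mem_inf.1 (finBasis K N j).2).1
      have h3 : ζ (finBasis K N j : V) = 0 := (Submodule.mem_inf.1 (finBasis K N j).2).2
      change (τ.smulRight l - ζ.smulRight z : Module.End K V) (b0 (Sum.inr j)) =
        (((0 : ℤ)) : K) • b0 (Sum.inr j)
      rw [h1]
      simp [h2, h3]
  · intro s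
    have h1 : cnt (finrank K N) 1 s = (if s = 1 then 1 else 0) + (if s = -1 then 1 else 0) +
        finrank K N * (if s = 0 then 1 else 0) := by
      rw [show 1 = 0 + 1 from rfl, cnt_succ, cnt_zero, cnt_zero, cnt_zero]
      have e1 : (s - 1 = 0) ↔ s = 1 := by omega
      have e2 : (s + 1 = 0) ↔ s = -1 := by omega
      simp only [e1, e2]
    have h2 : Fintype.card {j : Fin 2 ⊕ Fin (finrank K N) //
        (Sum.elim ![1, -1] (fun _ => 0) : Fin 2 ⊕ Fin (finrank K N) → ℤ) j = s} =
        (if (1 : ℤ) = s then 1 else 0) + (if (-1 : ℤ) = s then 1 else 0) +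
        ∑ _x : Fin (finrank K N), (if (0 : ℤ) = s then 1 else 0) := by
      rw [Fintype.card_subtype, Finset.card_filter, Fintype.sum_sum_type, Fin.sum_univ_two]
      rfl
    have e1 : ((1 : ℤ) = s) ↔ s = 1 := eq_comm
    have e2 : ((-1 : ℤ) = s) ↔ s = -1 := eq_comm
    have e3 : ((0 : ℤ) = s) ↔ s = 0 := eq_comm
    rw [Finset.sum_const, Finset.card_univ, Fintype.card_fin, smul_eq_mul] at h2
    simp only [e1, e2, e3] at h2
    rw [h1, ← h2]

end Rank

variable {k : Type u} [Field k] {𝒱 : VarClass k} {ops : CycleOps 𝒱}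
  {W : WeilCohomology.{u, v} ops} {X Y Z P Q U : 𝒱.Obj}

/-- The sum of the operators `a` on the factors of the power. -/
noncomputable def lft (W : WeilCohomology.{u, v} ops) {U : 𝒱.Obj} (a : Module.End W.K (W.H U)) :
    ∀ m, Module.End W.K (W.H (pw U m))
  | 0 => a
  | m + 1 => extOp W (lft W a m) 1 + extOp W 1 a

lemma ext_comm (a b : Module.End W.K (W.H X)) (a' b' : Module.End W.K (W.H Y)) :
    (extOp W a 1 + extOp W 1 a') * (extOp W b 1 + extOp W 1 b') -
      (extOp W b 1 + extOp W 1 b') * (extOp W a 1 + extOp W 1 a') =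
    (extOp W (a * b - b * a) 1 + extOp W 1 (a' * b' - b' * a')) := by
  have h1 : ∀ c c' : Module.End W.K (W.H X), extOp W (c - c') (1 : Module.End W.K (W.H Y)) =
      extOp W c 1 - extOp W c' 1 := by
    intro c c'
    apply ext_kunneth_lin
    intro x y
    rw [LinearMap.sub_apply, extOp_tmul, extOp_tmul, extOp_tmul, LinearMap.sub_apply, map_sub,
      sub_mul]
  have h2 : ∀ c c' : Module.End W.K (W.H Y), extOp W (1 : Module.End W.K (W.H X)) (c - c') =
      extOp W 1 c - extOp W 1 c' := by
    intro c c'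
    apply ext_kunneth_lin
    intro x y
    rw [LinearMap.sub_apply, extOp_tmul, extOp_tmul, extOp_tmul, LinearMap.sub_apply, map_sub,
      mul_sub]
  rw [h1, h2]
  simp only [add_mul, mul_add, extOp_mul, one_mul, mul_one]
  abel

lemma ext_two (a : Module.End W.K (W.H X)) (a' : Module.End W.K (W.H Y)) :
    extOp W (2 * a) 1 + extOp W 1 (2 * a') = 2 * (extOp W a 1 + extOp W 1 a') := by
  have h0 : ∀ {V : Type v} [AddCommGroup V] [Module W.K V] (T : Module.End W.K V),
      2 * T = T + T := fun T => two_mul T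
  rw [h0, h0, h0]
  apply ext_kunneth_lin
  intro x y
  simp only [LinearMap.add_apply, extOp_tmul, map_add, add_mul, mul_add, Module.End.one_apply]
  abel

lemma ext_neg (a : Module.End W.K (W.H X)) (a' : Module.End W.K (W.H Y)) :
    extOp W (-a) 1 + extOp W 1 (-a') = -(extOp W a 1 + extOp W 1 a') := by
  apply ext_kunneth_lin
  intro x y
  simp only [LinearMap.add_apply, LinearMap.neg_apply, extOp_tmul, map_neg, neg_mul, mul_neg,
    Module.End.one_apply, neg_add]

lemma sl2_lft {h e f : Module.End W.K (W.H U)} (t : Sl2 h e f) :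
    ∀ m, Sl2 (lft W h m) (lft W e m) (lft W f m)
  | 0 => t
  | m + 1 => by
    have ih := sl2_lft t m
    refine ⟨?_, ?_, ?_⟩
    · have h1 := ext_comm (X := pw U m) (Y := U) (lft W e m) (lft W f m) e f
      rw [ih.ef, t.ef] at h1
      exact h1
    · have h1 := ext_comm (X := pw U m) (Y := U) (lft W h m) (lft W e m) h e
      rw [ih.he, t.he, ext_two] at h1
      exact h1
    · have h1 := ext_comm (X := pw U m) (Y := U) (lft W h m) (lft W f m) h f
      rw [ih.hf, t.hf, ext_neg, ext_two] at h1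
      exact h1

lemma exists_basis_prod {r m : ℕ} {J : Type} [Fintype J] [DecidableEq J]
    {g : Module.End W.K (W.H X)} {h : Module.End W.K (W.H Y)}
    (B : Basis J W.K (W.H X)) (w : J → ℤ)
    (b : Basis (Fin 2 ⊕ Fin r) W.K (W.H Y)) (wt : Fin 2 ⊕ Fin r → ℤ)
    (hB : ∀ j, g (B j) = (w j : W.K) • B j)
    (hw : ∀ s : ℤ, (Fintype.card {j // w j = s}) = cnt r (m + 1) s)
    (hb : ∀ j, h (b j) = (wt j : W.K) • b j)
    (hc : ∀ s : ℤ, (Fintype.card {j // wt j = s}) = cnt r 1 s) :
    ∃ (J' : Type) (_ : Fintype J') (_ : DecidableEq J') (B' : Basis J' W.K (W.H (X.prod Y)))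
      (w' : J' → ℤ), (∀ j, (extOp W g 1 + extOp W 1 h : Module.End W.K (W.H (X.prod Y))) (B' j) =
        (w' j : W.K) • B' j) ∧
        ∀ s : ℤ, (Fintype.card {j // w' j = s}) = cnt r (m + 1 + 1) s := by
  refine ⟨J × (Fin 2 ⊕ Fin r), inferInstance, inferInstance,
    (B.tensorProduct b).map (kappa W X Y), fun p => w p.1 + wt p.2, ?_, ?_⟩
  · rintro ⟨j, i⟩
    have h1 : ((B.tensorProduct b).map (kappa W X Y)) (j, i) =
        W.map (fst X Y) (B j) * W.map (snd X Y) (b i) := by
      rw [Basis.map_apply, Basis.tensorProduct_apply]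
      exact kappa_tmul _ _
    rw [h1, LinearMap.add_apply, extOp_tmul, extOp_tmul, hB, hb, Module.End.one_apply,
      Module.End.one_apply, map_smul, map_smul, smul_mul_assoc, mul_smul_comm, ← add_smul]
    congr 1
    push_cast
    rfl
  · intro s
    have h1 : ∀ i, Fintype.card {j // w j = s - wt i} = cnt r (m + 1) (s - wt i) :=
      fun i => hw _
    have h2 : Fintype.card {p : J × (Fin 2 ⊕ Fin r) // w p.1 + wt p.2 = s} =
        ∑ i, cnt r (m + 1) (s - wt i) := by
      rw [Fintype.card_subtype, Finset.card_filter, Fintype.sum_prod_type_right]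
      refine Finset.sum_congr rfl fun i _ => ?_
      rw [← h1 i, Fintype.card_subtype, Finset.card_filter]
      refine Finset.sum_congr rfl fun j _ => ?_
      have : (w j + wt i = s) ↔ (w j = s - wt i) := by omega
      simp only [this]
    rw [h2]
    -- count the letters by weight
    have h3 : ∀ F : ℤ → ℕ, ∑ i, F (wt i) = F 1 + F (-1) + r * F 0 := by
      intro F
      have h4 : ∑ i, F (wt i) = ∑ s ∈ Finset.univ.image wt, (cnt r 1 s) * F s := by
        rw [← Finset.sum_fiberwise_of_maps_to (g := wt) (t := Finset.univ.image wt)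
          (fun i hi => Finset.mem_image_of_mem _ hi)]
        refine Finset.sum_congr rfl fun s _ => ?_
        rw [← hc s, Fintype.card_subtype, ← smul_eq_mul, ← Finset.sum_const]
        refine Finset.sum_congr rfl fun i hi => ?_
        rw [(Finset.mem_filter.1 hi).2]
      have h5 : ∀ s, cnt r 1 s = (if s = 1 then 1 else 0) + (if s = -1 then 1 else 0) +
          r * (if s = 0 then 1 else 0) := by
        intro s
        rw [show 1 = 0 + 1 from rfl, cnt_succ, cnt_zero, cnt_zero, cnt_zero]
        have e1 : (s - 1 = 0) ↔ s = 1 := by omega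
        have e2 : (s + 1 = 0) ↔ s = -1 := by omega
        simp only [e1, e2]
      have h6 : ∑ s ∈ Finset.univ.image wt, (cnt r 1 s) * F s =
          ∑ s ∈ (Finset.univ.image wt ∪ {1, -1, 0}), (cnt r 1 s) * F s := by
        apply Finset.sum_subset Finset.subset_union_left
        intro s _ hs
        have : cnt r 1 s = 0 := by
          rw [← hc s, Fintype.card_eq_zero_iff]
          exact ⟨fun p => hs (Finset.mem_image.2 ⟨p.1, Finset.mem_univ _, p.2⟩)⟩
        rw [this, zero_mul]
      have h7 : ∑ s ∈ (Finset.univ.image wt ∪ {1, -1, 0}), (cnt r 1 s) * F s =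
          ∑ s ∈ ({1, -1, 0} : Finset ℤ), (cnt r 1 s) * F s := by
        symm
        apply Finset.sum_subset Finset.subset_union_right
        intro s _ hs
        simp only [Finset.mem_insert, Finset.mem_singleton, not_or] at hs
        rw [h5, if_neg hs.1, if_neg hs.2.1, if_neg hs.2.2]
        simp
      rw [h4, h6, h7, Finset.sum_insert (by decide), Finset.sum_insert (by decide),
        Finset.sum_singleton, h5, h5, h5]
      simp
      ring
    have h8 := h3 fun t => cnt r (m + 1) (s - t)
    simp only [sub_neg_eq_add, sub_zero] at h8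
    rw [h8, cnt_succ (n := m + 1)]

/-- The eigenbasis of the sum of the operators on the factors. -/
lemma exists_basis_lft {h : Module.End W.K (W.H U)} {r : ℕ}
    (b : Basis (Fin 2 ⊕ Fin r) W.K (W.H U)) (wt : Fin 2 ⊕ Fin r → ℤ)
    (hb : ∀ j, h (b j) = (wt j : W.K) • b j)
    (hc : ∀ s : ℤ, (Fintype.card {j // wt j = s}) = cnt r 1 s) (m : ℕ) :
    ∃ (J : Type) (_ : Fintype J) (_ : DecidableEq J) (B : Basis J W.K (W.H (pw U m)))
      (w : J → ℤ), (∀ j, lft W h m (B j) = (w j : W.K) • B j) ∧
        ∀ s : ℤ, (Fintype.card {j // w j = s}) = cnt r (m + 1) s := by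
  induction m with
  | zero => exact ⟨_, inferInstance, inferInstance, b, wt, hb, hc⟩
  | succ m ih =>
    obtain ⟨J, hJ, hJ', B, w, hB, hw⟩ := ih
    exact exists_basis_prod B w b wt hB hw hb hc

/-- **Small kernels.** -/
theorem ker_lft (τ : W.H U →ₗ[W.K] W.K) (l z : W.H U) (hτl : τ l = 1) (hτz : τ z = 0)
    (hz : z ≠ 0) (m i : ℕ) :
    (finrank W.K (LinearMap.ker ((lft W (τ.smulRight z) m) ^ i))) ^ 2 * (2 * (m + 2)) ≤
      (2 * i + 1) ^ 2 * (finrank W.K (W.H U)) ^ (2 * (m + 1) + 1) := by
  classical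
  -- the dual functional
  obtain ⟨ζ, hζl, hζz⟩ : ∃ ζ : W.H U →ₗ[W.K] W.K, ζ l = 0 ∧ ζ z = 1 := by
    have hl : l ∉ Submodule.span W.K {z} := by
      intro h
      obtain ⟨c, rfl⟩ := Submodule.mem_span_singleton.1 h
      rw [map_smul, hτz, smul_zero] at hτl
      exact zero_ne_one hτl
    have hzl : z ∉ Submodule.span W.K {l} := by
      intro h
      obtain ⟨c, rfl⟩ := Submodule.mem_span_singleton.1 h
      rw [map_smul, hτl, smul_eq_mul, mul_one] at hτz
      rw [hτz, zero_smul] at hz
      exact hz rfl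
    obtain ⟨φ, hφ, hφ'⟩ := Submodule.exists_dual_map_eq_bot_of_notMem hzl inferInstance
    have h1 : φ l = 0 := by
      have h2 : φ l ∈ (Submodule.span W.K {l}).map φ :=
        ⟨l, Submodule.mem_span_singleton_self l, rfl⟩
      rw [hφ'] at h2
      exact (Submodule.mem_bot _).1 h2
    refine ⟨(φ z)⁻¹ • φ, ?_, ?_⟩
    · rw [LinearMap.smul_apply, h1, smul_zero]
    · rw [LinearMap.smul_apply, smul_eq_mul, inv_mul_cancel₀ hφ]
  obtain ⟨r, hr, b, wt, hb, hc⟩ := exists_basis τ ζ l z hτl hτz hζl hζz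
  obtain ⟨J, hJ, hJ', B, w, hB, hw⟩ := exists_basis_lft b wt hb hc m
  have t := sl2_lft (sl2_rank_one τ ζ l z hτl hτz hζl hζz) m
  have h1 := ker_le t hB (fun s => by rw [hw, hw, cnt_neg]) i
  have h2 : Fintype.card {j // |w j| ≤ (i : ℤ)} = ∑ s ∈ Finset.Icc (-(i : ℤ)) i,
      cnt r (m + 1) s := by
    rw [Fintype.card_subtype, Finset.card_eq_sum_card_fiberwise (f := w)
      (t := Finset.Icc (-(i : ℤ)) i)]
    · refine Finset.sum_congr rfl fun s hs => ?_
      rw [← hw s, Fintype.card_subtype, Finset.filter_filter]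
      congr 1
      ext j
      simp only [Finset.mem_filter, Finset.mem_univ, true_and, and_iff_right_iff_imp]
      rintro rfl
      rw [Finset.mem_Icc] at hs
      exact abs_le.2 hs
    · intro j hj
      rw [Finset.mem_coe, Finset.mem_filter] at hj
      rw [Finset.mem_coe, Finset.mem_Icc]
      exact abs_le.1 hj.2
  have h3 : (∑ s ∈ Finset.Icc (-(i : ℤ)) i, cnt r (m + 1) s) ^ 2 ≤
      (2 * i + 1) * ∑ s ∈ Finset.Icc (-(i : ℤ)) i, (cnt r (m + 1) s) ^ 2 := by
    have h4 := sq_sum_le_card_mul_sum_sq (s := Finset.Icc (-(i : ℤ)) i)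
      (f := fun s => cnt r (m + 1) s)
    have h5 : (Finset.Icc (-(i : ℤ)) i).card = 2 * i + 1 := by
      rw [Int.card_Icc]
      omega
    rw [h5] at h4
    exact h4
  have h6 : (∑ s ∈ Finset.Icc (-(i : ℤ)) i, (cnt r (m + 1) s) ^ 2) * (2 * (m + 2)) ≤
      (2 * i + 1) * (r + 2) ^ (2 * (m + 1) + 1) := by
    rw [Finset.sum_mul]
    have h5 : (Finset.Icc (-(i : ℤ)) i).card = 2 * i + 1 := by
      rw [Int.card_Icc]
      omega
    have h7 : (2 * i + 1) * (r + 2) ^ (2 * (m + 1) + 1) =
        ∑ _s ∈ Finset.Icc (-(i : ℤ)) i, (r + 2) ^ (2 * (m + 1) + 1) := by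
      rw [Finset.sum_const, smul_eq_mul, h5]
    rw [h7]
    refine Finset.sum_le_sum fun s _ => ?_
    exact cnt_le r (m + 1) s
  rw [← hr]
  calc (finrank W.K (LinearMap.ker ((lft W (τ.smulRight z) m) ^ i))) ^ 2 * (2 * (m + 2)) ≤
      (∑ s ∈ Finset.Icc (-(i : ℤ)) i, cnt r (m + 1) s) ^ 2 * (2 * (m + 2)) := by
        refine Nat.mul_le_mul_right _ (Nat.pow_le_pow_left ?_ 2)
        rw [← h2]
        exact h1
    _ ≤ ((2 * i + 1) * ∑ s ∈ Finset.Icc (-(i : ℤ)) i, (cnt r (m + 1) s) ^ 2) *
        (2 * (m + 2)) := Nat.mul_le_mul_right _ h3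
    _ = (2 * i + 1) * ((∑ s ∈ Finset.Icc (-(i : ℤ)) i, (cnt r (m + 1) s) ^ 2) *
        (2 * (m + 2))) := by ring
    _ ≤ (2 * i + 1) * ((2 * i + 1) * (r + 2) ^ (2 * (m + 1) + 1)) :=
        Nat.mul_le_mul_left _ h6
    _ = _ := by ring

/-- The operator `x ↦ tr x • z` for a numerically trivial class `z`. -/
lemma smulRight_mem (S : Sys W) {z : W.H U} (hz : z ∈ S.Num U) :
    (W.tr U).smulRight z ∈ S.NOp U U := by
  have h1 : W.corr (xp W (1 : W.H U) z) = (W.tr U).smulRight z := by
    apply gr_ext (W.isInternal U)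
    intro i x hx
    rw [corr_xp (1 : W.H U) (S.even hz.1) (PH.of (W := W) hx), one_mul, zero_mul, pow_zero,
      one_mul, LinearMap.smulRight_apply]
  rw [← h1]
  exact Sys.NOp.corr (Sys.Num.mul' (S.map _ (S.one U)) (Sys.Num.map _ hz))

lemma lft_mem (S : Sys W) {a : Module.End W.K (W.H U)} (ha : a ∈ S.NOp U U) :
    ∀ m, lft W a m ∈ S.NOp (pw U m) (pw U m)
  | 0 => ha
  | m + 1 => Submodule.add_mem _ (Sys.NOp.ext_left (lft_mem S ha m)) (Sys.NOp.ext_right ha)

end Pool.Agent.E8helper24.INF
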