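import Pool.Agent.E8helper24.INF.Flat
import Pool.Agent.E8helper24.INF.CSys
import Pool.Agent.E8helper24.INF.Tens

/-!
# The main inequality
-/

open CategoryTheory AlgebraicGeometry

universe u v

set_option linter.unusedSectionVars false

namespace Pool.Agent.E8helper24.INF

open Module
open Pool.Agent.H914 Pool.Agent.H914.VarClass Pool.Agent.H914.VarClass.Obj
  Pool.Agent.H914.WeilCohomology Pool.Agent.Y133.Half

lemma sum_odd (I : ℕ) : ∑ i ∈ Finset.range I, (2 * (i : ℝ) + 1) = (I : ℝ) ^ 2 := by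
  induction I with
  | zero => simp
  | succ I ih => rw [Finset.sum_range_succ, ih]; push_cast; ring

/-- The choice of the number of steps. -/
lemma choose_steps {a d s b : ℝ} (ha : 0 ≤ a) (hs : 0 < s) (hb : 1 ≤ b) (had : a ≤ d)
    (h : ∀ I : ℕ, (I : ℝ) * a ≤ d + (I : ℝ) ^ 2 * s * b * (2 * a)) :
    a ≤ 16 * b * s * d := by
  have hb0 : 0 < b := by linarith
  have hd : 0 ≤ d := ha.trans had
  set κ : ℝ := 1 / (4 * s * b) with hκ
  have hsb : 0 < s * b := by positivity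
  have hκ0 : 0 < κ := by positivity
  have hκ1 : κ * (s * b) = 1 / 4 := by
    rw [hκ]
    field_simp
  rcases le_or_gt 1 κ with h1 | h1
  · set I := ⌊κ⌋₊ with hI
    have hI1 : (I : ℝ) ≤ κ := Nat.floor_le hκ0.le
    have hI2 : 1 ≤ I := (Nat.one_le_floor_iff κ).2 h1
    have hI3 : κ < I + 1 := Nat.lt_floor_add_one κ
    have hI4 : κ ≤ 2 * I := by
      have : (1 : ℝ) ≤ I := by exact_mod_cast hI2
      linarith
    have h2 := h I
    have h3 : (I : ℝ) * (s * b) ≤ 1 / 4 := by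
      rw [← hκ1]
      exact mul_le_mul_of_nonneg_right hI1 hsb.le
    have h4 : (I : ℝ) ^ 2 * s * b * (2 * a) ≤ I * a / 2 := by
      have h5 : (0 : ℝ) ≤ I * a := by positivity
      calc (I : ℝ) ^ 2 * s * b * (2 * a) = (I * (s * b)) * (2 * (I * a)) := by ring
        _ ≤ 1 / 4 * (2 * (I * a)) := mul_le_mul_of_nonneg_right h3 (by positivity)
        _ = _ := by ring
    have h5 : κ * a ≤ 4 * d := by
      have h6 : κ * a ≤ 2 * I * a := mul_le_mul_of_nonneg_right hI4 ha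
      nlinarith
    calc a = 4 * (s * b) * (κ * a) := by
          have : 4 * (s * b) * (κ * a) = 4 * (κ * (s * b)) * a := by ring
          rw [this, hκ1]
          ring
      _ ≤ 4 * (s * b) * (4 * d) := mul_le_mul_of_nonneg_left h5 (by positivity)
      _ = 16 * b * s * d := by ring
  · have h2 : 1 / 4 < s * b := by
      rw [← hκ1]
      nlinarith
    have h3 : d ≤ 16 * b * s * d := by nlinarith
    exact had.trans h3

variable {k : Type u} [Field k] {𝒱 : VarClass k} {ops : CycleOps 𝒱}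
  {W : WeilCohomology.{u, v} ops} {X Y Z P Q U : 𝒱.Obj}

lemma a_le_C (S : Sys W) (Z : 𝒱.Obj) : S.a Z ≤ finrank W.K (S.C Z) := by
  have := S.a_add_num Z
  omega

lemma a_le_H (S : Sys W) (Z : 𝒱.Obj) : S.a Z ≤ finrank W.K (W.H Z) := by
  have h := S.rk_F_le (Z := Z) 1
  rw [Sys.rank_one] at h
  exact h

/-- **The main inequality.** -/
theorem master (S : Sys W) (hpos : ∀ l, 0 < S.al X l)
    (hB : ∀ c : ℝ, 0 ≤ c → c < (finrank W.K (W.H X) : ℝ) ^ 2 →
      ∃ l₀, ∀ l ≥ l₀, c * S.al X l ≤ S.al X (l + 1))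
    (hX : 0 < finrank W.K (W.H X)) {q : ℕ} {z : W.H (pw X q)} (hz : z ∈ S.Num (pw X q))
    (hz0 : z ≠ 0) {l₁ : W.H (pw X q)} (hl1 : W.tr (pw X q) l₁ = 1)
    (m : ℕ) {l : ℕ} (hl : 1 ≤ l)
    (hj : (l + 2) ^ (finrank W.K (W.H X) ^ 2 * ((q + 1) * (m + 1))) ≤ 2 ^ l) (Y Z : 𝒱.Obj)
    (hY : 0 < S.a Y) :
    (S.a ((pw ((pw X q).prod (pw X q)) m).prod (Y.prod (sq X Z l))) : ℝ) ≤
      16 * finrank W.K (W.H Y) *
        √(finrank W.K (W.H X) ^ (2 * (q + 1)) / (2 * (m + 2))) *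
          finrank W.K (S.C ((pw ((pw X q).prod (pw X q)) m).prod (Y.prod (sq X Z l)))) := by
  set b := finrank W.K (W.H X) with hb
  set U := (pw X q).prod (pw X q) with hU
  set P := pw U m with hP
  set A := P.prod (Y.prod (sq X Z l)) with hA
  have hβ : finrank W.K (W.H U) = b ^ (2 * (q + 1)) := by
    rw [hU, Pool.Agent.Y133.Half.finrank_prod, finrank_pw, ← pow_add]
    congr 1
    ring
  set β := b ^ (2 * (q + 1)) with hβ'
  have hβ0 : 0 < β := Nat.pow_pos hX
  -- the class on `U`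
  have h1q : (1 : W.H (pw X q)) ≠ 0 := one_ne_zero_of hz0
  set zU : W.H U := xp W z 1 with hzU
  have hzUn : zU ∈ S.Num U := Sys.Num.mul (Sys.Num.map _ hz) (S.map _ (S.one _))
  have hzU0 : zU ≠ 0 := fun h => hz0 (xp_eq_zero_right h1q h)
  have htrz : W.tr U zU = 0 := by
    have h := hzUn.2 1 (S.one U)
    rwa [mul_one] at h
  have htrl : W.tr U (xp W l₁ l₁) = 1 := by
    rw [tr_xp, hl1, mul_one]
  set u : Module.End W.K (W.H P) := lft W ((W.tr U).smulRight zU) m with hu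
  have huN : u ∈ S.NOp P P := lft_mem S (smulRight_mem S hzUn) m
  set s : ℝ := √((β : ℝ) / (2 * (m + 2))) with hs
  have hs0 : 0 < s := Real.sqrt_pos.2 (by positivity)
  have hs2 : s ^ 2 = (β : ℝ) / (2 * (m + 2)) := Real.sq_sqrt (by positivity)
  have hker : ∀ i : ℕ, (finrank W.K (LinearMap.ker (u ^ i)) : ℝ) ≤
      (2 * (i : ℝ) + 1) * (s * (β : ℝ) ^ (m + 1)) := by
    intro i
    have h1 := ker_lft (W.tr U) (xp W l₁ l₁) zU htrl htrz hzU0 m i
    rw [hβ] at h1
    have h2 : (finrank W.K (LinearMap.ker (u ^ i)) : ℝ) ^ 2 * (2 * (m + 2)) ≤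
        (2 * (i : ℝ) + 1) ^ 2 * (β : ℝ) ^ (2 * (m + 1) + 1) := by exact_mod_cast h1
    have h3 : (finrank W.K (LinearMap.ker (u ^ i)) : ℝ) ^ 2 ≤
        ((2 * (i : ℝ) + 1) * (s * (β : ℝ) ^ (m + 1))) ^ 2 := by
      have h4 : ((2 * (i : ℝ) + 1) * (s * (β : ℝ) ^ (m + 1))) ^ 2 =
          ((2 * (i : ℝ) + 1) ^ 2 * (β : ℝ) ^ (2 * (m + 1) + 1)) / (2 * (m + 2)) := by
        rw [mul_pow, mul_pow, hs2, ← pow_mul]
        ring
      rw [h4, le_div_iff₀ (by positivity)]
      exact h2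
    exact (pow_le_pow_iff_left₀ (by positivity) (by positivity) two_ne_zero).1 h3
  have hsum : ∀ I : ℕ, ((∑ n ∈ Finset.range I, finrank W.K (LinearMap.ker (u ^ n)) : ℕ) : ℝ) ≤
      (I : ℝ) ^ 2 * (s * (β : ℝ) ^ (m + 1)) := by
    intro I
    rw [Nat.cast_sum, ← sum_odd, Finset.sum_mul]
    exact Finset.sum_le_sum fun i _ => hker i
  -- flatness
  have hclP : cl P = pwc (cl X) ((q + q + 1) * m + (q + q + 1) + m) := by
    rw [hP, cl_pw, hU, cl_prod, cl_pw, pwc_add, pwc_pwc]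
  have hcl : cl (P.prod (sq X Z l)) = cl (sq X Z (l + (q + 1) * (m + 1))) := by
    rw [cl_prod, hclP]
    apply cl_pw_sq
    ring
  have hflat : (β : ℝ) ^ (m + 1) * S.a (sq X Z l) ≤ 2 * S.a (P.prod (sq X Z l)) := by
    have h1 := sq_flat S hpos hB hX Z hl hj
    rw [← a_cl S hcl] at h1
    have h2 : (b ^ 2) ^ ((q + 1) * (m + 1)) = β ^ (m + 1) := by
      rw [hβ', ← pow_mul, ← pow_mul]
      congr 1
      ring
    rw [h2] at h1
    exact_mod_cast h1
  have hYA : S.a (P.prod (sq X Z l)) ≤ S.a A := by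
    have h1 := a_prod_ge S Y (P.prod (sq X Z l))
    have h2 : S.a (Y.prod (P.prod (sq X Z l))) = S.a A := by
      apply a_cl
      rw [hA]
      simp only [cl_prod]
      ac_rfl
    rw [h2] at h1
    exact le_trans (Nat.le_mul_of_pos_left _ hY) h1
  have hYA' : (S.a (P.prod (sq X Z l)) : ℝ) ≤ S.a A := by exact_mod_cast hYA
  -- the count
  have hb1 : (1 : ℝ) ≤ finrank W.K (W.H Y) := by
    have := a_le_H S Y
    exact_mod_cast (by omega : 1 ≤ finrank W.K (W.H Y))
  have hfin := choose_steps (a := S.a A) (d := finrank W.K (S.C A)) (s := s)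
    (b := finrank W.K (W.H Y)) (Nat.cast_nonneg _) hs0 hb1 (by exact_mod_cast a_le_C S A) (by
      intro I
      have h1 := count_le S P Y (Z.prod (pw X l)) huN I
      change I * S.a A ≤ finrank W.K (S.C A) +
        (∑ n ∈ Finset.range I, finrank W.K (LinearMap.ker (u ^ n))) * finrank W.K (W.H Y) *
          S.a (sq X Z l) at h1
      have h2 : (I : ℝ) * S.a A ≤ finrank W.K (S.C A) +
        ((∑ n ∈ Finset.range I, finrank W.K (LinearMap.ker (u ^ n)) : ℕ) : ℝ) *
          finrank W.K (W.H Y) * S.a (sq X Z l) := by exact_mod_cast h1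
      refine h2.trans (add_le_add_right ?_ _)
      have hYn : (0 : ℝ) ≤ finrank W.K (W.H Y) := Nat.cast_nonneg _
      calc ((∑ n ∈ Finset.range I, finrank W.K (LinearMap.ker (u ^ n)) : ℕ) : ℝ) *
          finrank W.K (W.H Y) * S.a (sq X Z l) ≤
          ((I : ℝ) ^ 2 * (s * (β : ℝ) ^ (m + 1))) * finrank W.K (W.H Y) * S.a (sq X Z l) := by
            refine mul_le_mul_of_nonneg_right ?_ (Nat.cast_nonneg _)
            exact mul_le_mul_of_nonneg_right (hsum I) hYn
        _ = ((I : ℝ) ^ 2 * s * finrank W.K (W.H Y)) * ((β : ℝ) ^ (m + 1) * S.a (sq X Z l)) := by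
            ring
        _ ≤ ((I : ℝ) ^ 2 * s * finrank W.K (W.H Y)) * (2 * S.a A) := by
            refine mul_le_mul_of_nonneg_left (hflat.trans ?_) (by positivity)
            linarith
        _ = _ := by ring)
  have hcast : (b : ℝ) ^ (2 * (q + 1)) = (β : ℝ) := by
    rw [hβ']
    push_cast
    rfl
  rw [hcast, ← hs]
  exact hfin

end Pool.Agent.E8helper24.INF
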