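import Pool.Agent.E8helper24.INF.Rk

/-!
# Isomorphism classes of objects
-/

open CategoryTheory AlgebraicGeometry

universe u v

set_option linter.unusedSectionVars false

namespace Pool.Agent.E8helper24.INF

open Module
open Pool.Agent.H914 Pool.Agent.H914.VarClass Pool.Agent.H914.VarClass.Obj
  Pool.Agent.H914.WeilCohomology Pool.Agent.Y133.Half

variable {k : Type u} [Field k] {𝒱 : VarClass k}

/-- The relation of isomorphism. -/
def isoSetoid (𝒱 : VarClass k) : Setoid 𝒱.Obj where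
  r X Y := Nonempty (X ≅ Y)
  iseqv := ⟨fun _ => ⟨Iso.refl _⟩, fun ⟨e⟩ => ⟨e.symm⟩, fun ⟨e⟩ ⟨f⟩ => ⟨e ≪≫ f⟩⟩

/-- The isomorphism classes. -/
def Cls (𝒱 : VarClass k) : Type _ := Quotient (isoSetoid 𝒱)

/-- The isomorphism class of an object. -/
def cl (X : 𝒱.Obj) : Cls 𝒱 := Quotient.mk (isoSetoid 𝒱) X

lemma iso_of_cl {X Y : 𝒱.Obj} (h : cl X = cl Y) : Nonempty (X ≅ Y) := Quotient.exact h

noncomputable instance : Mul (Cls 𝒱) where
  mul := Quotient.map₂ (fun X Y => X.prod Y) (fun _ _ ⟨e⟩ _ _ ⟨f⟩ => ⟨prodCongr e f⟩)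

lemma cl_prod (X Y : 𝒱.Obj) : cl (X.prod Y) = cl X * cl Y := rfl

noncomputable instance : CommSemigroup (Cls 𝒱) where
  mul_assoc a b c := by
    induction a using Quotient.inductionOn
    induction b using Quotient.inductionOn
    induction c using Quotient.inductionOn
    rename_i X Y Z
    exact Quotient.sound (s := isoSetoid 𝒱) (a := (X.prod Y).prod Z) (b := X.prod (Y.prod Z))
      ⟨θ₃ X Y Z⟩
  mul_comm a b := by
    induction a using Quotient.inductionOn
    induction b using Quotient.inductionOn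
    rename_i X Y
    exact Quotient.sound (s := isoSetoid 𝒱) (a := X.prod Y) (b := Y.prod X) ⟨prodComm X Y⟩

/-- The powers of a class. -/
noncomputable def pwc (c : Cls 𝒱) : ℕ → Cls 𝒱
  | 0 => c
  | n + 1 => pwc c n * c

lemma cl_pw (X : 𝒱.Obj) (n : ℕ) : cl (pw X n) = pwc (cl X) n := by
  induction n with
  | zero => rfl
  | succ n ih => rw [pw, cl_prod, ih]; rfl

lemma pwc_add (c : Cls 𝒱) (m n : ℕ) : pwc c m * pwc c n = pwc c (m + n + 1) := by
  induction n with
  | zero => rfl
  | succ n ih =>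
    rw [show m + (n + 1) + 1 = (m + n + 1) + 1 by ring]
    change pwc c m * (pwc c n * c) = pwc c (m + n + 1) * c
    rw [← mul_assoc, ih]

lemma pwc_pwc (c : Cls 𝒱) (q m : ℕ) : pwc (pwc c q) m = pwc c (q * m + q + m) := by
  induction m with
  | zero => simp [pwc]
  | succ m ih =>
    change pwc (pwc c q) m * pwc c q = _
    rw [ih, pwc_add]
    congr 1
    ring

end Pool.Agent.E8helper24.INF
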