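import Pool.Agent.Y133.Half.Main2

/-!
# Ranks of intersection forms on products
-/

open CategoryTheory AlgebraicGeometry

universe u v

set_option linter.unusedSectionVars false

namespace Pool.Agent.E8helper24.INF

open Module
open Pool.Agent.H914 Pool.Agent.H914.VarClass Pool.Agent.H914.VarClass.Obj
  Pool.Agent.H914.WeilCohomology Pool.Agent.Y133.Half

section rk

variable {K A B : Type*} [Field K] [AddCommGroup A] [Module K A] [AddCommGroup B] [Module K B]
  [FiniteDimensional K A] [FiniteDimensional K B]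

/-- Dual families for a bilinear form. -/
lemma exists_dual_fam (β : A →ₗ[K] B →ₗ[K] K) : ∃ (x : Fin (rk β) → A) (y : Fin (rk β) → B),
    ∀ i j, β (x i) (y j) = if i = j then 1 else 0 := by
  have hdim : finrank K (A ⧸ LinearMap.ker β) = rk β :=
    (β.quotKerEquivRange).finrank_eq
  let r : Basis (Fin (rk β)) K (A ⧸ LinearMap.ker β) := finBasisOfFinrankEq K _ hdim
  let β' : (A ⧸ LinearMap.ker β) →ₗ[K] Module.Dual K B := (LinearMap.ker β).liftQ β le_rfl
  have hβ' : Function.Injective β' := by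
    rw [← LinearMap.ker_eq_bot]
    exact Submodule.ker_liftQ_eq_bot _ _ _ le_rfl
  have hx : ∀ i, ∃ a, (LinearMap.ker β).mkQ a = r i := fun i => Submodule.mkQ_surjective _ _
  choose x hx using hx
  have hy : ∀ j, ∃ b : B, ∀ φ, β' φ b = r.coord j φ := by
    intro j
    obtain ⟨ψ, hψ⟩ := LinearMap.dualMap_surjective_of_injective hβ' (r.coord j)
    obtain ⟨b, hb⟩ := (Module.evalEquiv K B).surjective ψ
    refine ⟨b, fun φ => ?_⟩
    rw [← hψ, ← hb]
    rfl
  choose y hy using hy
  refine ⟨x, y, fun i j => ?_⟩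
  have h1 : β (x i) = β' (r i) := by rw [← hx]; rfl
  rw [h1, hy, Basis.coord_apply, Basis.repr_self, Finsupp.single_apply]

lemma rk_ge_of_fam (β : A →ₗ[K] B →ₗ[K] K) {ι : Type} [Fintype ι] [DecidableEq ι] (x : ι → A)
    (y : ι → B) (h : ∀ i j, β (x i) (y j) = if i = j then 1 else 0) :
    Fintype.card ι ≤ rk β := by
  have h1 : LinearIndependent K fun i => (β (x i) : Module.Dual K B) := by
    rw [Fintype.linearIndependent_iff]
    intro g hg i
    have h2 := congrArg (fun φ : Module.Dual K B => φ (y i)) hg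
    simp only [LinearMap.sum_apply, LinearMap.smul_apply, h, LinearMap.zero_apply, smul_eq_mul,
      mul_ite, mul_one, mul_zero] at h2
    rw [Finset.sum_ite_eq' Finset.univ i g] at h2
    simpa using h2
  have h2 := finrank_span_eq_card h1
  rw [← h2]
  refine Submodule.finrank_mono ?_
  rw [Submodule.span_le]
  rintro _ ⟨i, rfl⟩
  exact ⟨x i, rfl⟩

end rk

variable {k : Type u} [Field k] {𝒱 : VarClass k} {ops : CycleOps 𝒱}
  {W : WeilCohomology.{u, v} ops} {X Y Z P Q U : 𝒱.Obj}

/-- The rank of the intersection form is supermultiplicative. -/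
lemma a_prod_ge (S : Sys W) (Y Z : 𝒱.Obj) : S.a Y * S.a Z ≤ S.a (Y.prod Z) := by
  obtain ⟨x, y, h⟩ := exists_dual_fam (S.F Y 1)
  obtain ⟨x', y', h'⟩ := exists_dual_fam (S.F Z 1)
  have key := rk_ge_of_fam (S.F (Y.prod Z) 1)
    (fun p : Fin (rk (S.F Y 1)) × Fin (rk (S.F Z 1)) =>
      (⟨xp W (x p.1 : W.H Y) (x' p.2 : W.H Z), Sys.xp_mem_C S (x p.1).2 (x' p.2).2⟩ :
        S.C (Y.prod Z)))
    (fun p : Fin (rk (S.F Y 1)) × Fin (rk (S.F Z 1)) =>
      (⟨xp W (y p.1 : W.H Y) (y' p.2 : W.H Z), Sys.xp_mem_C S (y p.1).2 (y' p.2).2⟩ :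
        S.C (Y.prod Z))) (by
      rintro ⟨i, j⟩ ⟨i', j'⟩
      rw [Sys.F_apply]
      change W.tr _ (xp W (x i : W.H Y) (x' j : W.H Z) * xp W (y i' : W.H Y) (y' j' : W.H Z)) = _
      rw [xp_mul _ _ _ _ (S.even (x' j).2) (S.even (y i').2), mul_zero, pow_zero, one_smul, tr_xp]
      have h1 : W.tr Y ((x i : W.H Y) * (y i' : W.H Y)) = if i = i' then 1 else 0 := h i i'
      have h2 : W.tr Z ((x' j : W.H Z) * (y' j' : W.H Z)) = if j = j' then 1 else 0 := h' j j'
      rw [h1, h2]
      by_cases e1 : i = i'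
      · by_cases e2 : j = j'
        · simp [e1, e2]
        · simp [e2]
      · simp [e1])
  rw [Fintype.card_prod, Fintype.card_fin, Fintype.card_fin] at key
  exact key

/-- The number of classes is supermultiplicative. -/
lemma finrank_C_prod_ge (S : Sys W) (Y Z : 𝒱.Obj) :
    finrank W.K (S.C Y) * finrank W.K (S.C Z) ≤ finrank W.K (S.C (Y.prod Z)) := by
  let f : TensorProduct W.K (S.C Y) (S.C Z) →ₗ[W.K] W.H (Y.prod Z) :=
    (kappa W Y Z).toLinearMap ∘ₗ TensorProduct.map (S.C Y).subtype (S.C Z).subtype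
  have hf : Function.Injective f := by
    refine (kappa W Y Z).injective.comp ?_
    exact TensorProduct.map_injective_of_flat_flat _ _ (Submodule.subtype_injective _)
      (Submodule.subtype_injective _)
  have hr : LinearMap.range f ≤ S.C (Y.prod Z) := by
    rintro _ ⟨t, rfl⟩
    induction t using TensorProduct.induction_on with
    | zero => rw [map_zero]; exact Submodule.zero_mem _
    | tmul a b =>
      change kappa W Y Z (TensorProduct.tmul W.K (a : W.H Y) (b : W.H Z)) ∈ _
      rw [kappa_tmul]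
      exact Sys.xp_mem_C S a.2 b.2
    | add s t hs ht => rw [map_add]; exact Submodule.add_mem _ hs ht
  have h1 := LinearMap.finrank_range_of_inj hf
  rw [Module.finrank_tensorProduct] at h1
  rw [← h1]
  exact Submodule.finrank_mono hr

lemma tr_eq_zero_of_a (S : Sys W) (h : S.a Y = 0) {c : W.H Y} (hc : c ∈ S.C Y) :
    W.tr Y c = 0 := by
  have h1 : LinearMap.range (S.F Y 1) = ⊥ := Submodule.finrank_eq_zero.1 h
  have h2 : S.F Y 1 = 0 := LinearMap.range_eq_bot.1 h1
  have h3 : S.F Y 1 ⟨1, S.one Y⟩ ⟨c, hc⟩ = 0 := by rw [h2]; rfl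
  rw [Sys.F_apply] at h3
  change W.tr Y (1 * c) = 0 at h3
  rwa [one_mul] at h3

lemma a_eq_zero_of_tr (S : Sys W) (h : ∀ c ∈ S.C Y, W.tr Y c = 0) : S.a Y = 0 := by
  have h3 : S.F Y 1 = 0 := by
    apply LinearMap.ext
    intro c
    apply LinearMap.ext
    intro d
    exact h _ (S.mul c.2 d.2)
  rw [Sys.a, h3, rk]
  simp

/-- If the intersection form vanishes on a factor, it vanishes on the product. -/
lemma a_prod_eq_zero (S : Sys W) (h : S.a Y = 0) (f : X ⟶ Y) : S.a X = 0 := by
  apply a_eq_zero_of_tr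
  intro c hc
  have h2 := W.tr_push f c 1
  rw [mul_one, map_one, mul_one] at h2
  rw [← h2]
  exact tr_eq_zero_of_a S h (S.push _ hc)

end Pool.Agent.E8helper24.INF
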