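import Mathlib
import Pool.Agent.H914R2.Sl2

/-!
# The kernels of the powers of the lowering operator
-/

set_option linter.unusedSectionVars false

namespace Pool.Agent.E8helper24.INF

open Module Pool.Agent.H914

section

variable {K V : Type*} [Field K] [CharZero K] [AddCommGroup V] [Module K V]
  {h e f : Module.End K V} (t : Sl2 h e f)

include t

omit [CharZero K] in
lemma h_e_apply {x : V} {μ : K} (hx : h x = μ • x) : h (e x) = (μ + 2) • e x := by
  have h1 := congrArg (fun T : Module.End K V => T x) t.he
  simp only [LinearMap.sub_apply, Module.End.mul_apply] at h1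
  rw [hx, map_smul] at h1
  have h2 : (2 : Module.End K V) (e x) = (2 : K) • e x := by
    rw [← one_add_one_eq_two, LinearMap.add_apply, Module.End.one_apply, two_smul]
  rw [h2, sub_eq_iff_eq_add] at h1
  rw [h1, add_smul, add_comm]

omit [CharZero K] in
lemma h_f_apply {x : V} {μ : K} (hx : h x = μ • x) : h (f x) = (μ - 2) • f x := by
  have h1 := congrArg (fun T : Module.End K V => T x) t.hf
  simp only [LinearMap.sub_apply, Module.End.mul_apply, LinearMap.neg_apply] at h1
  rw [hx, map_smul] at h1
  have h2 : (2 : Module.End K V) (f x) = (2 : K) • f x := by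
    rw [← one_add_one_eq_two, LinearMap.add_apply, Module.End.one_apply, two_smul]
  rw [h2, sub_eq_iff_eq_add] at h1
  rw [h1, sub_smul]
  abel

omit [CharZero K] in
lemma h_f_pow {x : V} {μ : K} (hx : h x = μ • x) (n : ℕ) :
    h ((f ^ n) x) = (μ - 2 * n) • (f ^ n) x := by
  induction n with
  | zero => simp [hx]
  | succ n ih =>
    rw [pow_succ', Module.End.mul_apply, h_f_apply t ih]
    congr 1
    push_cast
    ring

omit [CharZero K] in
/-- `e f ^ (n + 1) = f ^ (n + 1) e + (n + 1) (μ - n) f ^ n` on vectors of weight `μ`. -/
lemma e_f_pow {x : V} {μ : K} (hx : h x = μ • x) (n : ℕ) :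
    e ((f ^ (n + 1)) x) = (f ^ (n + 1)) (e x) + ((n + 1 : K) * (μ - n)) • (f ^ n) x := by
  have hcomm : ∀ y, e (f y) = f (e y) + h y := by
    intro y
    have h1 := congrArg (fun T : Module.End K V => T y) t.ef
    simp only [LinearMap.sub_apply, Module.End.mul_apply] at h1
    rw [← h1]
    abel
  induction n with
  | zero =>
    rw [zero_add, pow_one, pow_zero, hcomm, hx]
    simp
  | succ n ih =>
    have h1 : (f ^ (n + 1 + 1)) x = f ((f ^ (n + 1)) x) := by
      rw [pow_succ' f (n + 1), Module.End.mul_apply]
    have h2 : (f ^ (n + 1 + 1)) (e x) = f ((f ^ (n + 1)) (e x)) := by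
      rw [pow_succ' f (n + 1), Module.End.mul_apply]
    have h3 : f ((f ^ n) x) = (f ^ (n + 1)) x := by
      rw [pow_succ' f n, Module.End.mul_apply]
    rw [h1, hcomm, ih, map_add, map_smul, h_f_pow t hx, h2, h3, add_assoc, ← add_smul]
    congr 2
    push_cast
    ring

/-- A vector of weight `s` killed by `f ^ i`, `i ≤ s`, is zero. -/
theorem eq_zero_of_f_pow (k : ℕ) : ∀ (s i : ℕ) (x : V), (e ^ k) x = 0 → h x = (s : K) • x →
    i ≤ s → (f ^ i) x = 0 → x = 0 := by
  induction k with
  | zero => intro s i x hx _ _ _; simpa using hx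
  | succ k ih =>
    intro s i x hx hs his hfi
    have hex : e x = 0 := by
      apply ih (s + 2) (i + 1) (e x)
      · rw [← Module.End.mul_apply, ← pow_succ]; exact hx
      · rw [h_e_apply t hs]
        push_cast
        rfl
      · omega
      · have h1 := e_f_pow t hs i
        have h2 : (f ^ (i + 1)) x = 0 := by
          rw [pow_succ', Module.End.mul_apply, hfi, map_zero]
        rw [h2, hfi, map_zero, smul_zero, add_zero] at h1
        exact h1.symm
    -- a highest weight vector
    have key : ∀ j ≤ s, (f ^ j) x = 0 → x = 0 := by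
      intro j
      induction j with
      | zero => intro _ h0; simpa using h0
      | succ j ihj =>
        intro hj h0
        apply ihj (by omega)
        have h1 := e_f_pow t hs j
        rw [h0, hex, map_zero, map_zero, zero_add] at h1
        have h2 : ((j + 1 : K) * ((s : K) - j)) ≠ 0 := by
          apply mul_ne_zero
          · exact_mod_cast Nat.succ_ne_zero j
          · rw [sub_ne_zero]
            intro h3
            have : s = j := by exact_mod_cast h3
            omega
        exact (smul_eq_zero.1 h1.symm).resolve_left h2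
    exact key i his hfi

end

section Basis

variable {K V : Type*} [Field K] [CharZero K] [AddCommGroup V] [Module K V]
  {h e f : Module.End K V} {J : Type*} [Fintype J] [DecidableEq J] (b : Basis J K V) (wt : J → ℤ)

/-- The projection to the vectors of weight `s`. -/
noncomputable def proj (s : ℤ) : Module.End K V :=
  b.constr K fun j => if wt j = s then b j else 0

lemma proj_basis (s : ℤ) (j : J) : proj b wt s (b j) = if wt j = s then b j else 0 :=
  b.constr_basis K _ j

lemma repr_proj (s : ℤ) (x : V) (j : J) :
    b.repr (proj b wt s x) j = if wt j = s then b.repr x j else 0 := by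
  have h1 : ∀ x, (b.coord j ∘ₗ proj b wt s) x = (if wt j = s then b.coord j else 0) x := by
    intro x
    congr 1
    apply b.ext
    intro i
    rw [LinearMap.comp_apply, proj_basis]
    by_cases h : i = j
    · subst h
      split_ifs <;> simp
    · split_ifs <;> simp [Basis.coord_apply, Finsupp.single_apply, h]
  have h2 := h1 x
  rw [LinearMap.comp_apply, Basis.coord_apply] at h2
  rw [h2]
  split_ifs <;> simp [Basis.coord_apply]

variable {b wt}

lemma h_proj (hb : ∀ j, h (b j) = (wt j : K) • b j) (s : ℤ) (x : V) :
    h (proj b wt s x) = (s : K) • proj b wt s x := by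
  have h1 : h ∘ₗ proj b wt s = (s : K) • proj b wt s := by
    apply b.ext
    intro j
    rw [LinearMap.comp_apply, LinearMap.smul_apply, proj_basis]
    split_ifs with hj
    · rw [hb, hj]
    · simp
  exact congrArg (fun T : Module.End K V => T x) h1

/-- Vectors of weight `s` have coordinates in weight `s` only. -/
lemma coord_zero (hb : ∀ j, h (b j) = (wt j : K) • b j) {s : ℤ} {x : V}
    (hx : h x = (s : K) • x) {j : J} (hj : wt j ≠ s) : b.repr x j = 0 := by
  have h1 : ∀ x, b.repr (h x) j = (wt j : K) * b.repr x j := by
    intro x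
    have h2 : b.coord j ∘ₗ h = (wt j : K) • b.coord j := by
      apply b.ext
      intro i
      rw [LinearMap.comp_apply, hb, map_smul, LinearMap.smul_apply]
      by_cases hij : i = j
      · subst hij; rfl
      · have h2 : b.coord j (b i) = 0 := by
          rw [Basis.coord_apply, b.repr_self, Finsupp.single_apply, if_neg hij]
        rw [h2, smul_zero, smul_zero]
    exact congrArg (fun T : V →ₗ[K] K => T x) h2
  have h2 := h1 x
  rw [hx, map_smul, Finsupp.smul_apply, smul_eq_mul] at h2
  have h3 : ((wt j : K) - s) * b.repr x j = 0 := by rw [sub_mul, h2, sub_self]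
  refine (mul_eq_zero.1 h3).resolve_left ?_
  intro h4
  apply hj
  have h5 : (wt j : K) = s := sub_eq_zero.1 h4
  exact_mod_cast h5

lemma proj_self (hb : ∀ j, h (b j) = (wt j : K) • b j) {s : ℤ} {x : V}
    (hx : h x = (s : K) • x) : proj b wt s x = x := by
  apply b.repr.injective
  ext j
  rw [repr_proj]
  split_ifs with hj
  · rfl
  · exact (coord_zero hb hx hj).symm

lemma proj_other (hb : ∀ j, h (b j) = (wt j : K) • b j) {s s' : ℤ} (hs : s ≠ s') {x : V}
    (hx : h x = (s : K) • x) : proj b wt s' x = 0 := by
  apply b.repr.injective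
  ext j
  rw [repr_proj]
  split_ifs with hj
  · rw [coord_zero hb hx (by rw [hj]; exact hs.symm)]
    simp
  · simp

lemma f_proj (t : Sl2 h e f) (hb : ∀ j, h (b j) = (wt j : K) • b j) (s : ℤ) (x : V) :
    f (proj b wt s x) = proj b wt (s - 2) (f x) := by
  have h1 : f ∘ₗ proj b wt s = proj b wt (s - 2) ∘ₗ f := by
    apply b.ext
    intro j
    rw [LinearMap.comp_apply, LinearMap.comp_apply, proj_basis]
    have h2 : h (f (b j)) = ((wt j - 2 : ℤ) : K) • f (b j) := by
      rw [h_f_apply t (hb j)]
      push_cast
      rfl
    split_ifs with hj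
    · rw [← hj, proj_self hb h2]
    · rw [map_zero, proj_other hb (fun h => hj (by omega)) h2]
  exact congrArg (fun T : Module.End K V => T x) h1

lemma f_pow_proj (t : Sl2 h e f) (hb : ∀ j, h (b j) = (wt j : K) • b j) (n : ℕ) (s : ℤ) (x : V) :
    (f ^ n) (proj b wt s x) = proj b wt (s - 2 * n) ((f ^ n) x) := by
  induction n with
  | zero => simp
  | succ n ih =>
    rw [pow_succ', Module.End.mul_apply, Module.End.mul_apply, ih, f_proj t hb]
    congr 2
    push_cast
    ring

end Basis

end Pool.Agent.E8helper24.INF
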