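import Pool.Agent.Y133.Half.Key

/-!
# Chains of stable subspaces with weights
-/

set_option linter.unusedSectionVars false

namespace Pool.Agent.E8helper24.INF

open Module Polynomial Pool.Agent.Y133.Half Pool.Agent.Y133.Half.Cat

variable {ι K : Type*} [Fintype ι] [DecidableEq ι] [Field K] {V : ι → Type*}
  [∀ i, AddCommGroup (V i)] [∀ i, Module K (V i)] [∀ i, FiniteDimensional K (V i)]
  (C : Cat K V)

/-- One step of a chain (`Cat.step` of the starting files, with a fixed vector in the conclusion). -/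
theorem step' (i : ι) {M' M : Submodule K (V i)} (hM' : C.Stable M') (hM : C.Stable M)
    (hlt : M' < M) : ∃ g ∈ C.S i i, g ∘ₗ g = g ∧ (∃ z ∈ M, g z = z ∧ z ∉ M') ∧ ∀ j,
      finrank K (C.gen i j M') + rk (C.B i j g LinearMap.id) ≤ finrank K (C.gen i j M) := by
  classical
  -- an idempotent of minimal rank which is not zero on `M / M'`
  let Q : ℕ → Prop := fun n => ∃ g ∈ C.S i i, g ∘ₗ g = g ∧ (∃ m ∈ M, g m ∉ M') ∧
    finrank K (LinearMap.range g) = n
  have hQ : ∃ n, Q n := by
    obtain ⟨m, hm, hm'⟩ := SetLike.exists_of_lt hlt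
    exact ⟨_, LinearMap.id, C.one i, rfl, ⟨m, hm, hm'⟩, rfl⟩
  obtain ⟨g, hg, hgg, ⟨m, hm, hgm⟩, hn⟩ := Nat.find_spec hQ
  have hmin : ∀ g' ∈ C.S i i, g' ∘ₗ g' = g' → finrank K (LinearMap.range g') <
      finrank K (LinearMap.range g) → ∀ m ∈ M, g' m ∈ M' := by
    intro g' hg' hgg' hlt' m hm
    by_contra h
    rw [hn] at hlt'
    exact Nat.find_min hQ hlt' ⟨g', hg', hgg', ⟨m, hm, h⟩, rfl⟩
  set z := g m with hz
  have hzM : z ∈ M := hM g hg m hm
  have hgz : g z = z := congrArg (fun f : V i →ₗ[K] V i => f m) hgg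
  refine ⟨g, hg, hgg, ⟨z, hzM, hgz, hgm⟩, fun j => ?_⟩
  -- the key property
  have key : ∀ x ∈ C.S i i, x z ∈ M' → LinearMap.trace K (V i) (C.p i ∘ₗ g ∘ₗ x) = 0 := by
    intro x hx hxz
    set y : Module.End K (V i) := g ∘ₗ x ∘ₗ g with hy
    have hyS : y ∈ C.S i i := C.mul hg (C.mul hx hg)
    have hgy : g ∘ₗ y = y := by rw [hy, ← LinearMap.comp_assoc, hgg]
    have hyg : y ∘ₗ g = y := by rw [hy, LinearMap.comp_assoc, LinearMap.comp_assoc, hgg]
    have hyz : y z ∈ M' := by
      rw [hy, LinearMap.comp_apply, LinearMap.comp_apply, hgz]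
      exact hM' g hg _ hxz
    obtain ⟨q, hq1, hq2⟩ := exists_fit y
    set u := aeval y q with hu
    have huS : u ∈ C.S i i := C.aeval_mem hyS q
    have hcomm : u * y = y * u := by
      have : Commute (aeval y q) (aeval y (X : K[X])) := by
        rw [Commute, SemiconjBy, ← map_mul, ← map_mul, mul_comm]
      rw [aeval_X] at this
      exact this
    set π := u * y with hπ
    have hπS : π ∈ C.S i i := C.mul huS hyS
    have hgπ : g * π = π := by
      rw [hcomm, ← mul_assoc]
      exact congrArg (fun f : Module.End K (V i) => f * u) hgy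
    have hπg : π * g = π := by
      rw [hπ, mul_assoc]
      exact congrArg (fun f : Module.End K (V i) => u * f) hyg
    have hπ0 : π = 0 := by
      by_contra hne
      have h1 : (g - π) ∘ₗ (g - π) = g - π := by
        change (g - π) * (g - π) = g - π
        rw [sub_mul, mul_sub, mul_sub, hgπ, hπg, hq1, sub_self, sub_zero]
        change g ∘ₗ g - π = _
        rw [hgg]
      have h2 : (g - π) ∈ C.S i i := Submodule.sub_mem _ hg hπS
      have h3 : finrank K (LinearMap.range (g - π)) < finrank K (LinearMap.range g) := by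
        have hle : LinearMap.range (g - π) ≤ LinearMap.range g := by
          rintro _ ⟨x, rfl⟩
          refine ⟨(g - π) x, ?_⟩
          have : g * (g - π) = g - π := by
            rw [mul_sub, hgπ]
            change g ∘ₗ g - π = _
            rw [hgg]
          exact congrArg (fun f : Module.End K (V i) => f x) this
        apply Submodule.finrank_lt_finrank_of_lt
        refine lt_of_le_of_ne hle ?_
        intro heq
        apply hne
        apply LinearMap.ext
        intro x
        have h4 : π x ∈ LinearMap.range g := ⟨π x, congrArg (fun f : Module.End K (V i) => f x) hgπ⟩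
        rw [← heq] at h4
        obtain ⟨w, hw⟩ := h4
        have h5 : π ((g - π) w) = 0 := by
          have : π * (g - π) = 0 := by rw [mul_sub, hπg, hq1, sub_self]
          exact congrArg (fun f : Module.End K (V i) => f w) this
        rw [hw] at h5
        have h6 : π (π x) = π x := congrArg (fun f : Module.End K (V i) => f x) hq1
        rw [LinearMap.zero_apply, ← h6, h5]
      have h4 : (g - π) z ∈ M' := hmin _ h2 h1 h3 z hzM
      have h5 : π z ∈ M' := by
        rw [hπ, Module.End.mul_apply]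
        exact hM' u huS _ hyz
      have h6 : z ∈ M' := by
        have : z = (g - π) z + π z := by rw [LinearMap.sub_apply, hgz, sub_add_cancel]
        rw [this]
        exact Submodule.add_mem _ h4 h5
      exact hgm h6
    have hnil : IsNilpotent y := hq2 hπ0
    have h7 := C.tr_nil hyS hnil
    rw [hy] at h7
    have h8 : C.p i ∘ₗ g = g ∘ₗ C.p i := C.comm hg
    calc LinearMap.trace K (V i) (C.p i ∘ₗ g ∘ₗ x)
        = LinearMap.trace K (V i) (C.p i ∘ₗ (g ∘ₗ g) ∘ₗ x) := by rw [hgg]
      _ = LinearMap.trace K (V i) (g ∘ₗ (C.p i ∘ₗ g ∘ₗ x)) := by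
          congr 1
          rw [LinearMap.comp_assoc, ← LinearMap.comp_assoc (g ∘ₗ x) g (C.p i), h8,
            LinearMap.comp_assoc]
      _ = LinearMap.trace K (V i) ((C.p i ∘ₗ g ∘ₗ x) ∘ₗ g) := LinearMap.trace_comp_comm' _ _
      _ = 0 := by rw [← h7]; rfl
  -- the map `v ↦ v z`
  let Λ : C.S j i →ₗ[K] (V j ⧸ C.gen i j M') :=
    { toFun := fun v => (C.gen i j M').mkQ ((v : V i →ₗ[K] V j) z)
      map_add' := fun a b => by rw [Submodule.coe_add, LinearMap.add_apply, map_add]
      map_smul' := fun c a => by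
        rw [Submodule.coe_smul, LinearMap.smul_apply, map_smul, RingHom.id_apply] }
  have hker : LinearMap.ker Λ ≤ LinearMap.ker (C.B i j g LinearMap.id).flip := by
    intro v hv
    rw [LinearMap.mem_ker] at hv ⊢
    have h1 : (v : V i →ₗ[K] V j) z ∈ C.gen i j M' := by
      have : (C.gen i j M').mkQ ((v : V i →ₗ[K] V j) z) = 0 := hv
      rwa [Submodule.mkQ_apply, Submodule.Quotient.mk_eq_zero] at this
    apply LinearMap.ext
    intro u
    rw [LinearMap.flip_apply, B_apply, LinearMap.id_comp, LinearMap.zero_apply]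
    exact key _ (C.mul u.2 v.2) (C.gen_apply hM' u.2 h1)
  have hr1 := LinearMap.finrank_range_add_finrank_ker Λ
  have hr2 := LinearMap.finrank_range_add_finrank_ker (C.B i j g LinearMap.id).flip
  have hr3 := Submodule.finrank_mono hker
  have hr4 : rk (C.B i j g LinearMap.id) ≤ finrank K (LinearMap.range Λ) := by
    rw [← rk_flip, rk]
    omega
  have hr5 : LinearMap.range Λ ≤ (C.gen i j M).map (C.gen i j M').mkQ := by
    rintro _ ⟨v, rfl⟩
    exact ⟨_, Submodule.subset_span ⟨v, v.2, z, hzM, rfl⟩, rfl⟩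
  have hr6 := Submodule.finrank_mono hr5
  have hle := C.gen_mono (j := j) hlt.le
  have hr7 : finrank K ((C.gen i j M).map (C.gen i j M').mkQ) + finrank K (C.gen i j M') =
      finrank K (C.gen i j M) := by
    have h1 := LinearMap.finrank_range_add_finrank_ker
      ((C.gen i j M').mkQ.domRestrict (C.gen i j M))
    rw [LinearMap.range_domRestrict] at h1
    rw [← h1]
    congr 1
    have h2 : LinearMap.ker ((C.gen i j M').mkQ.domRestrict (C.gen i j M)) =
        (C.gen i j M').submoduleOf (C.gen i j M) := by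
      ext x
      simp [Submodule.submoduleOf]
    rw [h2]
    exact (Submodule.submoduleOfEquivOfLe hle).finrank_eq.symm
  omega


/-- One step of a maximal chain. -/
lemma step_simple (i : ι) {M' M : Submodule K (V i)} (hM' : C.Stable M')
    (hsimple : ∀ M'' : Submodule K (V i), C.Stable M'' → M' < M'' → M'' ≤ M → M'' = M)
    (hM : C.Stable M) (hle : M' ≤ M)
    (hnil : ∀ x ∈ C.S i i, (∀ y ∈ C.S i i, LinearMap.trace K (V i) (C.p i ∘ₗ x ∘ₗ y) = 0) →
      IsNilpotent x) {g : Module.End K (V i)} (hg : g ∈ C.S i i) {z : V i} (hz : z ∈ M)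
    (hgz : g z = z) (hz' : z ∉ M') :
    finrank K M ≤ finrank K M' + rk (C.B i i g LinearMap.id) := by
  classical
  -- the map `v ↦ v z`
  let Λ : C.S i i →ₗ[K] (V i ⧸ M') :=
    { toFun := fun v => M'.mkQ ((v : V i →ₗ[K] V i) z)
      map_add' := fun a b => by rw [Submodule.coe_add, LinearMap.add_apply, map_add]
      map_smul' := fun c a => by
        rw [Submodule.coe_smul, LinearMap.smul_apply, map_smul, RingHom.id_apply] }
  -- the stable subspace generated by `M'` and a vector
  have hgen : ∀ y ∈ M, y ∉ M' → M ≤ M' ⊔ (C.S i i).map (LinearMap.applyₗ y) := by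
    intro y hy hy'
    have h1 : C.Stable (M' ⊔ (C.S i i).map (LinearMap.applyₗ y)) := by
      intro a ha m hm
      obtain ⟨m₁, hm₁, m₂, hm₂, rfl⟩ := Submodule.mem_sup.1 hm
      obtain ⟨v, hv, rfl⟩ := hm₂
      rw [map_add]
      refine Submodule.add_mem_sup (hM' a ha m₁ hm₁) ⟨a ∘ₗ v, C.mul ha hv, rfl⟩
    have h2 : y ∈ M' ⊔ (C.S i i).map (LinearMap.applyₗ y) :=
      Submodule.mem_sup_right ⟨LinearMap.id, C.one i, rfl⟩
    have h3 : M' < M' ⊔ (C.S i i).map (LinearMap.applyₗ y) := by
      refine lt_of_le_of_ne le_sup_left fun h => hy' ?_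
      rw [h]
      exact h2
    have h4 : M' ⊔ (C.S i i).map (LinearMap.applyₗ y) ≤ M := by
      refine sup_le hle ?_
      rintro _ ⟨v, hv, rfl⟩
      exact hM v hv y hy
    exact (hsimple _ h1 h3 h4).ge
  -- the kernel of the form is contained in the kernel of `Λ`
  have hker : LinearMap.ker (C.B i i g LinearMap.id).flip ≤ LinearMap.ker Λ := by
    intro v hv
    have hv1 : ∀ u ∈ C.S i i, LinearMap.trace K (V i) (C.p i ∘ₗ g ∘ₗ u ∘ₗ
        (v : V i →ₗ[K] V i)) = 0 := by
      intro u hu
      have h1 := congrArg (fun f : C.S i i →ₗ[K] K => f ⟨u, hu⟩) (LinearMap.mem_ker.1 hv)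
      simp only [LinearMap.flip_apply, LinearMap.zero_apply] at h1
      rw [C.B_apply] at h1
      exact h1
    set w : Module.End K (V i) := (v : V i →ₗ[K] V i) ∘ₗ g with hw
    have hwS : w ∈ C.S i i := C.mul v.2 hg
    have hwn : ∀ x ∈ C.S i i, IsNilpotent (x * w) := by
      intro x hx
      refine hnil _ (C.mul hx hwS) fun y hy => ?_
      -- `tr (p x v g y) = tr (p g y x v)`
      have h1 := hv1 (y ∘ₗ x) (C.mul hy hx)
      have hc1 : C.p i ∘ₗ (g ∘ₗ y) = (g ∘ₗ y) ∘ₗ C.p i := C.comm (C.mul hg hy)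
      calc LinearMap.trace K (V i) (C.p i ∘ₗ (x * w) ∘ₗ y) =
          LinearMap.trace K (V i) ((C.p i ∘ₗ x ∘ₗ (v : V i →ₗ[K] V i)) ∘ₗ (g ∘ₗ y)) := by
            rfl
        _ = LinearMap.trace K (V i) ((g ∘ₗ y) ∘ₗ (C.p i ∘ₗ x ∘ₗ (v : V i →ₗ[K] V i))) :=
            LinearMap.trace_comp_comm' _ _
        _ = LinearMap.trace K (V i) (((g ∘ₗ y) ∘ₗ C.p i) ∘ₗ x ∘ₗ (v : V i →ₗ[K] V i)) := rfl
        _ = LinearMap.trace K (V i) ((C.p i ∘ₗ (g ∘ₗ y)) ∘ₗ x ∘ₗ (v : V i →ₗ[K] V i)) := by
            rw [hc1]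
        _ = 0 := h1
    rw [LinearMap.mem_ker]
    change M'.mkQ ((v : V i →ₗ[K] V i) z) = 0
    rw [Submodule.mkQ_apply, Submodule.Quotient.mk_eq_zero]
    have hvz : (v : V i →ₗ[K] V i) z = w z := by
      rw [hw, LinearMap.comp_apply, hgz]
    rw [hvz]
    by_contra hwz
    have h2 := hgen (w z) (hM w hwS z hz) hwz hz
    obtain ⟨m₁, hm₁, m₂, ⟨x, hx, rfl⟩, he⟩ := Submodule.mem_sup.1 h2
    -- `z ≡ x w z` modulo `M'`
    have hxw : (x * w) ∈ C.S i i := C.mul hx hwS
    have h3 : z - (x * w) z ∈ M' := by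
      have : z - (x * w) z = m₁ := by
        rw [sub_eq_iff_eq_add]
        exact he.symm
      rw [this]
      exact hm₁
    obtain ⟨N, hN⟩ := hwn x hx
    have h4 : ∀ n : ℕ, z - ((x * w) ^ n) z ∈ M' := by
      intro n
      induction n with
      | zero => rw [pow_zero, Module.End.one_apply, sub_self]; exact Submodule.zero_mem _
      | succ n ih =>
        have h5 : (x * w) (z - ((x * w) ^ n) z) ∈ M' := hM' _ hxw _ ih
        have h6 : z - ((x * w) ^ (n + 1)) z = (z - (x * w) z) +
            (x * w) (z - ((x * w) ^ n) z) := by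
          rw [pow_succ', Module.End.mul_apply (x * w) ((x * w) ^ n), map_sub]
          abel
        rw [h6]
        exact Submodule.add_mem _ h3 h5
    have h5 := h4 N
    rw [hN, LinearMap.zero_apply, sub_zero] at h5
    exact hz' h5
  have hr1 := LinearMap.finrank_range_add_finrank_ker Λ
  have hr2 := LinearMap.finrank_range_add_finrank_ker (C.B i i g LinearMap.id).flip
  have hr3 := Submodule.finrank_mono hker
  have hr4 : finrank K (LinearMap.range Λ) ≤ rk (C.B i i g LinearMap.id) := by
    rw [← rk_flip, rk]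
    omega
  -- the range of `Λ` is `M / M'`
  have hr5 : finrank K M ≤ finrank K M' + finrank K (LinearMap.range Λ) := by
    have h1 : M.map M'.mkQ ≤ LinearMap.range Λ := by
      rintro _ ⟨y, hy, rfl⟩
      obtain ⟨m₁, hm₁, m₂, ⟨x, hx, rfl⟩, rfl⟩ := Submodule.mem_sup.1 (hgen z hz hz' hy)
      refine ⟨⟨x, hx⟩, ?_⟩
      have h2 : M'.mkQ m₁ = 0 := by
        rw [Submodule.mkQ_apply, Submodule.Quotient.mk_eq_zero]
        exact hm₁
      rw [map_add, h2, zero_add]
      rfl
    have h2 := LinearMap.finrank_range_add_finrank_ker (M'.mkQ.domRestrict M)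
    rw [LinearMap.range_domRestrict] at h2
    have h3 : finrank K (LinearMap.ker (M'.mkQ.domRestrict M)) ≤ finrank K M' := by
      have h4 : (LinearMap.ker (M'.mkQ.domRestrict M)).map M.subtype ≤ M' := by
        rintro _ ⟨⟨y, hy⟩, hy', rfl⟩
        rw [SetLike.mem_coe, LinearMap.mem_ker, LinearMap.domRestrict_apply,
          Submodule.mkQ_apply, Submodule.Quotient.mk_eq_zero] at hy'
        exact hy'
      refine le_trans (le_of_eq ?_) (Submodule.finrank_mono h4)
      exact (Submodule.equivMapOfInjective _ (Submodule.subtype_injective _) _).finrank_eq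
    have h4 := Submodule.finrank_mono h1
    omega
  omega

/-- **Chains with weights.** -/
theorem wchain (i : ι)
    (hnil : ∀ x ∈ C.S i i, (∀ y ∈ C.S i i, LinearMap.trace K (V i) (C.p i ∘ₗ x ∘ₗ y) = 0) →
      IsNilpotent x) (n : ℕ) : ∀ M : Submodule K (V i), C.Stable M → finrank K M = n →
    ∃ G : List (Module.End K (V i)), (∀ g ∈ G, g ∈ C.S i i ∧ g ∘ₗ g = g) ∧
      G.length ≤ n ∧ n ≤ (G.map fun g => rk (C.B i i g LinearMap.id)).sum ∧
      ∀ j, (G.map fun g => rk (C.B i j g LinearMap.id)).sum ≤ finrank K (C.gen i j M) := by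
  classical
  induction n using Nat.strong_induction_on with
  | _ n ih =>
    intro M hM hn
    rcases Nat.eq_zero_or_pos n with h0 | h0
    · subst h0
      exact ⟨[], by simp, by simp, by simp, by simp⟩
    -- a maximal proper stable subspace
    let Q : ℕ → Prop := fun d => ∃ M' : Submodule K (V i), C.Stable M' ∧ M' < M ∧ finrank K M' = d
    have hQ0 : Q 0 := by
      refine ⟨⊥, ?_, ?_, finrank_bot K _⟩
      · intro a _ m hm
        rw [(Submodule.mem_bot K).1 hm, map_zero]
        exact Submodule.zero_mem _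
      · rw [bot_lt_iff_ne_bot]
        rintro rfl
        rw [finrank_bot] at hn
        omega
    have hQb : ∀ d, Q d → d ≤ n := by
      rintro d ⟨M', -, hlt, rfl⟩
      rw [← hn]
      exact Submodule.finrank_mono hlt.le
    obtain ⟨M', hM', hlt, hd⟩ := Nat.findGreatest_spec (P := Q) (n := n) (Nat.zero_le n) hQ0
    have hmax : ∀ M'' : Submodule K (V i), C.Stable M'' → M' < M'' → M'' ≤ M → M'' = M := by
      intro M'' h1 h2 h3
      by_contra h4
      have h5 : Q (finrank K M'') := ⟨M'', h1, lt_of_le_of_ne h3 h4, rfl⟩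
      have h6 := Nat.le_findGreatest (hQb _ h5) h5
      have h7 := Submodule.finrank_lt_finrank_of_lt h2
      omega
    obtain ⟨g, hg, hgg, ⟨z, hz, hgz, hz'⟩, hj⟩ := step' C i hM' hM hlt
    have h1 := step_simple C i hM' hmax hM hlt.le hnil hg hz hgz hz'
    have h2 : finrank K M' < n := by
      rw [← hn]
      exact Submodule.finrank_lt_finrank_of_lt hlt
    obtain ⟨G, hG1, hG2, hG3, hG4⟩ := ih _ h2 M' hM' rfl
    refine ⟨g :: G, ?_, ?_, ?_, ?_⟩
    · intro g' hg'
      rcases List.mem_cons.1 hg' with rfl | h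
      · exact ⟨hg, hgg⟩
      · exact hG1 g' h
    · rw [List.length_cons]
      omega
    · rw [List.map_cons, List.sum_cons]
      omega
    · intro j
      rw [List.map_cons, List.sum_cons]
      have h3 := hj j
      have h4 := hG4 j
      omega

end Pool.Agent.E8helper24.INF
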