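import Pool.Agent.E8helper24.INF.Fin
import Pool.Agent.E8helper24.INF.Step

/-!
# The uniform index law for a pair of systems of classes
-/

open CategoryTheory AlgebraicGeometry

universe u v

set_option linter.unusedSectionVars false

namespace Pool.Agent.E8helper24.INF

open Module
open Pool.Agent.H914 Pool.Agent.H914.VarClass Pool.Agent.H914.VarClass.Obj
  Pool.Agent.H914.WeilCohomology Pool.Agent.Y133.Half

/-! ### Flatness with an error term -/

lemma flat' {N α : ℕ → ℕ} {B κ N₀ : ℕ} (hN₀ : 0 < N₀) (hB : 1 ≤ B) (hpos : ∀ l, 0 < N l)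
    (hconv : ∀ l, N (l + 1) ^ 2 ≤ N (l + 2) * N l) (h0 : N 0 ≤ B * N₀)
    (hα : ∀ l, N₀ * α l ≤ N l) (hlow : ∀ l, B ^ (l + 1) ≤ α l * (l + 2) ^ κ) {l : ℕ} (j : ℕ)
    (hl : 1 ≤ l) :
    (1 - κ * j * (Real.log ((l : ℝ) + 2) / l)) * ((B : ℝ) ^ j * N l) ≤ N (l + j) := by
  have hp : ∀ i, (0 : ℝ) < N i := fun i => by exact_mod_cast hpos i
  set r : ℝ := N (l + 1) / N l with hr
  have hr0 : 0 ≤ r := by positivity
  have hrl : r * N l ≤ N (l + 1) := by rw [hr, div_mul_cancel₀ _ (hp l).ne']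
  have h1 : ∀ i, i ≤ l → (N (i + 1) : ℝ) ≤ r * N i := by
    intro i hi
    have h2 : (N (i + 1) / N i : ℝ) * N i ≤ N (i + 1) := by rw [div_mul_cancel₀ _ (hp i).ne']
    have h3 := ratio_mono hpos hconv h2 hi
    have h4 : (N (i + 1) / N i : ℝ) ≤ r := by
      rw [hr, le_div_iff₀ (hp l)]
      exact h3
    calc (N (i + 1) : ℝ) = (N (i + 1) / N i : ℝ) * N i := by rw [div_mul_cancel₀ _ (hp i).ne']
      _ ≤ r * N i := mul_le_mul_of_nonneg_right h4 (hp i).le
  have h2 : ∀ i, i ≤ l → (N i : ℝ) ≤ r ^ i * N 0 := by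
    intro i
    induction i with
    | zero => intro _; simp
    | succ i ih =>
      intro hi
      calc (N (i + 1) : ℝ) ≤ r * N i := h1 i (by omega)
        _ ≤ r * (r ^ i * N 0) := mul_le_mul_of_nonneg_left (ih (by omega)) hr0
        _ = _ := by ring
  have h3 : r ^ j * N l ≤ N (l + j) :=
    ratio_pow hr0 (l₀ := l) (fun i hi => ratio_mono (n := i) hpos hconv hrl hi) j l le_rfl
  have hN₀' : (0 : ℝ) < N₀ := by exact_mod_cast hN₀
  have hB' : (0 : ℝ) < B := by exact_mod_cast hB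
  have h4 : (B : ℝ) ^ l ≤ r ^ l * ((l : ℝ) + 2) ^ κ := by
    have e1 : (B : ℝ) ^ (l + 1) ≤ α l * ((l : ℝ) + 2) ^ κ := by exact_mod_cast hlow l
    have e2 : (N₀ : ℝ) * α l ≤ N l := by exact_mod_cast hα l
    have e3 : (N 0 : ℝ) ≤ B * N₀ := by exact_mod_cast h0
    have e4 : (0 : ℝ) ≤ ((l : ℝ) + 2) ^ κ := by positivity
    have e5 : (N₀ * B : ℝ) * (B : ℝ) ^ l ≤ (N₀ * B : ℝ) * (r ^ l * ((l : ℝ) + 2) ^ κ) := by
      calc (N₀ * B : ℝ) * (B : ℝ) ^ l = N₀ * (B : ℝ) ^ (l + 1) := by ring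
        _ ≤ N₀ * (α l * ((l : ℝ) + 2) ^ κ) := mul_le_mul_of_nonneg_left e1 hN₀'.le
        _ = (N₀ * α l) * ((l : ℝ) + 2) ^ κ := by ring
        _ ≤ N l * ((l : ℝ) + 2) ^ κ := mul_le_mul_of_nonneg_right e2 e4
        _ ≤ (r ^ l * N 0) * ((l : ℝ) + 2) ^ κ :=
            mul_le_mul_of_nonneg_right (h2 l le_rfl) e4
        _ ≤ (r ^ l * (B * N₀)) * ((l : ℝ) + 2) ^ κ :=
            mul_le_mul_of_nonneg_right (mul_le_mul_of_nonneg_left e3 (by positivity)) e4
        _ = _ := by ring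
    exact le_of_mul_le_mul_left e5 (by positivity)
  have hl0 : (0 : ℝ) < l := by exact_mod_cast hl
  set L := Real.log ((l : ℝ) + 2) with hL
  -- `r ≥ B exp (- κ L / l)`
  have h5 : (B : ℝ) * Real.exp (-(κ * L / l)) ≤ r := by
    have e1 : ((B : ℝ) * Real.exp (-(κ * L / l))) ^ l ≤ r ^ l := by
      have e2 : Real.exp (-(κ * L / l)) ^ l = (((l : ℝ) + 2) ^ κ)⁻¹ := by
        rw [← Real.exp_nat_mul, ← Real.exp_log (show (0 : ℝ) < (((l : ℝ) + 2) ^ κ)⁻¹ by
          positivity), Real.log_inv, Real.log_pow, ← hL]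
        congr 1
        field_simp
      rw [mul_pow, e2, ← div_eq_mul_inv, div_le_iff₀ (by positivity)]
      exact h4
    exact (pow_le_pow_iff_left₀ (by positivity) hr0 (by omega)).1 e1
  have h6 : (B : ℝ) ^ j * (1 - κ * j * (L / l)) ≤ r ^ j := by
    have e1 : (1 : ℝ) - κ * j * (L / l) ≤ Real.exp (-(κ * L / l)) ^ j := by
      rw [← Real.exp_nat_mul]
      have := Real.add_one_le_exp ((j : ℝ) * (-(κ * L / l)))
      have e2 : (j : ℝ) * (-(κ * L / l)) + 1 = 1 - κ * j * (L / l) := by ring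
      rw [e2] at this
      exact this
    calc (B : ℝ) ^ j * (1 - κ * j * (L / l)) ≤ (B : ℝ) ^ j * Real.exp (-(κ * L / l)) ^ j :=
          mul_le_mul_of_nonneg_left e1 (by positivity)
      _ = ((B : ℝ) * Real.exp (-(κ * L / l))) ^ j := (mul_pow _ _ _).symm
      _ ≤ r ^ j := pow_le_pow_left₀ (by positivity) h5 j
  calc (1 - κ * j * (L / l)) * ((B : ℝ) ^ j * N l) =
      ((B : ℝ) ^ j * (1 - κ * j * (L / l))) * N l := by ring
    _ ≤ r ^ j * N l := mul_le_mul_of_nonneg_right h6 (hp l).le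
    _ ≤ N (l + j) := h3

variable {k : Type u} [Field k] {𝒱 : VarClass k} {ops : CycleOps 𝒱}
  {W : WeilCohomology.{u, v} ops} {X Y Z P Q U : 𝒱.Obj}

/-- The growth condition. -/
def Full (S : Sys W) (X : 𝒱.Obj) : Prop :=
  ∀ c : ℝ, 0 ≤ c → c < (finrank W.K (W.H X) : ℝ) ^ 2 →
    ∃ l₀, ∀ l ≥ l₀, c * S.al X l ≤ S.al X (l + 1)

theorem sq_flat' (S : Sys W) (hpos : ∀ l, 0 < S.al X l) (hB : Full S X)
    (hX : 0 < finrank W.K (W.H X)) (Z : 𝒱.Obj) {l : ℕ} (j : ℕ) (hl : 1 ≤ l) :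
    (1 - (finrank W.K (W.H X) : ℝ) ^ 2 * j * (Real.log ((l : ℝ) + 2) / l)) *
      (((finrank W.K (W.H X) : ℝ) ^ 2) ^ j * S.a (sq X Z l)) ≤ S.a (sq X Z (l + j)) := by
  rcases Nat.eq_zero_or_pos (S.a (Z.prod Z)) with h0 | h0
  · have h1 : S.a (sq X Z l) = 0 := by
      refine a_prod_eq_zero S h0 (X := sq X Z l) ?_
      exact Obj.lift (fst _ _ ≫ fst _ _) (snd _ _ ≫ fst _ _)
    rw [h1, Nat.cast_zero, mul_zero, mul_zero]
    exact Nat.cast_nonneg _
  · have h := flat' (N := fun l => S.a (sq X Z l)) (α := S.al X) (N₀ := S.a (Z.prod Z)) h0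
      (Nat.pow_pos hX) (fun l => lt_of_lt_of_le (Nat.mul_pos h0 (hpos l)) (sq_ge S X Z l))
      (sq_convex S X Z) (sq_zero_le S X Z) (sq_ge S X Z) (al_lower S hpos hB hX) j hl
    push_cast at h
    exact h

/-! ### The projector to the unit -/

/-- The operator `y ↦ tr (l y) • 1`. -/
noncomputable def unitOp (W : WeilCohomology.{u, v} ops) {X : 𝒱.Obj} (l : W.H X) :
    Module.End W.K (W.H X) := W.corr (xp W l 1)

lemma unitOp_apply {l : W.H X} (y : W.H X) :
    unitOp W l y = W.tr X (l * y) • (1 : W.H X) := by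
  refine gr_induction (W.isInternal X) (p := fun y => unitOp W l y =
    W.tr X (l * y) • (1 : W.H X)) ?_ ?_ y
  · intro i y hy
    rw [unitOp, corr_xp l PH.one (PH.of (W := W) hy), zero_mul, pow_zero, one_mul]
  · intro a b ha hb
    rw [map_add, ha, hb, mul_add, map_add, add_smul]

lemma unitOp_mem (S : Sys W) {l : W.H X} (hl : l ∈ S.C X) : unitOp W l ∈ S.Op X X :=
  Sys.Op.corr (Sys.xp_mem_C S hl (S.one X))

lemma unitOp_idem {l : W.H X} (hl1 : W.tr X l = 1) : unitOp W l ∘ₗ unitOp W l = unitOp W l := by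
  apply LinearMap.ext
  intro y
  rw [LinearMap.comp_apply, unitOp_apply, unitOp_apply, mul_smul_comm, mul_one, map_smul,
    smul_eq_mul, hl1, mul_one]

lemma unitOp_ne {l : W.H X} (hl1 : W.tr X l = 1) : unitOp W l ≠ 0 := by
  intro h
  have h1 := congrArg (fun f : Module.End W.K (W.H X) => f 1) h
  simp only [LinearMap.zero_apply] at h1
  rw [unitOp_apply, mul_one, hl1, one_smul] at h1
  exact one_ne_zero_of (ne_zero_of_tr hl1) h1

lemma push_snd_fst (w : W.H X) : W.push (snd X Z) (W.map (fst X Z) w) =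
    W.tr X w • (1 : W.H Z) := by
  apply W.tr_ext
  intro b
  rw [W.tr_push, W.tr_prod, smul_mul_assoc, one_mul, map_smul, smul_eq_mul]

/-- The part of `X × Z` cut out by the unit has at most the rank of `Z`. -/
lemma r_unit_le (S : Sys W) {l : W.H X} (hl : l ∈ S.C X) (Z : 𝒱.Obj) :
    S.r X (unitOp W l) Z ≤ S.a Z := by
  -- the maps to the classes on `Z`
  let A : S.C (X.prod Z) →ₗ[W.K] S.C Z :=
    { toFun := fun c => ⟨W.push (snd X Z) (W.map (fst X Z) l * (c : W.H (X.prod Z))),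
        S.push _ (S.mul (S.map _ hl) c.2)⟩
      map_add' := fun a b => Subtype.ext (by
        simp only [Submodule.coe_add, mul_add, map_add])
      map_smul' := fun r a => Subtype.ext (by
        simp only [Submodule.coe_smul, mul_smul_comm, map_smul, RingHom.id_apply]) }
  let B : S.C (X.prod Z) →ₗ[W.K] S.C Z :=
    { toFun := fun c => ⟨W.push (snd X Z) (c : W.H (X.prod Z)), S.push _ c.2⟩
      map_add' := fun a b => Subtype.ext (by
        simp only [Submodule.coe_add, map_add])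
      map_smul' := fun r a => Subtype.ext (by
        simp only [Submodule.coe_smul, map_smul, RingHom.id_apply]) }
  have h1 : S.F (X.prod Z) (extOp W (unitOp W l) 1) = (S.F Z 1).compl₁₂ A B := by
    apply LinearMap.ext
    intro c
    apply LinearMap.ext
    intro d
    rw [LinearMap.compl₁₂_apply, Sys.F_apply, Sys.F_apply]
    change W.tr _ (extOp W (unitOp W l) 1 (c : W.H (X.prod Z)) * (d : W.H (X.prod Z))) =
      W.tr Z (W.push (snd X Z) (W.map (fst X Z) l * (c : W.H (X.prod Z))) *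
        W.push (snd X Z) (d : W.H (X.prod Z)))
    have h2 : ∀ c : W.H (X.prod Z), extOp W (unitOp W l) 1 c =
        W.map (snd X Z) (W.push (snd X Z) (W.map (fst X Z) l * c)) := by
      intro c
      refine xp_induction (p := fun c => extOp W (unitOp W l) 1 c =
        W.map (snd X Z) (W.push (snd X Z) (W.map (fst X Z) l * c))) ?_ ?_ c
      · intro c d hc hd
        rw [map_add, hc, hd, mul_add, map_add, map_add]
      · intro i j x hx y hy
        rw [extOp_xp, Module.End.one_apply, unitOp_apply, xp, map_smul, map_one, smul_mul_assoc,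
          one_mul, xp, ← mul_assoc, ← map_mul]
        rw [W.push_mul, push_snd_fst, smul_mul_assoc, one_mul, map_smul]
    have hc' : W.push (snd X Z) (W.map (fst X Z) l * (c : W.H (X.prod Z))) ∈ S.C Z :=
      S.push _ (S.mul (S.map _ hl) c.2)
    rw [h2, PH.even_comm (PH.map _ (S.even hc')), ← W.tr_push,
      PH.even_comm (S.even (S.push _ d.2))]
  rw [Sys.r, h1]
  exact rk_comp_le _ _ _

/-! ### Flatness for all powers -/

/-- The part cut out by an idempotent, with its rank. -/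
lemma r_lower' (S : Sys W) {P P₀ : 𝒱.Obj} {g : Module.End W.K (W.H P)} (hg : g ∈ S.Op P P)
    (hgg : g ∘ₗ g = g) (Y : 𝒱.Obj) :
    S.a ((P.prod P₀).prod (Y.prod Y)) +
        finrank W.K (LinearMap.range g) * finrank W.K (W.H P₀) * S.a (Y.prod Y) ≤
      S.r P g (P₀.prod (Y.prod Y)) +
        finrank W.K (W.H P) * finrank W.K (W.H P₀) * S.a (Y.prod Y) := by
  set G : Module.End W.K (W.H (P.prod P₀)) := extOp W g 1 with hG
  have hGm : G ∈ S.Op (P.prod P₀) (P.prod P₀) := Sys.Op.ext hg Sys.Op.id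
  have h11 : (1 : Module.End W.K (W.H P₀)) ∘ₗ 1 = 1 := rfl
  have hGG : G ∘ₗ G = G := by
    change G * G = G
    rw [hG, extOp_mul, mul_one]
    change extOp W (g ∘ₗ g) 1 = _
    rw [hgg]
  obtain ⟨hG', h5⟩ := Sys.finrank_compl hGG
  have h1 := S.r_add_le (Z := Y.prod Y) G (1 - G)
  rw [add_sub_cancel, Sys.r_one] at h1
  have h2 := S.r_le_rank (g := 1 - G) (Submodule.sub_mem _ Sys.Op.id hGm) hG' Y
  have h3 : S.r (P.prod P₀) G (Y.prod Y) = S.r P g (P₀.prod (Y.prod Y)) := S.r_assoc g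
  have h4 : finrank W.K (LinearMap.range G) = finrank W.K (LinearMap.range g) *
      finrank W.K (W.H P₀) := by
    rw [hG, finrank_extOp hgg h11, Sys.rank_one]
  rw [Pool.Agent.Y133.Half.finrank_prod] at h5
  rw [h3] at h1
  calc S.a ((P.prod P₀).prod (Y.prod Y)) +
        finrank W.K (LinearMap.range g) * finrank W.K (W.H P₀) * S.a (Y.prod Y) ≤
      (S.r P g (P₀.prod (Y.prod Y)) + finrank W.K (LinearMap.range (1 - G)) * S.a (Y.prod Y)) +
        finrank W.K (LinearMap.range G) * S.a (Y.prod Y) := by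
        rw [h4]
        exact Nat.add_le_add_right (h1.trans (Nat.add_le_add_left h2 _)) _
    _ = S.r P g (P₀.prod (Y.prod Y)) + (finrank W.K (LinearMap.range (1 - G)) +
        finrank W.K (LinearMap.range G)) * S.a (Y.prod Y) := by ring
    _ = _ := by rw [h5]

lemma flat_even (S : Sys W) (hpos : ∀ l, 0 < S.al X l) (hB : Full S X)
    (hX : 0 < finrank W.K (W.H X)) {e j : ℕ} (he : e + 1 = 2 * j) :
    ∃ E : ℝ, 0 ≤ E ∧ ∀ (Z : 𝒱.Obj) (l : ℕ), 1 ≤ l →
      ((finrank W.K (W.H X) : ℝ) ^ (e + 1) - E * (Real.log ((l : ℝ) + 2) / l)) *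
        S.a (sq X Z l) ≤ S.a ((pw X e).prod (sq X Z l)) := by
  set b := finrank W.K (W.H X) with hb
  refine ⟨(b : ℝ) ^ 2 * j * ((b : ℝ) ^ 2) ^ j, by positivity, fun Z l hl => ?_⟩
  have h1 := sq_flat' S hpos hB hX Z j hl
  have h2 : S.a ((pw X e).prod (sq X Z l)) = S.a (sq X Z (l + j)) := by
    apply a_cl
    rw [cl_prod, cl_pw]
    exact cl_pw_sq X Z e l j he
  rw [h2]
  refine le_trans (le_of_eq ?_) h1
  rw [← hb, he, pow_mul]
  ring

theorem flat_all (S : Sys W) (hpos : ∀ l, 0 < S.al X l) (hB : Full S X)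
    (hX : 0 < finrank W.K (W.H X)) {l₁ : W.H X} (hl : l₁ ∈ S.C X) (hl1 : W.tr X l₁ = 1)
    (e : ℕ) : ∃ E : ℝ, 0 ≤ E ∧ ∀ (Z : 𝒱.Obj) (l : ℕ), 1 ≤ l →
      ((finrank W.K (W.H X) : ℝ) ^ (e + 1) - E * (Real.log ((l : ℝ) + 2) / l)) *
        S.a (sq X Z l) ≤ S.a ((pw X e).prod (sq X Z l)) := by
  set b := finrank W.K (W.H X) with hb
  rcases Nat.even_or_odd' (e + 1) with ⟨j, hj | hj⟩
  · exact flat_even S hpos hB hX hj
  · obtain ⟨E, hE, h⟩ := flat_even S hpos hB hX (e := e + 1) (j := j + 1) (by omega)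
    refine ⟨E, hE, fun Z l hl' => ?_⟩
    have h1 := h Z l hl'
    rw [← hb] at h1
    have h2 := r_lower' S (P := X) (P₀ := pw X e) (unitOp_mem S hl) (unitOp_idem hl1)
      (Z.prod (pw X l))
    change S.a ((X.prod (pw X e)).prod (sq X Z l)) + _ * S.a (sq X Z l) ≤
      S.r X (unitOp W l₁) ((pw X e).prod (sq X Z l)) + _ * S.a (sq X Z l) at h2
    have h3 := r_unit_le S hl ((pw X e).prod (sq X Z l))
    have h4 : S.a ((X.prod (pw X e)).prod (sq X Z l)) = S.a ((pw X (e + 1)).prod (sq X Z l)) := by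
      apply a_cl
      simp only [cl_prod, cl_pw]
      change _ = (pwc (cl X) e * cl X) * _
      ac_rfl
    have h5 : 1 ≤ finrank W.K (LinearMap.range (unitOp W l₁)) :=
      Sys.finrank_range_pos (unitOp_ne hl1)
    rw [h4, finrank_pw] at h2
    have h6 : (S.a ((pw X (e + 1)).prod (sq X Z l)) : ℝ) + (b : ℝ) ^ (e + 1) * S.a (sq X Z l) ≤
        S.a ((pw X e).prod (sq X Z l)) + (b : ℝ) * (b : ℝ) ^ (e + 1) * S.a (sq X Z l) := by
      have h7 : S.a ((pw X (e + 1)).prod (sq X Z l)) + b ^ (e + 1) * S.a (sq X Z l) ≤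
          S.a ((pw X e).prod (sq X Z l)) + b * b ^ (e + 1) * S.a (sq X Z l) := by
        calc S.a ((pw X (e + 1)).prod (sq X Z l)) + b ^ (e + 1) * S.a (sq X Z l) ≤
            S.a ((pw X (e + 1)).prod (sq X Z l)) +
              finrank W.K (LinearMap.range (unitOp W l₁)) * b ^ (e + 1) * S.a (sq X Z l) := by
              refine Nat.add_le_add_left (Nat.mul_le_mul_right _ ?_) _
              exact Nat.le_mul_of_pos_left _ h5
          _ ≤ S.r X (unitOp W l₁) ((pw X e).prod (sq X Z l)) +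
              b * b ^ (e + 1) * S.a (sq X Z l) := h2
          _ ≤ _ := Nat.add_le_add_right h3 _
      exact_mod_cast h7
    have h8 : (b : ℝ) ^ (e + 1 + 1) = b * (b : ℝ) ^ (e + 1) := by ring
    rw [h8] at h1
    nlinarith

/-! ### Chains with weights -/

theorem wcount {S T : Sys W} (hST : ∀ X, S.C X ≤ T.C X) (P Z : 𝒱.Obj)
    (hnil : ∀ x ∈ S.NOp P P, IsNilpotent x) :
    ∃ G : List (Module.End W.K (W.H P)), (∀ g ∈ G, g ∈ S.Op P P ∧ g ∘ₗ g = g) ∧
      G.length ≤ finrank W.K (T.C P) ∧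
      finrank W.K (T.C P) ≤ (G.map fun g => S.r P g P).sum ∧
      (G.map fun g => S.r P g Z).sum ≤ finrank W.K (T.C Z) := by
  let X : Fin 2 → 𝒱.Obj := ![P, Z]
  have hnil' : ∀ x ∈ S.Op P P, (∀ y ∈ S.Op P P,
      LinearMap.trace W.K (W.H P) (par (W.isInternal P) ∘ₗ x ∘ₗ y) = 0) → IsNilpotent x := by
    intro x hx h
    obtain ⟨c, hc, rfl⟩ := Sys.mem_Op.1 hx
    apply hnil
    refine Sys.NOp.corr ⟨hc, fun d hd => ?_⟩
    have h1 := h (W.corr (W.map (swap P P) d)) (Sys.Op.corr (S.map _ hd))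
    rw [trace_corr_corr, swap_swap] at h1
    exact h1
  obtain ⟨G, hG1, hG2, hG3, hG4⟩ := wchain (S.cat X) 0 hnil' _ (T.C P)
    (fun a ha m hm => Sys.Op.apply hST (T := T) ha hm) rfl
  refine ⟨G, hG1, hG2, ?_, ?_⟩
  · have h1 : (G.map fun g => S.r P g P).sum =
        (G.map fun g => rk (A := (S.cat X).S 0 0) (B := (S.cat X).S 0 0)
          ((S.cat X).B 0 0 g LinearMap.id)).sum := by
      congr 1
      apply List.map_congr_left
      intro g hg
      exact (S.rk_BO_r (P := P) (Z := P) (g := g) (Sys.Op.ev (S := S) (hG1 g hg).1)).symm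
    rw [h1]
    exact hG3
  · have h1 : (G.map fun g => S.r P g Z).sum =
        (G.map fun g => rk (A := (S.cat X).S 0 1) (B := (S.cat X).S 1 0)
          ((S.cat X).B 0 1 g LinearMap.id)).sum := by
      congr 1
      apply List.map_congr_left
      intro g hg
      exact (S.rk_BO_r (P := P) (Z := Z) (g := g) (Sys.Op.ev (S := S) (hG1 g hg).1)).symm
    rw [h1]
    refine (hG4 1).trans ?_
    have h3 : (S.cat X).gen 0 1 (T.C P) ≤ (T.C Z : Submodule W.K (W.H Z)) := by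
      refine Submodule.span_le.2 ?_
      rintro _ ⟨v, hv, m, hm, rfl⟩
      exact Sys.Op.apply (S := S) (X := P) (Y := Z) hST (T := T) hv hm
    exact Submodule.finrank_mono (R := W.K) (M := W.H Z) h3

end Pool.Agent.E8helper24.INF
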