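import Pool.Agent.E8helper24.INF.Uni

/-!
# The uniform index law for a pair of systems of classes
-/

open CategoryTheory AlgebraicGeometry

universe u v

set_option linter.unusedSectionVars false

namespace Pool.Agent.E8helper24.INF

open Module
open Pool.Agent.H914 Pool.Agent.H914.VarClass Pool.Agent.H914.VarClass.Obj
  Pool.Agent.H914.WeilCohomology Pool.Agent.Y133.Half

/-- The rate `log (n + 2) / (n + 1)`. -/
noncomputable def lrate (n : ℕ) : ℝ := Real.log (n + 2) / (n + 1)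

lemma lrate_pos (n : ℕ) : 0 < lrate n := div_pos (log_pos' n) (by positivity)

lemma one_le_lrate {n n₀ : ℕ} (h : n ≤ n₀) : 1 ≤ 2 * ((n₀ : ℝ) + 1) * lrate n := by
  have h1 : (0 : ℝ) < (n : ℝ) + 1 := by positivity
  rw [lrate, mul_div_assoc', le_div_iff₀ h1]
  have h3 : (0.5 : ℝ) ≤ Real.log (n + 2) := by
    have := log_ge n
    have := Real.log_two_gt_d9
    linarith
  have h4 : (n : ℝ) ≤ n₀ := by exact_mod_cast h
  nlinarith

lemma log_div_le {l n ε : ℕ} (hl : 1 ≤ l) (hε : ε ≤ 1) (hn : n = 2 * l + 2 + ε) :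
    Real.log ((l : ℝ) + 2) / l ≤ 6 * lrate n := by
  have hl0 : (0 : ℝ) < l := by exact_mod_cast hl
  have h1 : (0 : ℝ) < (n : ℝ) + 1 := by positivity
  have h2 : (n : ℝ) + 1 ≤ 6 * l := by
    have : n + 1 ≤ 6 * l := by omega
    exact_mod_cast this
  have h3 : Real.log ((l : ℝ) + 2) ≤ Real.log ((n : ℝ) + 2) := by
    apply Real.log_le_log (by positivity)
    have : (l : ℝ) ≤ n := by exact_mod_cast (by omega : l ≤ n)
    linarith
  have h4 := log_pos' n
  rw [lrate, mul_div_assoc', div_le_div_iff₀ hl0 h1]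
  calc Real.log ((l : ℝ) + 2) * ((n : ℝ) + 1) ≤ Real.log ((n : ℝ) + 2) * ((n : ℝ) + 1) :=
        mul_le_mul_of_nonneg_right h3 h1.le
    _ ≤ Real.log ((n : ℝ) + 2) * (6 * l) := mul_le_mul_of_nonneg_left h2 h4.le
    _ = _ := by ring

lemma list_bound {α : Type*} (G : List α) (r : α → ℕ) (ρ : α → ℕ) {p e s : ℝ}
    (h : ∀ g ∈ G, ((ρ g : ℝ) * p - e) * s ≤ r g) :
    (((G.map ρ).sum : ℝ) * p - G.length * e) * s ≤ ((G.map r).sum : ℝ) := by
  induction G with
  | nil => simp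
  | cons g G ih =>
    have h1 := ih fun g' hg' => h g' (List.mem_cons_of_mem _ hg')
    have h2 := h g (List.mem_cons_self ..)
    simp only [List.map_cons, List.sum_cons, List.length_cons]
    push_cast
    push_cast at h1
    nlinarith

variable {k : Type u} [Field k] {𝒱 : VarClass k} {ops : CycleOps 𝒱}
  {W : WeilCohomology.{u, v} ops} {X Y Z P Q U : 𝒱.Obj}

/-- The uniform bound for `X^(ε+1) × (Z × X^(l+1))²`. -/
def Bnd (S T : Sys W) (X : 𝒱.Obj) (r ε : ℕ) (E : ℝ) (l : ℕ) : Prop :=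
  ∀ Z : 𝒱.Obj, (r : ℝ) * S.a ((pw X ε).prod (sq X Z l)) ≤
    (1 + E * (Real.log ((l : ℝ) + 2) / l)) * finrank W.K (T.C ((pw X ε).prod (sq X Z l)))

theorem uni_core {S T : Sys W} (hST : ∀ X, S.C X ≤ T.C X) (hpos : ∀ l, 0 < S.al X l)
    (hB : Full S X) (hX : 0 < finrank W.K (W.H X)) {l₁ : W.H X} (hl : l₁ ∈ S.C X)
    (hl1 : W.tr X l₁ = 1) {k r : ℕ}
    (hr : r * S.a ((pw X k).prod (pw X k)) <
      finrank W.K (T.C ((pw X k).prod (pw X k))) + S.a ((pw X k).prod (pw X k))) (ε : ℕ) :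
    ∃ E : ℝ, 0 ≤ E ∧ ∀ l, 1 ≤ l → Bnd S T X r ε E l := by
  set b := finrank W.K (W.H X) with hb
  set P := (pw X k).prod (pw X k) with hP
  set t := finrank W.K (T.C P) with ht
  obtain ⟨E', hE', hflat⟩ := flat_all S hpos hB hX hl hl1 (k + k + 1 + ε + 1)
  have h1P : (1 : W.H P) ≠ 0 := by
    have : Nontrivial (W.H P) := by
      apply Module.nontrivial_of_finrank_pos (R := W.K)
      rw [hP, Pool.Agent.Y133.Half.finrank_prod, finrank_pw]
      exact Nat.mul_pos (Nat.pow_pos hX) (Nat.pow_pos hX)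
    exact one_ne_zero
  have hnil : ∀ x ∈ S.NOp P P, IsNilpotent x := fun x hx =>
    S.nilpotent_iso hpos hB hX (pwAdd X k k) h1P hx
  refine ⟨t * E', by positivity, fun l hl' Z => ?_⟩
  set L : ℝ := Real.log ((l : ℝ) + 2) / l with hL
  have hL0 : 0 ≤ L := by
    have := log_pos' l
    positivity
  set s := S.a (sq X Z l) with hs
  set V := (pw X ε).prod (sq X Z l) with hV
  obtain ⟨G, hG1, hG2, hG3, hG4⟩ := wcount hST P V hnil
  set R := (G.map fun g => finrank W.K (LinearMap.range g)).sum with hR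
  -- the sum of the ranks
  have hRr : r ≤ R := by
    have h1 : t ≤ R * S.a P := by
      refine hG3.trans ?_
      rw [hR, ← List.sum_map_mul_right]
      refine List.sum_le_sum fun g hg => ?_
      exact S.r_le_rank (hG1 g hg).1 (hG1 g hg).2 (pw X k)
    by_contra h2
    push Not at h2
    have h3 : (R + 1) * S.a P ≤ r * S.a P := Nat.mul_le_mul_right _ h2
    rw [add_mul, one_mul] at h3
    omega
  -- the lower bound for the parts
  have hpart : ∀ g ∈ G, ((finrank W.K (LinearMap.range g) : ℝ) * (b : ℝ) ^ (ε + 1) - E' * L) *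
      s ≤ S.r P g V := by
    intro g hg
    have h1 := r_lower' S (P := P) (P₀ := pw X ε) (hG1 g hg).1 (hG1 g hg).2 (Z.prod (pw X l))
    change S.a ((P.prod (pw X ε)).prod (sq X Z l)) + _ * S.a (sq X Z l) ≤
      S.r P g ((pw X ε).prod (sq X Z l)) + _ * S.a (sq X Z l) at h1
    have h2 := hflat Z l hl'
    have h3 : S.a ((P.prod (pw X ε)).prod (sq X Z l)) =
        S.a ((pw X (k + k + 1 + ε + 1)).prod (sq X Z l)) := by
      apply a_cl
      simp only [cl_prod, cl_pw, hP, pwc_add]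
    have hbP : finrank W.K (W.H P) = b ^ (k + 1) * b ^ (k + 1) := by
      rw [hP, Pool.Agent.Y133.Half.finrank_prod, finrank_pw]
    rw [h3, hbP, finrank_pw, ← hb, ← hs] at h1
    have h4 : (S.a ((pw X (k + k + 1 + ε + 1)).prod (sq X Z l)) : ℝ) +
        finrank W.K (LinearMap.range g) * (b : ℝ) ^ (ε + 1) * s ≤
        S.r P g V + (b : ℝ) ^ (k + 1) * (b : ℝ) ^ (k + 1) * (b : ℝ) ^ (ε + 1) * s := by
      exact_mod_cast h1
    have h5 : (b : ℝ) ^ (k + k + 1 + ε + 1 + 1) =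
        (b : ℝ) ^ (k + 1) * (b : ℝ) ^ (k + 1) * (b : ℝ) ^ (ε + 1) := by
      rw [← pow_add, ← pow_add]
      congr 1
      ring
    rw [← hb, h5, ← hL, ← hs] at h2
    nlinarith
  have hsum := list_bound G (fun g => S.r P g V) (fun g => finrank W.K (LinearMap.range g)) hpart
  rw [← hR] at hsum
  -- the bounds for `V`
  have hV1 : (S.a V : ℝ) ≤ (b : ℝ) ^ (ε + 1) * s := by
    have h1 := S.a_le (pw X ε) (Z.prod (pw X l))
    rw [finrank_pw] at h1
    change S.a V ≤ b ^ (ε + 1) * s at h1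
    exact_mod_cast h1
  have hV2 : s ≤ finrank W.K (T.C V) := by
    have h1 := a_prod_ge S (pw X ε) (sq X Z l)
    have h2 : 0 < S.a (pw X ε) := by
      obtain ⟨m, hm, hm1⟩ := S.exists_lam hl hl1 ε
      exact S.a_pos hm hm1
    calc s ≤ S.a (pw X ε) * s := Nat.le_mul_of_pos_left _ h2
      _ ≤ S.a V := h1
      _ ≤ finrank W.K (S.C V) := a_le_C S V
      _ ≤ finrank W.K (T.C V) := Submodule.finrank_mono (hST V)
  have hV2' : (s : ℝ) ≤ finrank W.K (T.C V) := by exact_mod_cast hV2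
  have hG4' : ((G.map fun g => S.r P g V).sum : ℝ) ≤ finrank W.K (T.C V) := by
    exact_mod_cast hG4
  have hGt : (G.length : ℝ) ≤ t := by exact_mod_cast hG2
  have hRr' : (r : ℝ) ≤ R := by exact_mod_cast hRr
  have hbε : (0 : ℝ) ≤ (b : ℝ) ^ (ε + 1) := by positivity
  have hs0 : (0 : ℝ) ≤ s := Nat.cast_nonneg _
  have hEL : 0 ≤ E' * L := mul_nonneg hE' hL0
  have hT0 : (0 : ℝ) ≤ finrank W.K (T.C V) := Nat.cast_nonneg _
  calc (r : ℝ) * S.a V ≤ r * ((b : ℝ) ^ (ε + 1) * s) :=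
        mul_le_mul_of_nonneg_left hV1 (Nat.cast_nonneg _)
    _ ≤ R * ((b : ℝ) ^ (ε + 1) * s) := mul_le_mul_of_nonneg_right hRr' (by positivity)
    _ = (R * (b : ℝ) ^ (ε + 1) - G.length * (E' * L)) * s + G.length * (E' * L) * s := by ring
    _ ≤ finrank W.K (T.C V) + t * (E' * L) * finrank W.K (T.C V) := by
        refine add_le_add (hsum.trans hG4') ?_
        exact mul_le_mul (mul_le_mul_of_nonneg_right hGt hEL) hV2' hs0 (by positivity)
    _ = _ := by ring

/-- From the bounds for `X^(ε+1) × (Z × X^(l+1))²` to the bound for `X^(n+1) × Z × Z`. -/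
lemma bnd_all {S T : Sys W} (hST : ∀ X, S.C X ≤ T.C X) {r : ℕ} {E : ℝ} (hE : 0 ≤ E) {l₀ : ℕ}
    (h : ∀ ε ≤ 1, ∀ l, l₀ ≤ l → 1 ≤ l → Bnd S T X r ε E l) :
    ∃ C : ℝ, 0 ≤ C ∧ ∀ (n : ℕ) (Z : 𝒱.Obj),
      (r : ℝ) * S.a ((pw X n).prod (Z.prod Z)) ≤
        (1 + C * lrate n) * finrank W.K (T.C ((pw X n).prod (Z.prod Z))) := by
  set n₀ := 2 * l₀ + 5 with hn₀
  set C : ℝ := 6 * E + r * (2 * ((n₀ : ℝ) + 1)) with hC
  have hC0 : 0 ≤ C := by positivity
  refine ⟨C, hC0, fun n Z => ?_⟩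
  have hr := lrate_pos n
  have hT0 : (0 : ℝ) ≤ finrank W.K (T.C ((pw X n).prod (Z.prod Z))) := Nat.cast_nonneg _
  rcases le_or_gt n n₀ with hn | hn
  · have h1 : (S.a ((pw X n).prod (Z.prod Z)) : ℝ) ≤
        finrank W.K (T.C ((pw X n).prod (Z.prod Z))) := by
      exact_mod_cast (a_le_C S _).trans (Submodule.finrank_mono (hST _))
    have h2 := one_le_lrate hn
    have h3 : (r : ℝ) ≤ 1 + C * lrate n := by
      have h4 : (r : ℝ) * 1 ≤ r * (2 * ((n₀ : ℝ) + 1) * lrate n) :=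
        mul_le_mul_of_nonneg_left h2 (Nat.cast_nonneg _)
      have h5 : 0 ≤ 6 * E * lrate n := by positivity
      rw [hC]
      nlinarith
    calc (r : ℝ) * S.a ((pw X n).prod (Z.prod Z)) ≤
        r * finrank W.K (T.C ((pw X n).prod (Z.prod Z))) :=
          mul_le_mul_of_nonneg_left h1 (Nat.cast_nonneg _)
      _ ≤ _ := mul_le_mul_of_nonneg_right h3 hT0
  · obtain ⟨l, ε, hε, hnl⟩ : ∃ l ε, ε ≤ 1 ∧ n = 2 * l + 2 + ε :=
      ⟨(n - 2) / 2, (n - 2) % 2, by omega, by omega⟩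
    have hl1 : 1 ≤ l := by omega
    have h1 := h ε hε l (by omega) hl1 Z
    have hcl : cl ((pw X ε).prod (sq X Z l)) = cl ((pw X n).prod (Z.prod Z)) := by
      rw [hnl]
      simp only [cl_prod, cl_sq, cl_pw]
      have e1 : 2 * l + 2 + ε = ε + (l + l + 1) + 1 := by ring
      rw [e1, ← pwc_add (cl X) ε (l + l + 1)]
      ac_rfl
    rw [a_cl S hcl, C_cl T hcl] at h1
    refine h1.trans (mul_le_mul_of_nonneg_right ?_ hT0)
    have h2 := log_div_le hl1 hε hnl
    have h3 : E * (Real.log ((l : ℝ) + 2) / l) ≤ E * (6 * lrate n) :=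
      mul_le_mul_of_nonneg_left h2 hE
    have h4 : (0 : ℝ) ≤ r * (2 * ((n₀ : ℝ) + 1)) * lrate n := by positivity
    rw [hC]
    nlinarith

/-- **The uniform index law.** Let `S ≤ T` be systems of classes. If the dimension of the classes of
`T` on `X^(2k+2)` is larger than `r - 1` times the rank of the classes of `S` modulo numerical
equivalence, then, uniformly in all `Z`, the dimension of the classes of `T` on `X^n × Z × Z` is at
least `r (1 - O(log n / n))` times the rank of the classes of `S`. -/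
theorem uniform {S T : Sys W} (hST : ∀ X, S.C X ≤ T.C X) (X : 𝒱.Obj) {k r : ℕ}
    (hr : r * S.a ((pw X k).prod (pw X k)) <
      finrank W.K (T.C ((pw X k).prod (pw X k))) + S.a ((pw X k).prod (pw X k))) :
    ∃ C : ℝ, 0 ≤ C ∧ ∀ (n : ℕ) (Z : 𝒱.Obj),
      (r : ℝ) * S.a ((pw X n).prod (Z.prod Z)) ≤
        (1 + C * lrate n) * finrank W.K (T.C ((pw X n).prod (Z.prod Z))) := by
  by_cases hZ : ∀ l ∈ S.C X, W.tr X l = 0
  · refine ⟨0, le_rfl, fun n Z => ?_⟩
    have h1 : S.a ((pw X n).prod (Z.prod Z)) = 0 :=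
      a_prod_eq_zero S (a_eq_zero_of_tr S hZ) (fst _ _ ≫ prj X n 0)
    rw [h1, Nat.cast_zero, mul_zero]
    have := lrate_pos n
    positivity
  push Not at hZ
  obtain ⟨l', hl', hl'0⟩ := hZ
  obtain ⟨l, hl, hl1⟩ : ∃ l ∈ S.C X, W.tr X l = 1 :=
    ⟨(W.tr X l')⁻¹ • l', Submodule.smul_mem _ _ hl', by
      rw [map_smul, smul_eq_mul, inv_mul_cancel₀ hl'0]⟩
  have h1 : (1 : W.H X) ≠ 0 := one_ne_zero_of (ne_zero_of_tr hl1)
  have hX : 0 < finrank W.K (W.H X) := by
    have : Nontrivial (W.H X) := ⟨⟨1, 0, h1⟩⟩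
    exact Module.finrank_pos
  have hpos : ∀ n, 0 < S.al X n := by
    intro n
    obtain ⟨m, hm, hm1⟩ := S.exists_lam hl hl1 n
    refine S.a_pos (Sys.xp_mem_C S hm hm) ?_
    rw [tr_xp, hm1, mul_one]
  rcases ratio_dichotomy hpos (S.al_convex X) ((finrank W.K (W.H X) : ℝ) ^ 2) with
    ⟨c, hc, hcB, h⟩ | hB
  · have hc0 : 0 < c := by
      rcases hc.lt_or_eq with h2 | h2
      · exact h2
      · have h3 := h 0
        rw [← h2, zero_mul] at h3
        have h4 : (0 : ℝ) < S.al X (0 + 1) := by exact_mod_cast hpos 1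
        linarith
    obtain ⟨l₀, hl₀⟩ := case_one S hX hc0 hcB h
    set b := finrank W.K (W.H X) with hb
    have hb1 : (1 : ℝ) ≤ b := by exact_mod_cast hX
    refine bnd_all hST (E := 2 * r * (b : ℝ) ^ 2) (l₀ := l₀) (by positivity) ?_
    intro ε hε l hll hl1' Z
    have hY : 0 < S.a (pw X ε) := by
      obtain ⟨m, hm, hm1⟩ := S.exists_lam hl hl1 ε
      exact S.a_pos hm hm1
    have h2 := hl₀ l hll (pw X ε) Z hY
    rw [finrank_pw, ← hb] at h2
    push_cast at h2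
    set V := (pw X ε).prod (sq X Z l) with hV
    have h3 : (finrank W.K (S.C V) : ℝ) ≤ finrank W.K (T.C V) := by
      exact_mod_cast Submodule.finrank_mono (hST V)
    have hT0 : (0 : ℝ) ≤ finrank W.K (T.C V) := Nat.cast_nonneg _
    have hl0 : (0 : ℝ) < l := by exact_mod_cast hl1'
    have hbε : (b : ℝ) ^ (ε + 1) ≤ (b : ℝ) ^ 2 := pow_le_pow_right₀ hb1 (by omega)
    have hbε0 : (0 : ℝ) ≤ (b : ℝ) ^ (ε + 1) := by positivity
    have h4 : (S.a V : ℝ) * l ≤ (b : ℝ) ^ 2 * finrank W.K (T.C V) := by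
      calc (S.a V : ℝ) * l ≤ S.a V * ((l : ℝ) + 2) := by
            refine mul_le_mul_of_nonneg_left (by linarith) (Nat.cast_nonneg _)
        _ ≤ (b : ℝ) ^ (ε + 1) * finrank W.K (S.C V) := h2
        _ ≤ (b : ℝ) ^ (ε + 1) * finrank W.K (T.C V) := mul_le_mul_of_nonneg_left h3 hbε0
        _ ≤ _ := mul_le_mul_of_nonneg_right hbε hT0
    have h5 : (0.5 : ℝ) ≤ Real.log (l + 2) := by
      have := log_ge l
      have := Real.log_two_gt_d9
      linarith
    have h6 : (S.a V : ℝ) ≤ (b : ℝ) ^ 2 * finrank W.K (T.C V) / l := by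
      rw [le_div_iff₀ hl0]
      exact h4
    calc (r : ℝ) * S.a V ≤ r * ((b : ℝ) ^ 2 * finrank W.K (T.C V) / l) :=
          mul_le_mul_of_nonneg_left h6 (Nat.cast_nonneg _)
      _ = (r * (b : ℝ) ^ 2 * finrank W.K (T.C V) / l) * 1 := by ring
      _ ≤ (r * (b : ℝ) ^ 2 * finrank W.K (T.C V) / l) * (2 * Real.log (l + 2)) := by
          refine mul_le_mul_of_nonneg_left (by linarith) (by positivity)
      _ = (2 * r * (b : ℝ) ^ 2 * (Real.log ((l : ℝ) + 2) / l)) * finrank W.K (T.C V) := by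
          ring
      _ ≤ (1 + 2 * r * (b : ℝ) ^ 2 * (Real.log ((l : ℝ) + 2) / l)) *
          finrank W.K (T.C V) := by
          refine mul_le_mul_of_nonneg_right (by linarith) hT0
  · obtain ⟨E₀, hE₀, h₀⟩ := uni_core hST hpos hB hX hl hl1 hr 0
    obtain ⟨E₁, hE₁, h₁⟩ := uni_core hST hpos hB hX hl hl1 hr 1
    refine bnd_all hST (E := E₀ + E₁) (l₀ := 0) (by positivity) ?_
    intro ε hε l _ hl1' Z
    have hL : (0 : ℝ) ≤ Real.log ((l : ℝ) + 2) / l := by
      have := log_pos' l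
      positivity
    have hT0 : ∀ V : 𝒱.Obj, (0 : ℝ) ≤ finrank W.K (T.C V) := fun V => Nat.cast_nonneg _
    rcases Nat.le_one_iff_eq_zero_or_eq_one.1 hε with rfl | rfl
    · refine (h₀ l hl1' Z).trans (mul_le_mul_of_nonneg_right ?_ (hT0 _))
      have : E₀ * (Real.log ((l : ℝ) + 2) / l) ≤ (E₀ + E₁) * (Real.log ((l : ℝ) + 2) / l) :=
        mul_le_mul_of_nonneg_right (by linarith) hL
      linarith
    · refine (h₁ l hl1' Z).trans (mul_le_mul_of_nonneg_right ?_ (hT0 _))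
      have : E₁ * (Real.log ((l : ℝ) + 2) / l) ≤ (E₀ + E₁) * (Real.log ((l : ℝ) + 2) / l) :=
        mul_le_mul_of_nonneg_right (by linarith) hL
      linarith

end Pool.Agent.E8helper24.INF
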